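import Pool.Agent.E8helper70.Dys.Pair

/-! # Single lags -/

set_option autoImplicit false

open Filter Topology MeasureTheory Set
open scoped ContDiff

namespace Pool.Agent.E8helper70.Dys

lemma sum_int_even (F : ℤ → ℝ) (he : ∀ k, F (-k) = F k) (K : ℕ) :
    ∑ k ∈ Finset.Icc (-(K : ℤ)) K, F k = F 0 + 2 * ∑ k ∈ Finset.Icc 1 K, F (k : ℤ) := by
  induction K with
  | zero => simp
  | succ K ih =>
    have h1 : Finset.Icc (-((K + 1 : ℕ) : ℤ)) ((K + 1 : ℕ) : ℤ) =
        insert (-((K + 1 : ℕ) : ℤ)) (insert ((K + 1 : ℕ) : ℤ) (Finset.Icc (-(K : ℤ)) K)) := by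
      ext m
      simp only [Finset.mem_Icc, Finset.mem_insert]
      push_cast
      omega
    rw [h1, Finset.sum_insert, Finset.sum_insert, ih, he, Finset.sum_Icc_succ_top (by omega)]
    · ring
    · simp
    · simp only [Finset.mem_insert, Finset.mem_Icc, not_or]
      push_cast
      constructor
      · omega
      · omega

lemma tsum_even (F : ℤ → ℝ) (he : ∀ k, F (-k) = F k) (K : ℕ) (hz : ∀ k : ℤ, (K : ℤ) < |k| → F k = 0) :
    ∑' k : ℤ, F k = F 0 + 2 * ∑ k ∈ Finset.Icc 1 K, F (k : ℤ) := by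
  rw [← sum_int_even F he K]
  apply tsum_eq_sum
  intro k hk
  apply hz
  rw [Finset.mem_Icc] at hk
  by_contra hcon
  push Not at hcon
  exact hk (abs_le.mp hcon)

/-- a bump away from the origin -/
lemma bump2 (ε : ℝ) (hε : 0 < ε) : ∃ G : ℝ → ℝ, ContDiff ℝ ∞ G ∧ HasCompactSupport G ∧
    (∀ x, G (-x) = G x) ∧ (∀ x, 0 ≤ G x) ∧ (∀ x, G x ≠ 0 → 1 < |x| ∧ |x| < 1 + ε) ∧
    0 < ∫ x in Ioi (0 : ℝ), G x / x ^ 2 := by
  set b : ContDiffBump (1 + ε / 2 : ℝ) := ⟨ε / 8, ε / 4, by positivity, by linarith⟩ with hb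
  have hsup : ∀ x : ℝ, b x ≠ 0 → 1 + ε / 4 < x ∧ x < 1 + 3 * ε / 4 := by
    intro x hx
    have h1 : x ∈ Function.support b := hx
    rw [b.support_eq, Metric.mem_ball, Real.dist_eq, abs_lt] at h1
    have h2 : b.rOut = ε / 4 := rfl
    rw [h2] at h1
    constructor <;> linarith [h1.1, h1.2]
  set G : ℝ → ℝ := fun x => b x + b (-x) with hG
  have hcd : ContDiff ℝ ∞ G := by
    have h1 : ContDiff ℝ ∞ (b : ℝ → ℝ) := b.contDiff
    exact h1.add (h1.comp contDiff_neg)
  have hnn : ∀ x, 0 ≤ G x := fun x => add_nonneg b.nonneg b.nonneg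
  have hG0 : ∀ x, G x ≠ 0 → 1 + ε / 4 < |x| ∧ |x| < 1 + 3 * ε / 4 := by
    intro x hx
    by_cases h1 : b x = 0
    · have h2 : b (-x) ≠ 0 := by
        intro h3
        apply hx
        simp only [hG, h1, h3, add_zero]
      have h3 := hsup _ h2
      rw [abs_of_neg (by linarith)]
      exact h3
    · have h3 := hsup _ h1
      rw [abs_of_pos (by linarith)]
      exact h3
  have hcs : HasCompactSupport G := by
    apply HasCompactSupport.of_support_subset_isCompact (isCompact_Icc (a := -(1 + ε)) (b := 1 + ε))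
    intro x hx
    have := hG0 x hx
    have h5 : |x| ≤ 1 + ε := by linarith [this.2]
    exact abs_le.mp h5
  refine ⟨G, hcd, hcs, ?_, hnn, fun x hx => ?_, ?_⟩
  · intro x
    simp only [hG, neg_neg]
    ring
  · have := hG0 x hx
    constructor <;> linarith [this.1, this.2]
  · have hint : IntegrableOn (fun x => G x / x ^ 2) (Ioi 0) := by
      have h1 : Integrable G := hcd.continuous.integrable_of_hasCompactSupport hcs
      refine Integrable.integrableOn (h1.mono' ?_ (Eventually.of_forall fun x => ?_))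
      · exact (hcd.continuous.measurable.div (measurable_id.pow_const 2)).aestronglyMeasurable
      · by_cases h2 : G x = 0
        · rw [h2]; simp
        · have h3 := (hG0 x h2).1
          rw [Real.norm_eq_abs, abs_div, abs_of_nonneg (hnn x), abs_of_nonneg (sq_nonneg x)]
          apply div_le_self (hnn x)
          rw [← sq_abs]
          nlinarith
    rw [setIntegral_pos_iff_support_of_nonneg_ae]
    · have h1 : Ioo (1 + 3 * ε / 8) (1 + 5 * ε / 8) ⊆
          Function.support (fun x => G x / x ^ 2) ∩ Ioi 0 := by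
        intro x hx
        have hx0 : 0 < x := by linarith [hx.1]
        refine ⟨?_, hx0⟩
        rw [Function.mem_support]
        have h2 : b x = 1 := by
          apply b.one_of_mem_closedBall
          rw [Metric.mem_closedBall, Real.dist_eq, abs_le]
          have : b.rIn = ε / 8 := rfl
          rw [this]
          constructor <;> linarith [hx.1, hx.2]
        have h3 : 0 ≤ b (-x) := b.nonneg
        have h4 : 0 < G x := by simp only [hG, h2]; linarith
        positivity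
      refine lt_of_lt_of_le ?_ (measure_mono h1)
      rw [Real.volume_Ioo]
      simp only [ENNReal.ofReal_pos]
      linarith
    · exact Eventually.of_forall fun x => div_nonneg (hnn x) (sq_nonneg x)
    · exact hint

/-- the averaged law -/
def Law (c : ℕ → ℕ → ℝ) : Prop := ∀ G : ℝ → ℝ, ContDiff ℝ ∞ G → HasCompactSupport G →
  (∀ x, G (-x) = G x) → ∃ C : ℝ, 0 < C ∧ ∀ R : ℝ, 2 ≤ R → ∀ ε : ℝ, 0 < ε → ∀ᶠ N : ℕ in atTop,
    |R * ∑' k : ℤ, G (k / R) * c N k.natAbs - LG G| ≤ C * Real.log R ^ 2 / R + ε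

theorem single (c : ℕ → ℕ → ℝ) (hc : Law c) (ε : ℝ) (hε : 0 < ε) : ∃ R0 : ℝ, ∀ R : ℝ, R0 ≤ R →
    ∀ᶠ N : ℕ in atTop,
      (∃ k : ℕ, R ≤ k ∧ (k : ℝ) ≤ (1 + ε) * R ∧ c N k ≤ -(1 - ε) / (2 * Real.pi ^ 2 * k ^ 2)) ∧
      (∃ k : ℕ, R ≤ k ∧ (k : ℝ) ≤ (1 + ε) * R ∧ -(1 + ε) / (2 * Real.pi ^ 2 * k ^ 2) ≤ c N k) := by
  have hpi := Real.pi_pos
  obtain ⟨G, hcd, hcs, hev, hnn, hsupp, hJ⟩ := bump2 ε hε
  obtain ⟨J, hJd⟩ : ∃ J : ℝ, J = ∫ x in Ioi (0 : ℝ), G x / x ^ 2 := ⟨_, rfl⟩
  rw [← hJd] at hJ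
  obtain ⟨C, hC, hlaw⟩ := hc G hcd hcs hev
  have hG0 : G 0 = 0 := by
    by_contra h
    have := (hsupp 0 h).1
    simp at this
    linarith
  have hLG : LG G = -(J / Real.pi ^ 2) := by
    unfold LG
    have : ∫ x in Ioi (0 : ℝ), (G 0 - G x) / x ^ 2 = -J := by
      rw [hJd, ← integral_neg]
      congr 1
      funext x
      rw [hG0]; ring
    rw [this]; ring
  -- the function `G x / x²`
  set F : ℝ → ℝ := fun x => G x / x ^ 2 with hF
  have hFcd : ContDiff ℝ ∞ F := by
    rw [contDiff_iff_contDiffAt]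
    intro x
    by_cases hx : |x| < 1
    · have ho : IsOpen {y : ℝ | |y| < 1} := isOpen_lt continuous_abs continuous_const
      have h1 : F =ᶠ[𝓝 x] fun _ => 0 := by
        filter_upwards [ho.mem_nhds hx] with y hy
        have : G y = 0 := by
          by_contra h
          have h2 := (hsupp y h).1
          have h3 : |y| < 1 := hy
          linarith
        simp [hF, this]
      exact contDiffAt_const.congr_of_eventuallyEq h1
    · have hx0 : x ≠ 0 := by
        rintro rfl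
        simp at hx
      exact hcd.contDiffAt.div (contDiffAt_id.pow 2) (pow_ne_zero 2 hx0)
  have hFcs : HasCompactSupport F := by
    apply hcs.mono
    intro x hx
    rw [Function.mem_support] at hx ⊢
    intro h
    apply hx
    simp [hF, h]
  have hFev : ∀ x, F (-x) = F x := by
    intro x
    simp only [hF, hev, neg_sq]
  obtain ⟨G1, G2, G3, G4, B, tf⟩ := exists_TF hFcd hFcs
  have hB := tf.B0
  have hA : ∀ x, 1 + ε < |x| → F x = 0 := by
    intro x hx
    have : G x = 0 := by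
      by_contra h
      have := (hsupp x h).2
      linarith
    simp [hF, this]
  have hGA : ∀ x, 1 + ε ≤ |x| → G x = 0 := by
    intro x hx
    by_contra h
    have := (hsupp x h).2
    linarith
  have hFint : ∫ x, F x = 2 * J := by
    have h1 := integral_comp_abs (f := F)
    have h2 : ∀ x, F |x| = F x := by
      intro x
      rcases abs_choice x with h3 | h3
      · rw [h3]
      · rw [h3, hFev]
    simp only [h2] at h1
    rw [h1, hJd]
  -- the size of `R`
  have hlim : Tendsto (fun R : ℝ => 4 * B * (2 * (1 + ε) + 2) / R ^ 1 + C * Real.pi ^ 2 *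
      (Real.log R ^ 2 / R)) atTop (𝓝 0) := by
    have h1 : Tendsto (fun R : ℝ => 4 * B * (2 * (1 + ε) + 2) / R ^ 1) atTop (𝓝 0) := by
      simp only [pow_one]
      exact tendsto_const_nhds.div_atTop tendsto_id
    have h2 : Tendsto (fun x : ℝ => Real.log x ^ 2 / x) atTop (𝓝 0) := by
      have := Real.tendsto_pow_log_div_mul_add_atTop 1 0 2 one_ne_zero
      simpa using this
    have := h1.add (h2.const_mul (C * Real.pi ^ 2))
    simpa using this
  have hev2 := hlim.eventually_lt_const (show (0 : ℝ) < min 1 ε * J / 8 by positivity)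
  obtain ⟨R1, hR1⟩ := hev2.exists_forall_of_atTop
  refine ⟨max R1 2, fun R hR => ?_⟩
  have hR2 : 2 ≤ R := (le_max_right _ _).trans hR
  have hR0 : 0 < R := by linarith
  have hsmall := hR1 R ((le_max_left _ _).trans hR)
  rw [pow_one] at hsmall
  -- number of lags
  obtain ⟨K, hK⟩ : ∃ K : ℕ, K = ⌈(1 + ε) * R⌉₊ + 1 := ⟨_, rfl⟩
  have hK1 : (1 + ε) * R < K := by
    rw [hK]; push_cast
    have := Nat.le_ceil ((1 + ε) * R)
    linarith
  have hK2 : (K : ℝ) ≤ (2 * (1 + ε) + 2) * R := by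
    rw [hK]; push_cast
    have := Nat.ceil_lt_add_one (show 0 ≤ (1 + ε) * R by positivity)
    nlinarith
  have hrm := riem tf hFev (by linarith) (by linarith) hA K hK1
  have hF0 : F 0 = 0 := by simp [hF]
  rw [hF0, zero_add, hFint] at hrm
  -- the sum of `F`
  obtain ⟨Sf, hSf⟩ : ∃ Sf : ℝ, Sf = ∑ k ∈ Finset.Icc 1 K, F (k / R) := ⟨_, rfl⟩
  rw [← hSf] at hrm
  have hSfb : |Sf / R - J| ≤ 4 * B * (2 * (1 + ε) + 2) / R := by
    have e1 : Sf / R - J = (2 * Sf - R * (2 * J)) / (2 * R) := by field_simp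
    rw [e1, abs_div, abs_of_pos (by positivity : (0 : ℝ) < 2 * R), div_le_iff₀ (by positivity)]
    refine hrm.trans ?_
    have e2 : 4 * B * (2 * (1 + ε) + 2) / R * (2 * R) = 8 * B * (2 * (1 + ε) + 2) := by
      field_simp; ring
    rw [e2, div_le_iff₀ (by positivity)]
    have h3 : R ≤ R ^ 3 := le_self_pow₀ (by linarith) (by norm_num)
    have h4 : 4 * B * K ≤ 4 * B * ((2 * (1 + ε) + 2) * R) := by gcongr
    have h5 : 4 * B * ((2 * (1 + ε) + 2) * R) ≤ 4 * B * ((2 * (1 + ε) + 2) * R ^ 3) := by gcongr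
    have h6 : 0 ≤ 4 * B * ((2 * (1 + ε) + 2) * R ^ 3) := by positivity
    linarith
  filter_upwards [hlaw R hR2 (min 1 ε * J / 8 / Real.pi ^ 2) (by positivity)] with N hN
  -- the sum of the autocovariances
  have hts : ∑' k : ℤ, G (k / R) * c N k.natAbs =
      2 * ∑ k ∈ Finset.Icc 1 K, G (k / R) * c N k := by
    have h1 := tsum_even (fun k : ℤ => G (k / R) * c N k.natAbs) (fun k => by
      push_cast
      rw [neg_div, hev, Int.natAbs_neg]) K (fun k hk => by
      have : G ((k : ℝ) / R) = 0 := by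
        apply hGA
        rw [abs_div, abs_of_pos hR0, le_div_iff₀ hR0]
        have h2 : (K : ℝ) < |(k : ℝ)| := by exact_mod_cast hk
        linarith
      simp only [this, zero_mul])
    simp only [Int.cast_zero, zero_div, hG0, zero_mul, zero_add, Int.cast_natCast,
      Int.natAbs_natCast] at h1
    exact h1
  rw [hts, hLG] at hN
  obtain ⟨Sc, hSc⟩ : ∃ Sc : ℝ, Sc = ∑ k ∈ Finset.Icc 1 K, G (k / R) * c N k := ⟨_, rfl⟩
  rw [← hSc] at hN
  have hN2 : |R * (2 * Sc) * Real.pi ^ 2 + J| ≤ C * Real.pi ^ 2 * (Real.log R ^ 2 / R) +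
      min 1 ε * J / 8 := by
    have e1 : R * (2 * Sc) * Real.pi ^ 2 + J = (R * (2 * Sc) - -(J / Real.pi ^ 2)) * Real.pi ^ 2 := by
      field_simp; ring
    rw [e1, abs_mul, abs_of_pos (by positivity : (0 : ℝ) < Real.pi ^ 2)]
    calc _ ≤ (C * Real.log R ^ 2 / R + min 1 ε * J / 8 / Real.pi ^ 2) * Real.pi ^ 2 :=
          mul_le_mul_of_nonneg_right hN (by positivity)
      _ = _ := by field_simp
  -- if all lags were on one side
  have hcmp : ∀ k ∈ Finset.Icc 1 K, G ((k : ℝ) / R) ≠ 0 → R ≤ k ∧ (k : ℝ) ≤ (1 + ε) * R := by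
    intro k _ hk
    have h1 := hsupp _ hk
    rw [abs_of_nonneg (by positivity), lt_div_iff₀ hR0, div_lt_iff₀ hR0] at h1
    constructor <;> linarith [h1.1, h1.2]
  have hterm : ∀ k ∈ Finset.Icc 1 K, G ((k : ℝ) / R) * (1 / (2 * Real.pi ^ 2 * k ^ 2)) =
      1 / (2 * Real.pi ^ 2 * R ^ 2) * F (k / R) := by
    intro k hk
    have hk0 : (0 : ℝ) < k := by exact_mod_cast (Finset.mem_Icc.mp hk).1
    simp only [hF]
    field_simp
  have hJ0 : 0 ≤ min 1 ε * J / 8 := by positivity
  have hm1 : min 1 ε ≤ 1 := min_le_left _ _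
  have hm2 : min 1 ε ≤ ε := min_le_right _ _
  have hCR : 0 ≤ C * Real.pi ^ 2 * (Real.log R ^ 2 / R) := by positivity
  have hBR : 0 ≤ 4 * B * (2 * (1 + ε) + 2) / R := by positivity
  have hSfp := abs_le.mp hSfb
  have hNp := abs_le.mp hN2
  have hSf0 : 0 ≤ Sf / R := by
    rw [hSf]
    apply div_nonneg (Finset.sum_nonneg fun k _ => ?_) hR0.le
    exact div_nonneg (hnn _) (sq_nonneg _)
  constructor
  · by_contra hcon
    push Not at hcon
    have h1 : -(1 - ε) * (1 / (2 * Real.pi ^ 2 * R ^ 2) * Sf) ≤ Sc := by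
      rw [hSc, hSf, Finset.mul_sum, Finset.mul_sum]
      refine Finset.sum_le_sum fun k hk => ?_
      rw [← hterm k hk]
      by_cases h2 : G ((k : ℝ) / R) = 0
      · rw [h2]; simp
      · obtain ⟨h3, h4⟩ := hcmp k hk h2
        have h5 := hcon k h3 h4
        have h6 : -(1 - ε) * (G ((k : ℝ) / R) * (1 / (2 * Real.pi ^ 2 * k ^ 2))) =
            G ((k : ℝ) / R) * (-(1 - ε) / (2 * Real.pi ^ 2 * k ^ 2)) := by ring
        rw [h6]
        exact mul_le_mul_of_nonneg_left h5.le (hnn _)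
    have h2 : -(1 - ε) * (Sf / R) ≤ R * (2 * Sc) * Real.pi ^ 2 := by
      have e1 : R * (2 * Sc) * Real.pi ^ 2 = (2 * Real.pi ^ 2 * R) * Sc := by ring
      have e2 : -(1 - ε) * (Sf / R) = (2 * Real.pi ^ 2 * R) *
          (-(1 - ε) * (1 / (2 * Real.pi ^ 2 * R ^ 2) * Sf)) := by field_simp
      rw [e1, e2]
      exact mul_le_mul_of_nonneg_left h1 (by positivity)
    rcases le_total ε 1 with h3 | h3
    · have hm : min 1 ε = ε := min_eq_right h3
      rw [hm] at hsmall hNp hJ0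
      nlinarith [hSfp.1, hSfp.2, hNp.1, hNp.2]
    · have hm : min 1 ε = 1 := min_eq_left h3
      rw [hm] at hsmall hNp hJ0
      nlinarith [hSfp.1, hSfp.2, hNp.1, hNp.2]
  · by_contra hcon
    push Not at hcon
    have h1 : Sc ≤ -(1 + ε) * (1 / (2 * Real.pi ^ 2 * R ^ 2) * Sf) := by
      rw [hSc, hSf, Finset.mul_sum, Finset.mul_sum]
      refine Finset.sum_le_sum fun k hk => ?_
      rw [← hterm k hk]
      by_cases h2 : G ((k : ℝ) / R) = 0
      · rw [h2]; simp
      · obtain ⟨h3, h4⟩ := hcmp k hk h2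
        have h5 := hcon k h3 h4
        have h6 : -(1 + ε) * (G ((k : ℝ) / R) * (1 / (2 * Real.pi ^ 2 * k ^ 2))) =
            G ((k : ℝ) / R) * (-(1 + ε) / (2 * Real.pi ^ 2 * k ^ 2)) := by ring
        rw [h6]
        exact mul_le_mul_of_nonneg_left h5.le (hnn _)
    have h2 : R * (2 * Sc) * Real.pi ^ 2 ≤ -(1 + ε) * (Sf / R) := by
      have e1 : R * (2 * Sc) * Real.pi ^ 2 = (2 * Real.pi ^ 2 * R) * Sc := by ring
      have e2 : -(1 + ε) * (Sf / R) = (2 * Real.pi ^ 2 * R) *
          (-(1 + ε) * (1 / (2 * Real.pi ^ 2 * R ^ 2) * Sf)) := by field_simp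
      rw [e1, e2]
      exact mul_le_mul_of_nonneg_left h1 (by positivity)
    have h7 : J / 2 ≤ Sf / R := by
      have : min 1 ε * J / 8 ≤ J / 8 := by nlinarith
      linarith [hSfp.1]
    have h8 : min 1 ε * J ≤ ε * J := mul_le_mul_of_nonneg_right hm2 hJ.le
    nlinarith [hSfp.1, hSfp.2, hNp.1, hNp.2]

end Pool.Agent.E8helper70.Dys
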