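import Pool.Agent.E8helper70.Dys.Blo
import Pool.Agent.E8helper70.Dys.Cor

/-! # The averaged law for the autocovariances of the gaps -/

set_option autoImplicit false

open Filter Topology MeasureTheory
open scoped ContDiff

namespace Pool.Agent.E8helper70.Dys

open SG (ord NZ)
open SP (RHs)
open LG (dlt)
open Pool.Agent.Y747 (Bx mem_Bx)
open Pool.Agent.TH873.EW (XV)

/-- the centred gaps grow at most logarithmically -/
lemma grow (hR : RHs) : ∃ C : ℝ, 1 ≤ C ∧ ∀ n : ℕ, 1 ≤ n → |dlt n - 1| ≤ C * (1 + Real.log n) := by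
  obtain ⟨C, hC, h⟩ := Pool.Agent.Y743.PR.gap_log hR
  obtain ⟨n0, hn0⟩ := (SG.ord_tendsto.eventually_ge_atTop 1).exists_forall_of_atTop
  have hS : 0 ≤ ∑ n ∈ Finset.range n0, |dlt n - 1| := Finset.sum_nonneg fun _ _ => abs_nonneg _
  refine ⟨C + 1 + ∑ n ∈ Finset.range n0, |dlt n - 1|, by linarith, fun n hn => ?_⟩
  have hl : 0 ≤ Real.log n := Real.log_natCast_nonneg n
  rcases lt_or_ge n n0 with h1 | h1
  · have h2 : |dlt n - 1| ≤ ∑ n ∈ Finset.range n0, |dlt n - 1| :=
      Finset.single_le_sum (f := fun n => |dlt n - 1|) (fun _ _ => abs_nonneg _)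
        (Finset.mem_range.mpr h1)
    nlinarith
  · have h2 : 0 ≤ dlt n := by
      have hpi := Real.pi_pos
      have ha := hn0 n h1
      have hb := SG.ord_mono hn (Nat.le_succ n)
      unfold LG.dlt
      apply div_nonneg _ (by positivity)
      have h3 : Real.log (ord n) ≤ Real.log (ord (n + 1)) := Real.log_le_log (by linarith) hb
      have h4 : 0 ≤ Real.log (ord n) := Real.log_nonneg ha
      have h5 : ord n * Real.log (ord n) ≤ ord (n + 1) * Real.log (ord (n + 1)) :=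
        mul_le_mul hb h3 h4 (by linarith)
      linarith
    have h3 := h n hn
    have h4 : 0 ≤ C * (1 + Real.log n) := by positivity
    rw [abs_le]
    constructor
    · nlinarith
    · nlinarith

/-- the autocovariance at lag `k` -/
noncomputable def cv (N k : ℕ) : ℝ :=
  (1 / N : ℝ) * ∑ n ∈ Finset.Icc 1 N, (dlt n - 1) * (dlt (n + k) - 1)

theorem law (hRH : RiemannHypothesis) (hR : RHs) : Law cv := by
  intro G hs hc hev
  obtain ⟨A, hA1, hA⟩ : ∃ A : ℝ, 1 ≤ A ∧ ∀ x, A < |x| → G x = 0 := by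
    obtain ⟨A, hA⟩ := hc.isCompact.isBounded.subset_closedBall (0 : ℝ)
    refine ⟨|A| + 1, by linarith [abs_nonneg A], fun x hx => ?_⟩
    by_contra hne
    have h1 : x ∈ tsupport G := subset_tsupport _ hne
    have h2 := hA h1
    rw [Metric.mem_closedBall, Real.dist_eq, sub_zero] at h2
    linarith [le_abs_self A]
  obtain ⟨C, hC, hblk⟩ := block hRH hR hs hc hev hA1 hA
  obtain ⟨G1, G2, G3, G4, B, tf⟩ := exists_TF hs hc
  have hB := tf.B0
  obtain ⟨Cg, hCg, hgr⟩ := grow hR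
  refine ⟨C, hC, fun R hR2 ε hε => ?_⟩
  have hR0 : 0 < R := by linarith
  obtain ⟨K, hK⟩ : ∃ K : ℕ, K = KK A R := ⟨_, rfl⟩
  have hb := hblk R hR2
  rw [← hK] at hb
  have hKA : A * R < K := by
    rw [hK, KK]
    push_cast
    have := Nat.le_ceil (4 * (A * R))
    have : 0 < A * R := by positivity
    linarith
  obtain ⟨L, hL⟩ : ∃ L : ℝ, L = 1 / R * LG G := ⟨_, rfl⟩
  rw [← hL] at hb
  set f : ℕ → ℝ := fun n => G 0 * ((dlt n - 1) * (dlt n - 1)) +
    2 * ∑ k ∈ Finset.Icc 1 K, G (k / R) * ((dlt n - 1) * (dlt (n + k) - 1)) - L with hf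
  obtain ⟨η, hη⟩ : ∃ η : ℝ, η = C * Real.log R ^ 2 / R ^ 2 := ⟨_, rfl⟩
  have hη0 : 0 ≤ η := by rw [hη]; positivity
  have hsumf : ∀ S : Finset ℕ, ∑ n ∈ S, f n = (G 0 * (∑ n ∈ S, (dlt n - 1) * (dlt n - 1)) +
      2 * ∑ k ∈ Finset.Icc 1 K, G (k / R) * ∑ n ∈ S, (dlt n - 1) * (dlt (n + k) - 1)) -
      S.card * L := by
    intro S
    simp only [hf]
    rw [Finset.sum_sub_distrib, Finset.sum_add_distrib, Finset.sum_const, nsmul_eq_mul,
      ← Finset.mul_sum, ← Finset.mul_sum, Finset.sum_comm]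
    congr 3
    refine Finset.sum_congr rfl fun k _ => ?_
    rw [Finset.mul_sum]
  -- growth
  have hgrow : ∃ Cf : ℝ, 0 ≤ Cf ∧ ∀ n : ℕ, 1 ≤ n → |f n| ≤ Cf * (1 + Real.log n) ^ 2 := by
    refine ⟨|G 0| * Cg ^ 2 + 2 * (K * (B * (Cg ^ 2 * (1 + Real.log (1 + K))))) + |L|, ?_, fun n hn => ?_⟩
    · have : 0 ≤ Real.log (1 + K) := Real.log_nonneg (by
        have : (0 : ℝ) ≤ K := Nat.cast_nonneg K
        linarith)
      positivity
    · have hn1 : (1 : ℝ) ≤ n := by exact_mod_cast hn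
      have hl : 0 ≤ Real.log n := Real.log_nonneg hn1
      have h1 : 1 ≤ (1 + Real.log n) ^ 2 := one_le_pow₀ (by linarith)
      have g0 := hgr n hn
      have gk : ∀ k ∈ Finset.Icc 1 K, |G (k / R) * ((dlt n - 1) * (dlt (n + k) - 1))| ≤
          B * (Cg ^ 2 * (1 + Real.log (1 + K))) * (1 + Real.log n) ^ 2 := by
        intro k hk
        rw [Finset.mem_Icc] at hk
        have hk1 : (1 : ℝ) ≤ k := by exact_mod_cast hk.1
        have hkK : (k : ℝ) ≤ K := by exact_mod_cast hk.2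
        have g2 := hgr (n + k) (by omega)
        have h2 : Real.log ((n + k : ℕ) : ℝ) ≤ Real.log (1 + K) + Real.log n := by
          rw [← Real.log_mul (by positivity) (by positivity)]
          apply Real.log_le_log (by positivity)
          push_cast
          nlinarith
        have h3 : 0 ≤ Real.log (1 + K) := Real.log_nonneg (by linarith)
        have h4 : |dlt (n + k) - 1| ≤ Cg * ((1 + Real.log (1 + K)) * (1 + Real.log n)) := by
          refine g2.trans ?_
          apply mul_le_mul_of_nonneg_left _ (by linarith)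
          nlinarith
        rw [abs_mul, abs_mul]
        calc |G (k / R)| * (|dlt n - 1| * |dlt (n + k) - 1|) ≤
            B * ((Cg * (1 + Real.log n)) * (Cg * ((1 + Real.log (1 + K)) * (1 + Real.log n)))) := by
              apply mul_le_mul (tf.b0 _) _ (by positivity) hB
              exact mul_le_mul g0 h4 (abs_nonneg _) (by positivity)
          _ = _ := by ring
      simp only [hf]
      refine (abs_sub _ _).trans ?_
      have a1 := abs_add_le (G 0 * ((dlt n - 1) * (dlt n - 1)))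
        (2 * ∑ k ∈ Finset.Icc 1 K, G (k / R) * ((dlt n - 1) * (dlt (n + k) - 1)))
      have a2 : |G 0 * ((dlt n - 1) * (dlt n - 1))| ≤ |G 0| * Cg ^ 2 * (1 + Real.log n) ^ 2 := by
        rw [abs_mul, abs_mul, mul_assoc]
        apply mul_le_mul_of_nonneg_left _ (abs_nonneg _)
        calc |dlt n - 1| * |dlt n - 1| ≤ (Cg * (1 + Real.log n)) * (Cg * (1 + Real.log n)) :=
              mul_le_mul g0 g0 (abs_nonneg _) (by positivity)
          _ = _ := by ring
      have a3 : |2 * ∑ k ∈ Finset.Icc 1 K, G (k / R) * ((dlt n - 1) * (dlt (n + k) - 1))| ≤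
          2 * (K * (B * (Cg ^ 2 * (1 + Real.log (1 + K))))) * (1 + Real.log n) ^ 2 := by
        rw [abs_mul, abs_two, mul_assoc]
        apply mul_le_mul_of_nonneg_left _ (by norm_num)
        refine (Finset.abs_sum_le_sum_abs _ _).trans ((Finset.sum_le_sum gk).trans (le_of_eq ?_))
        rw [Finset.sum_const, Nat.card_Icc, nsmul_eq_mul, Nat.add_sub_cancel]
        ring
      have a4 : |L| ≤ |L| * (1 + Real.log n) ^ 2 := le_mul_of_one_le_right (abs_nonneg _) h1
      linarith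
  obtain ⟨Cf, hCf, hgrowf⟩ := hgrow
  -- blocks
  have hblkf : ∀ e : ℝ, 0 < e → ∃ V0 : ℝ, 10 ≤ V0 ∧ ∀ V : ℝ, V0 ≤ V →
      |∑ n ∈ Bx V, f n| ≤ (η + e) * XV V := by
    intro e he
    obtain ⟨V1, hV1, h1⟩ := hb (e / 2) (by positivity)
    obtain ⟨V2, hV2, h2⟩ := (pairHyp hRH).2 gpsi gpsi_cd gpsi_one (e / (2 * (|L| + 1)))
      (by positivity)
    refine ⟨max V1 V2, hV1.trans (le_max_left _ _), fun V hV => ?_⟩
    have a1 := h1 V ((le_max_left _ _).trans hV)
    have a2 := (h2 V ((le_max_right _ _).trans hV)).1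
    have hX := XV_pos (hV1.trans ((le_max_left _ _).trans hV))
    rw [hsumf]
    have e1 : (G 0 * (∑ n ∈ Bx V, (dlt n - 1) * (dlt n - 1)) +
      2 * ∑ k ∈ Finset.Icc 1 K, G (k / R) * ∑ n ∈ Bx V, (dlt n - 1) * (dlt (n + k) - 1)) -
      (Bx V).card * L = ((G 0 * (∑ n ∈ Bx V, (dlt n - 1) * (dlt n - 1)) +
      2 * ∑ k ∈ Finset.Icc 1 K, G (k / R) * ∑ n ∈ Bx V, (dlt n - 1) * (dlt (n + k) - 1)) -
      XV V * L) - (((Bx V).card : ℝ) - XV V) * L := by ring
    rw [e1]
    refine (abs_sub _ _).trans ?_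
    have a3 : |(((Bx V).card : ℝ) - XV V) * L| ≤ e / 2 * XV V := by
      rw [abs_mul]
      calc |((Bx V).card : ℝ) - XV V| * |L| ≤ (e / (2 * (|L| + 1)) * XV V) * (|L| + 1) := by
            apply mul_le_mul a2 (by linarith) (abs_nonneg _) (by positivity)
        _ = _ := by field_simp
    have e2 : (η + e) * XV V = (C * Real.log R ^ 2 / R ^ 2 + e / 2) * XV V + e / 2 * XV V := by
      rw [hη]; ring
    rw [e2]
    exact add_le_add a1 a3
  filter_upwards [glo hRH f Cf η hCf hη0 hgrowf hblkf (ε / R) (by positivity),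
    eventually_ge_atTop 1] with N hN hN1
  have hN0 : (0 : ℝ) < N := by exact_mod_cast hN1
  rw [hsumf, Nat.card_Icc, Nat.add_sub_cancel] at hN
  -- the sum over all lags
  have hts : ∑' k : ℤ, G (k / R) * cv N k.natAbs =
      G 0 * cv N 0 + 2 * ∑ k ∈ Finset.Icc 1 K, G (k / R) * cv N k := by
    have h1 := tsum_even (fun k : ℤ => G (k / R) * cv N k.natAbs) (fun k => by
      push_cast
      rw [neg_div, hev, Int.natAbs_neg]) K (fun k hk => by
      have : G ((k : ℝ) / R) = 0 := by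
        apply hA
        rw [abs_div, abs_of_pos hR0, lt_div_iff₀ hR0]
        have h2 : (K : ℝ) < |(k : ℝ)| := by exact_mod_cast hk
        linarith
      simp only [this, zero_mul])
    simp only [Int.cast_zero, zero_div, Int.natAbs_zero, Int.cast_natCast,
      Int.natAbs_natCast] at h1
    exact h1
  rw [hts]
  have e1 : R * (G 0 * cv N 0 + 2 * ∑ k ∈ Finset.Icc 1 K, G (k / R) * cv N k) - LG G =
      R / N * ((G 0 * (∑ n ∈ Finset.Icc 1 N, (dlt n - 1) * (dlt n - 1)) +
      2 * ∑ k ∈ Finset.Icc 1 K, G (k / R) * ∑ n ∈ Finset.Icc 1 N, (dlt n - 1) * (dlt (n + k) - 1)) -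
      N * L) := by
    unfold cv
    simp only [add_zero]
    have e2 : ∑ k ∈ Finset.Icc 1 K, G (k / R) * ((1 / N : ℝ) *
        ∑ n ∈ Finset.Icc 1 N, (dlt n - 1) * (dlt (n + k) - 1)) =
        (1 / N : ℝ) * ∑ k ∈ Finset.Icc 1 K, G (k / R) *
        ∑ n ∈ Finset.Icc 1 N, (dlt n - 1) * (dlt (n + k) - 1) := by
      rw [Finset.mul_sum]
      exact Finset.sum_congr rfl fun k _ => by ring
    rw [e2, hL]
    field_simp
  rw [e1, abs_mul, abs_of_pos (by positivity : (0 : ℝ) < R / N)]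
  calc R / N * _ ≤ R / N * ((η + ε / R) * N) := mul_le_mul_of_nonneg_left hN (by positivity)
    _ = C * Real.log R ^ 2 / R + ε := by rw [hη]; field_simp

end Pool.Agent.E8helper70.Dys
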