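import Pool.Agent.E8helper70.Dys.Tay

/-! # The expansion on an interval of indices -/

set_option autoImplicit false

open Finset

namespace Pool.Agent.E8helper70.Dys

open Pool.Agent.R846.NC (AA)

variable {G G1 G2 G3 G4 : ℝ → ℝ} {B : ℝ}

lemma shift_sum {N1 N2 : ℕ} (h : N1 ≤ N2) (f : ℕ → ℝ) :
    ∑ n ∈ Icc 1 (N2 - N1), f (N1 + n) = ∑ n ∈ Ioc N1 N2, f n := by
  have : Ioc N1 N2 = (Icc 1 (N2 - N1)).image (fun n => N1 + n) := by
    ext m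
    simp only [mem_Ioc, mem_image, mem_Icc]
    constructor
    · intro h1
      exact ⟨m - N1, by omega, by omega⟩
    · rintro ⟨k, hk, rfl⟩
      omega
  rw [this, Finset.sum_image]
  intro a _ b _ h1
  simpa using h1

theorem expansion' (h : TF G G1 G2 G3 G4 B) (hev : ∀ x, G (-x) = G x) {A R : ℝ} (hR : 1 ≤ R)
    (hA : ∀ x, A < |x| → G x = 0) (y : ℕ → ℝ) {N1 N2 : ℕ} (hN : N1 ≤ N2) (K : ℕ) (hK : A * R < K)
    (M : ℝ) (hM : ∀ n, N1 < n → n ≤ N2 + 2 * K → |xx y n| ≤ M) :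
    |∑ n ∈ Ioc N1 N2, ∑ m ∈ Ioc N1 N2, G ((y m - y n) / R) -
      (((Ioc N1 N2).card : ℝ) * (G 0 + 2 * ∑ k ∈ Icc 1 K, G (k / R)) +
        (G 0 * (∑ n ∈ Ioc N1 N2, xx y n * xx y n) +
          2 * ∑ k ∈ Icc 1 K, G (k / R) * ∑ n ∈ Ioc N1 N2, xx y n * xx y (n + k)))| ≤
      2 * B * (∑ n ∈ Ioc N1 N2, (((Ioc (n + K) N2).filter fun m => |y m - y n| ≤ A * R).card : ℝ)) +
        2 * B * (K : ℝ) ^ 2 + 2 * B / R * ∑ k ∈ Icc 1 K, |∑ n ∈ Ioc N1 N2, uu y k n| +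
        4 * B / R ^ 2 * ∑ k ∈ Icc 1 K, ∑ n ∈ Ioc N1 N2, Ph R (uu y k n) +
        2 * B / R ^ 4 * ∑ k ∈ Icc 1 K, ∑ n ∈ Ioc N1 N2, uu y k n ^ 2 +
        6 * B / R ^ 2 * ((K : ℝ) ^ 4 * M ^ 2) := by
  have hx : ∀ n, xx (fun n => y (N1 + n)) n = xx y (N1 + n) := by
    intro n
    unfold xx
    rfl
  have hu : ∀ k n, uu (fun n => y (N1 + n)) k n = uu y k (N1 + n) := by
    intro k n
    unfold uu
    rw [Nat.add_assoc]
  have h1 := expansion h hev hR hA (fun n => y (N1 + n)) (N2 - N1) K hK M (by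
    intro n a b
    rw [hx]
    exact hM _ (by omega) (by omega))
  simp only [hu, AA, hx, Nat.add_zero] at h1
  have e1 : ∑ n ∈ Icc 1 (N2 - N1), ∑ m ∈ Icc 1 (N2 - N1), G ((y (N1 + m) - y (N1 + n)) / R) =
      ∑ n ∈ Ioc N1 N2, ∑ m ∈ Ioc N1 N2, G ((y m - y n) / R) := by
    rw [← shift_sum hN]
    refine Finset.sum_congr rfl fun n _ => ?_
    rw [← shift_sum hN]
  have e2 : ∀ k, ∑ n ∈ Icc 1 (N2 - N1), xx y (N1 + n) * xx y (N1 + (n + k)) =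
      ∑ n ∈ Ioc N1 N2, xx y n * xx y (n + k) := by
    intro k
    rw [← shift_sum hN]
    refine Finset.sum_congr rfl fun n _ => ?_
    rw [Nat.add_assoc]
  have e2' : ∑ n ∈ Icc 1 (N2 - N1), xx y (N1 + n) * xx y (N1 + n) =
      ∑ n ∈ Ioc N1 N2, xx y n * xx y n := by
    rw [← shift_sum hN]
  have e3 : ∀ k, ∑ n ∈ Icc 1 (N2 - N1), uu y k (N1 + n) = ∑ n ∈ Ioc N1 N2, uu y k n := by
    intro k
    rw [← shift_sum hN]
  have e4 : ∀ k, ∑ n ∈ Icc 1 (N2 - N1), Ph R (uu y k (N1 + n)) =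
      ∑ n ∈ Ioc N1 N2, Ph R (uu y k n) := by
    intro k
    rw [← shift_sum hN]
  have e5 : ∀ k, ∑ n ∈ Icc 1 (N2 - N1), uu y k (N1 + n) ^ 2 =
      ∑ n ∈ Ioc N1 N2, uu y k n ^ 2 := by
    intro k
    rw [← shift_sum hN]
  have e6 : ∑ n ∈ Icc 1 (N2 - N1), (((Ioc (n + K) (N2 - N1)).filter
      fun m => |y (N1 + m) - y (N1 + n)| ≤ A * R).card : ℝ) =
      ∑ n ∈ Ioc N1 N2, (((Ioc (n + K) N2).filter fun m => |y m - y n| ≤ A * R).card : ℝ) := by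
    rw [← shift_sum hN]
    refine Finset.sum_congr rfl fun n _ => ?_
    congr 1
    rw [← Finset.card_image_of_injective
      ((Ioc (n + K) (N2 - N1)).filter fun m => |y (N1 + m) - y (N1 + n)| ≤ A * R)
      (add_right_injective N1)]
    congr 1
    ext m
    simp only [mem_image, mem_filter, mem_Ioc]
    constructor
    · rintro ⟨m', ⟨h2, h3⟩, rfl⟩
      exact ⟨by omega, h3⟩
    · rintro ⟨h2, h3⟩
      refine ⟨m - N1, ⟨by omega, ?_⟩, by omega⟩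
      have : N1 + (m - N1) = m := by omega
      rw [this]
      exact h3
  have e7 : ((N2 - N1 : ℕ) : ℝ) = ((Ioc N1 N2).card : ℝ) := by rw [Nat.card_Ioc]
  rw [e1, e2', e6, e7] at h1
  simp_rw [e2, e3, e4, e5] at h1
  exact h1

end Pool.Agent.E8helper70.Dys
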