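import Pool.Agent.E8helper70.Dys.Mom3
import Pool.Agent.E8helper70.Dys.Shf

/-! # The block theorem -/

set_option autoImplicit false

open Filter Topology MeasureTheory
open scoped ContDiff

namespace Pool.Agent.E8helper70.Dys

open SG (ord NZ)
open SP (RHs)
open LG (dlt)
open Pool.Agent.Y743.LR (yv dif)
open Pool.Agent.Y743.NC (ff inner)
open Pool.Agent.Y747 (Bx mem_Bx)
open Pool.Agent.TH873.EW (XV)

/-- everything that is needed for one lag -/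
lemma lag_data (hRH : RiemannHypothesis) (hR : RHs) : ∃ C : ℝ, 1 ≤ C ∧ ∀ (k : ℕ) (R ε : ℝ),
    1 ≤ k → 1 ≤ R → 0 < ε → ∃ V0 : ℝ, 10 ≤ V0 ∧ ∀ V : ℝ, V0 ≤ V →
      ∑ n ∈ Bx V, Ph R (uu (yv V) k n) ≤ C * (1 + Real.log (2 + k)) ^ 2 / R * XV V ∧
      ∑ n ∈ Bx V, uu (yv V) k n ^ 2 ≤ C * (1 + Real.log (2 + k)) ^ 2 * XV V ∧
      |∑ n ∈ Bx V, uu (yv V) k n| ≤ ε * XV V ∧
      |∑ n ∈ Bx V, xx (yv V) n * xx (yv V) (n + k) -
        ∑ n ∈ Bx V, (dlt n - 1) * (dlt (n + k) - 1)| ≤ ε * XV V := by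
  obtain ⟨C1, hC1, h1⟩ := ph_blk hR
  obtain ⟨C2, hC2, h2⟩ := inner hR
  refine ⟨8 * C1 + 8 * C2, by linarith, fun k R ε hk hR1 hε => ?_⟩
  obtain ⟨Va, hVa, ha⟩ := h1 k R hk hR1
  obtain ⟨Vb, hVb, hb⟩ := h2 k hk
  obtain ⟨Vc, hVc, hc⟩ := first hRH hR k ε hε
  obtain ⟨Vd, hVd, hd⟩ := close hR k ε hε
  refine ⟨max (max Va Vb) (max Vc Vd), hVa.trans ((le_max_left _ _).trans (le_max_left _ _)),
    fun V hV => ?_⟩
  have a1 := ha V (((le_max_left _ _).trans (le_max_left _ _)).trans hV)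
  have hVbV : Vb ≤ V := ((le_max_right _ _).trans (le_max_left _ _)).trans hV
  have hV10 : 10 ≤ V := hVb.trans hVbV
  have a2 := hb V hVbV (Bx V) (fun n hn => by
    obtain ⟨b1, b2, b3⟩ := mem_Bx.mp hn
    exact ⟨b1, b2.le, by linarith⟩)
  have a3 := hc V (((le_max_left _ _).trans (le_max_right _ _)).trans hV)
  have a4 := hd V (((le_max_right _ _).trans (le_max_right _ _)).trans hV)
  have hX := XV_pos hV10
  have hY := XV_le hV10
  have hk1 : (1 : ℝ) ≤ k := by exact_mod_cast hk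
  have hlk : 0 ≤ Real.log k := Real.log_nonneg hk1
  have hlk2 : Real.log k ≤ Real.log (2 + k) := Real.log_le_log (by linarith) (by linarith)
  have hVl : 0 ≤ V * Real.log V :=
    mul_nonneg (by linarith) (Real.log_nonneg (by linarith))
  refine ⟨?_, ?_, a3, ?_⟩
  · refine a1.trans ?_
    calc C1 * (1 + Real.log (2 + k)) ^ 2 / R * (V * Real.log V) ≤
        C1 * (1 + Real.log (2 + k)) ^ 2 / R * (8 * XV V) := by gcongr
      _ = 8 * C1 * ((1 + Real.log (2 + k)) ^ 2 / R * XV V) := by ring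
      _ ≤ (8 * C1 + 8 * C2) * ((1 + Real.log (2 + k)) ^ 2 / R * XV V) := by
          apply mul_le_mul_of_nonneg_right (by linarith) (by positivity)
      _ = _ := by ring
  · have e : ∀ n, ff V k n = uu (yv V) k n := fun n => rfl
    simp_rw [e] at a2
    refine a2.trans ?_
    calc C2 * (1 + Real.log k) ^ 2 * (V * Real.log V) ≤
        C2 * (1 + Real.log (2 + k)) ^ 2 * (8 * XV V) := by gcongr
      _ = 8 * C2 * ((1 + Real.log (2 + k)) ^ 2 * XV V) := by ring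
      _ ≤ (8 * C1 + 8 * C2) * ((1 + Real.log (2 + k)) ^ 2 * XV V) := by
          apply mul_le_mul_of_nonneg_right (by linarith) (by positivity)
      _ = _ := by ring
  · rw [← Finset.sum_sub_distrib]
    exact (Finset.abs_sum_le_sum_abs _ _).trans a4

/-- the number of lags -/
noncomputable def KK (A R : ℝ) : ℕ := ⌈4 * (A * R)⌉₊ + 2

lemma ev_small (B R Cs e : ℝ) (K : ℕ) (hB : 0 ≤ B) (hR : 0 < R) (hCs : 1 ≤ Cs) (he : 0 < e) :
    ∀ᶠ V : ℝ in atTop, 2 * B * (K : ℝ) ^ 2 + 6 * B / R ^ 2 * ((K : ℝ) ^ 4 *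
      (Cs * Real.log V + 1) ^ 2) ≤ e / 10 * V := by
  obtain ⟨P, hP⟩ : ∃ P : ℝ, P = 2 * B * (K : ℝ) ^ 2 + 6 * B / R ^ 2 * ((K : ℝ) ^ 4 * (Cs + 1) ^ 2) + 1 :=
    ⟨_, rfl⟩
  have hP0 : 0 < P := by rw [hP]; positivity
  have h5 : (fun T : ℝ => Real.log T ^ 2) =o[atTop] id := Real.isLittleO_pow_log_id_atTop
  have h6 := h5.bound (c := e / 10 / P) (by positivity)
  filter_upwards [h6, Real.tendsto_log_atTop.eventually_ge_atTop 1, eventually_ge_atTop 1]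
    with V h7 h8 h9
  rw [id, Real.norm_of_nonneg (by positivity), Real.norm_of_nonneg (by linarith)] at h7
  have h10 : (Cs * Real.log V + 1) ^ 2 ≤ (Cs + 1) ^ 2 * Real.log V ^ 2 := by
    rw [← mul_pow]
    apply pow_le_pow_left₀ (by positivity)
    nlinarith
  have h11 : 1 ≤ Real.log V ^ 2 := one_le_pow₀ h8
  have h12 : 2 * B * (K : ℝ) ^ 2 ≤ 2 * B * (K : ℝ) ^ 2 * Real.log V ^ 2 :=
    le_mul_of_one_le_right (by positivity) h11
  have h13 : 6 * B / R ^ 2 * ((K : ℝ) ^ 4 * (Cs * Real.log V + 1) ^ 2) ≤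
      6 * B / R ^ 2 * ((K : ℝ) ^ 4 * ((Cs + 1) ^ 2 * Real.log V ^ 2)) := by gcongr
  calc 2 * B * (K : ℝ) ^ 2 + 6 * B / R ^ 2 * ((K : ℝ) ^ 4 * (Cs * Real.log V + 1) ^ 2) ≤
      2 * B * (K : ℝ) ^ 2 * Real.log V ^ 2 +
        6 * B / R ^ 2 * ((K : ℝ) ^ 4 * ((Cs + 1) ^ 2 * Real.log V ^ 2)) := add_le_add h12 h13
    _ = (P - 1) * Real.log V ^ 2 := by rw [hP]; ring
    _ ≤ P * Real.log V ^ 2 := mul_le_mul_of_nonneg_right (by linarith) (by positivity)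
    _ ≤ P * (e / 10 / P * V) := mul_le_mul_of_nonneg_left h7 hP0.le
    _ = e / 10 * V := by field_simp

lemma assemble {T X c S0 W W' L RI ℓ e a1 a2 a3 b1 b2 b3 b4 : ℝ}
    (h1 : |T - (c * S0 + W)| ≤ a1 * ℓ * X + b1 * e * X)
    (h2 : |c * S0 - X * RI| ≤ a2 * ℓ * X + b2 * e * X)
    (h3 : |T - X * (RI + L)| ≤ a3 * ℓ * X + b3 * e * X)
    (h4 : |W' - W| ≤ b4 * e * X) :
    |W' - X * L| ≤ (a1 + a2 + a3) * ℓ * X + (b1 + b2 + b3 + b4) * e * X := by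
  have F1 : W' - X * L = (W' - W) - (T - (c * S0 + W)) + (T - X * (RI + L)) -
      (c * S0 - X * RI) := by ring
  rw [F1]
  rw [abs_le] at *
  constructor
  · linarith [h1.1, h1.2, h2.1, h2.2, h3.1, h3.2, h4.1, h4.2]
  · linarith [h1.1, h1.2, h2.1, h2.2, h3.1, h3.2, h4.1, h4.2]

/-- the bound for the sum over all lags -/
lemma sum_lag {K : ℕ} {F : ℕ → ℝ} {D : ℝ} (h : ∀ k ∈ Finset.Icc 1 K, F k ≤ D) :
    ∑ k ∈ Finset.Icc 1 K, F k ≤ K * D := by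
  calc ∑ k ∈ Finset.Icc 1 K, F k ≤ ∑ _k ∈ Finset.Icc 1 K, D := Finset.sum_le_sum h
    _ = _ := by rw [Finset.sum_const, Nat.card_Icc, nsmul_eq_mul, Nat.add_sub_cancel]

lemma errZ {B Z Cf CA ℓ X Y Q R q : ℝ} (hB : 0 ≤ B) (hCf : 0 ≤ Cf) (hR : 1 ≤ R)
    (hRQ : R ≤ Q) (hY0 : 0 ≤ Y) (hY : Y ≤ 8 * X) (_hq0 : 0 ≤ q) (hq : q ≤ CA ^ 2 * Real.log R ^ 2)
    (hℓ : ℓ = Real.log R ^ 2 / R ^ 2) (hZ : Z ≤ Cf * q / Q ^ 3 * Y) :
    2 * B * Z ≤ 16 * B * Cf * CA ^ 2 * ℓ * X := by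
  have hX : 0 ≤ X := by linarith
  have q2 : R ^ 2 ≤ Q ^ 3 := by
    calc R ^ 2 ≤ Q ^ 2 := pow_le_pow_left₀ (by linarith) hRQ 2
      _ ≤ Q ^ 3 := pow_le_pow_right₀ (by linarith) (by norm_num)
  have hR2 : 0 < R ^ 2 := by positivity
  have q1 : Cf * q / Q ^ 3 * Y ≤ Cf * (CA ^ 2 * Real.log R ^ 2) / R ^ 2 * (8 * X) := by
    apply mul_le_mul _ hY hY0 (by positivity)
    apply div_le_div₀ (by positivity) (mul_le_mul_of_nonneg_left hq hCf) hR2 q2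
  calc 2 * B * Z ≤ 2 * B * (Cf * (CA ^ 2 * Real.log R ^ 2) / R ^ 2 * (8 * X)) :=
        mul_le_mul_of_nonneg_left (hZ.trans q1) (by positivity)
    _ = _ := by rw [hℓ]; ring

lemma err3 {B S Cl CA ℓ X K A R : ℝ} (hB : 0 ≤ B) (hCl : 0 ≤ Cl) (hR : 1 ≤ R) (hX : 0 ≤ X)
    (hK : K ≤ 7 * (A * R)) (hℓ : ℓ = Real.log R ^ 2 / R ^ 2)
    (hS : S ≤ K * (Cl * (CA ^ 2 * Real.log R ^ 2) / R * X)) :
    4 * B / R ^ 2 * S ≤ 28 * B * A * Cl * CA ^ 2 * ℓ * X := by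
  have hR0 : 0 < R := by linarith
  calc 4 * B / R ^ 2 * S ≤ 4 * B / R ^ 2 * (K * (Cl * (CA ^ 2 * Real.log R ^ 2) / R * X)) :=
        mul_le_mul_of_nonneg_left hS (by positivity)
    _ ≤ 4 * B / R ^ 2 * (7 * (A * R) * (Cl * (CA ^ 2 * Real.log R ^ 2) / R * X)) := by gcongr
    _ = _ := by rw [hℓ]; field_simp; ring

lemma err4 {B S Cl CA ℓ X K A R : ℝ} (hB : 0 ≤ B) (hCl : 0 ≤ Cl) (hR : 1 ≤ R) (hX : 0 ≤ X)
    (hA : 0 ≤ A) (hK : K ≤ 7 * (A * R)) (hℓ : ℓ = Real.log R ^ 2 / R ^ 2)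
    (hS : S ≤ K * (Cl * (CA ^ 2 * Real.log R ^ 2) * X)) :
    2 * B / R ^ 4 * S ≤ 14 * B * A * Cl * CA ^ 2 * ℓ * X := by
  have hR0 : 0 < R := by linarith
  have hℓ0 : 0 ≤ ℓ := by rw [hℓ]; positivity
  calc 2 * B / R ^ 4 * S ≤ 2 * B / R ^ 4 * (K * (Cl * (CA ^ 2 * Real.log R ^ 2) * X)) :=
        mul_le_mul_of_nonneg_left hS (by positivity)
    _ ≤ 2 * B / R ^ 4 * (7 * (A * R) * (Cl * (CA ^ 2 * Real.log R ^ 2) * X)) := by gcongr
    _ = 14 * B * A * Cl * CA ^ 2 * ℓ * X / R := by rw [hℓ]; field_simp; ring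
    _ ≤ _ := div_le_self (by positivity) hR

lemma ell_ge {R ℓ : ℝ} (hR : 2 ≤ R) (hℓ : ℓ = Real.log R ^ 2 / R ^ 2) : 0.48 / R ^ 2 ≤ ℓ := by
  have hl2 : 0.6931471803 < Real.log 2 := Real.log_two_gt_d9
  have hlogR : 0.6931471803 < Real.log R := by
    have := Real.log_le_log (by norm_num) hR
    linarith
  rw [hℓ]
  apply div_le_div_of_nonneg_right _ (by positivity)
  nlinarith

lemma errM1 {c S0 X R I0 B K A ℓ e : ℝ} (hR2 : 2 ≤ R) (hB : 0 ≤ B) (hA : 0 ≤ A) (hX : 0 < X)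
    (_he : 0 ≤ e) (he1 : e ≤ 1) (hc : 0 ≤ c)
    (hℓ : ℓ = Real.log R ^ 2 / R ^ 2) (hK : K ≤ 7 * (A * R)) (h1 : |c - X| ≤ e * X)
    (h2 : |S0 - R * I0| ≤ 4 * B * K / R ^ 3) :
    |c * S0 - X * (R * I0)| ≤ 120 * A * B * ℓ * X + R * |I0| * e * X := by
  have hR0 : 0 < R := by linarith
  have hℓR := ell_ge hR2 hℓ
  have q1 : c * S0 - X * (R * I0) = c * (S0 - R * I0) + (c - X) * (R * I0) := by ring
  rw [q1]
  refine (abs_add_le _ _).trans ?_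
  rw [abs_mul, abs_mul, abs_mul, abs_of_pos hR0]
  have q2 : |c| ≤ 2 * X := by
    have := (abs_le.mp h1).2
    rw [abs_of_nonneg hc]
    nlinarith
  have q3 : 4 * B * K / R ^ 3 ≤ 60 * A * B * ℓ := by
    have q4 : 4 * B * K / R ^ 3 ≤ 4 * B * (7 * (A * R)) / R ^ 3 := by gcongr
    have q5 : 4 * B * (7 * (A * R)) / R ^ 3 = 28 * (A * B) / R ^ 2 := by field_simp; ring
    have q6 : 28 * (A * B) / R ^ 2 ≤ 60 * (A * B) * (0.48 / R ^ 2) := by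
      rw [mul_div_assoc', div_le_div_iff_of_pos_right (by positivity)]
      have : 0 ≤ A * B := by positivity
      linarith
    have q7 : 60 * (A * B) * (0.48 / R ^ 2) ≤ 60 * (A * B) * ℓ :=
      mul_le_mul_of_nonneg_left hℓR (by positivity)
    calc _ ≤ _ := q4
      _ = _ := q5
      _ ≤ _ := q6.trans q7
      _ = _ := by ring
  calc |c| * |S0 - R * I0| + |c - X| * (R * |I0|) ≤
      2 * X * (60 * A * B * ℓ) + e * X * (R * |I0|) := by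
        apply add_le_add
        · exact mul_le_mul q2 (h2.trans q3) (abs_nonneg _) (by linarith)
        · exact mul_le_mul_of_nonneg_right h1 (by positivity)
    _ = _ := by ring

lemma errM2 {Cp R ℓ e X : ℝ} (hR2 : 2 ≤ R) (hCp : 0 < Cp) (hX : 0 ≤ X)
    (hℓ : ℓ = Real.log R ^ 2 / R ^ 2) :
    (Cp / R ^ 3 + e) * X ≤ 3 * Cp * ℓ * X + 1 * e * X := by
  have hR0 : 0 < R := by linarith
  have hℓR := ell_ge hR2 hℓ
  have q1 : Cp / R ^ 3 ≤ 3 * Cp * ℓ := by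
    have q2 : Cp / R ^ 3 ≤ Cp / R ^ 2 := by
      apply div_le_div_of_nonneg_left hCp.le (by positivity)
      exact pow_le_pow_right₀ (by linarith) (by norm_num)
    have q3 : Cp / R ^ 2 ≤ 3 * Cp * (0.48 / R ^ 2) := by
      rw [mul_div_assoc', div_le_div_iff_of_pos_right (by positivity)]
      linarith
    have q4 : 3 * Cp * (0.48 / R ^ 2) ≤ 3 * Cp * ℓ := mul_le_mul_of_nonneg_left hℓR (by positivity)
    linarith
  have := mul_le_mul_of_nonneg_right q1 hX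
  rw [add_mul, one_mul]
  linarith

/-- **the block theorem** -/
theorem block (hRH : RiemannHypothesis) (hR : RHs) {G : ℝ → ℝ} (hs : ContDiff ℝ ∞ G)
    (hc : HasCompactSupport G) (hev : ∀ x, G (-x) = G x) {A : ℝ} (hA1 : 1 ≤ A)
    (hA : ∀ x, A < |x| → G x = 0) : ∃ C : ℝ, 0 < C ∧ ∀ R : ℝ, 2 ≤ R →
    ∀ ε : ℝ, 0 < ε → ∃ V0 : ℝ, 10 ≤ V0 ∧ ∀ V : ℝ, V0 ≤ V →
      |(G 0 * (∑ n ∈ Bx V, (dlt n - 1) * (dlt n - 1)) +
          2 * ∑ k ∈ Finset.Icc 1 (KK A R), G (k / R) * ∑ n ∈ Bx V, (dlt n - 1) * (dlt (n + k) - 1)) -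
        XV V * (1 / R * LG G)| ≤ (C * Real.log R ^ 2 / R ^ 2 + ε) * XV V := by
  obtain ⟨G1, G2, G3, G4, B, tf⟩ := exists_TF hs hc
  obtain ⟨Cp, hCp, hpair⟩ := pair_blk (pairHyp hRH) hs hc hev
  obtain ⟨Cl, hCl, hlag⟩ := lag_data hRH hR
  obtain ⟨Cf, hCf, hfar⟩ := far hR
  obtain ⟨Cs, hCs, hsup⟩ := sup_blk hR
  have hB := tf.B0
  obtain ⟨I0, hI0⟩ : ∃ I0 : ℝ, I0 = ∫ x, G x := ⟨_, rfl⟩
  have hl2 : 0.6931471803 < Real.log 2 := Real.log_two_gt_d9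
  -- the logarithm constant
  obtain ⟨CA, hCA⟩ : ∃ CA : ℝ, CA = 1 + 2 * (1 + Real.log (9 * A)) := ⟨_, rfl⟩
  have hlA : 0 ≤ Real.log (9 * A) := Real.log_nonneg (by linarith)
  have hCA1 : 1 ≤ CA := by rw [hCA]; linarith
  refine ⟨16 * B * Cf * CA ^ 2 + 28 * B * A * Cl * CA ^ 2 +
    14 * B * A * Cl * CA ^ 2 + 120 * A * B + 3 * Cp, by positivity, fun R hR2 ε hε => ?_⟩
  have hR0 : 0 < R := by linarith
  have hR1 : 1 ≤ R := by linarith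
  obtain ⟨Q, hQ⟩ : ∃ Q : ℝ, Q = A * R := ⟨_, rfl⟩
  have hQR : R ≤ Q := by rw [hQ]; exact le_mul_of_one_le_left hR0.le hA1
  have hQ1 : 1 ≤ Q := by linarith
  obtain ⟨K, hK⟩ : ∃ K : ℕ, K = KK A R := ⟨_, rfl⟩
  rw [← hK]
  have hK1 : 4 * Q + 2 ≤ K := by
    rw [hK, KK, hQ]
    push_cast
    have := Nat.le_ceil (4 * (A * R))
    linarith
  have hK2 : (K : ℝ) ≤ 7 * Q := by
    rw [hK, KK, ← hQ]
    push_cast
    have := Nat.ceil_lt_add_one (show 0 ≤ 4 * Q by linarith)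
    linarith
  have hlogR : 0.6931471803 < Real.log R := by
    have := Real.log_le_log (by norm_num) hR2
    linarith
  have hlogK : 1 + Real.log (2 + K) ≤ CA * Real.log R := by
    have h1 : Real.log (2 + K) ≤ Real.log (9 * A * R) := by
      apply Real.log_le_log (by positivity)
      have : 9 * A * R = 9 * Q := by rw [hQ]; ring
      rw [this]; linarith
    rw [Real.log_mul (by positivity) hR0.ne'] at h1
    rw [hCA]
    have h2 : (1 + Real.log (9 * A)) * 1 ≤ (1 + Real.log (9 * A)) * (2 * Real.log R) :=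
      mul_le_mul_of_nonneg_left (by linarith) (by linarith)
    linarith
  have hlogk : ∀ x : ℝ, 0 ≤ x → x ≤ K → (1 + Real.log (2 + x)) ^ 2 ≤ CA ^ 2 * Real.log R ^ 2 := by
    intro x hx0 hxK
    have h1 : Real.log (2 + x) ≤ Real.log (2 + K) := Real.log_le_log (by linarith) (by linarith)
    have h0 : 0 ≤ Real.log (2 + x) := Real.log_nonneg (by linarith)
    calc (1 + Real.log (2 + x)) ^ 2 ≤ (CA * Real.log R) ^ 2 :=
          pow_le_pow_left₀ (by linarith) (by linarith) 2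
      _ = _ := by ring
  have hlogQ := hlogk Q (by linarith) (by linarith)
  have hKQ : (K : ℝ) ≤ 7 * (A * R) := by rw [← hQ]; exact hK2
  have hK0 : (0 : ℝ) ≤ K := Nat.cast_nonneg K
  -- the small parameter
  obtain ⟨D, hD⟩ : ∃ D : ℝ, D = (2 * B * K + 1) + R * |I0| + 1 + (|G 0| + 2 * K * B) := ⟨_, rfl⟩
  have hD0 : 0 < D := by rw [hD]; positivity
  obtain ⟨e, he, he1, he2⟩ : ∃ e : ℝ, 0 < e ∧ e ≤ 1 ∧ D * e ≤ ε := by
    refine ⟨min 1 (ε / D), lt_min one_pos (by positivity), min_le_left _ _, ?_⟩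
    have h1 := min_le_right 1 (ε / D)
    rwa [le_div_iff₀ hD0, mul_comm] at h1
  obtain ⟨V1, hV1, h1⟩ := hpair R hR1 e he
  have hex : ∀ k : ℕ, ∃ V0 : ℝ, 10 ≤ V0 ∧ ∀ V : ℝ, V0 ≤ V → 1 ≤ k →
      ∑ n ∈ Bx V, Ph R (uu (yv V) k n) ≤ Cl * (1 + Real.log (2 + k)) ^ 2 / R * XV V ∧
      ∑ n ∈ Bx V, uu (yv V) k n ^ 2 ≤ Cl * (1 + Real.log (2 + k)) ^ 2 * XV V ∧
      |∑ n ∈ Bx V, uu (yv V) k n| ≤ e * XV V ∧
      |∑ n ∈ Bx V, xx (yv V) n * xx (yv V) (n + k) -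
        ∑ n ∈ Bx V, (dlt n - 1) * (dlt (n + k) - 1)| ≤ e * XV V := by
    intro k
    rcases Nat.eq_zero_or_pos k with h0 | h0
    · exact ⟨10, le_rfl, fun V _ hk => absurd hk (by omega)⟩
    · obtain ⟨V0, hV0, h⟩ := hlag k R e h0 hR1 he
      exact ⟨V0, hV0, fun V hV _ => h V hV⟩
  choose Vk hVk hk using hex
  obtain ⟨V2, hV2, h2⟩ := close hR 0 e he
  obtain ⟨V3, hV3, h3⟩ := hfar Q K hQ1 hK1
  obtain ⟨V4, hV4, h4⟩ := hsup (2 * K)
  obtain ⟨Vm, hVm⟩ : ∃ Vm : ℝ, Vm = ∑ k ∈ Finset.range (K + 1), Vk k := ⟨_, rfl⟩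
  have hVkm : ∀ k ≤ K, Vk k ≤ Vm := fun k hk' => by
    rw [hVm]
    exact Finset.single_le_sum (f := Vk) (fun i _ => by linarith [hVk i])
      (Finset.mem_range.mpr (by omega))
  obtain ⟨V5, hV5⟩ := (ev_small B R Cs e K hB hR0 hCs he).exists_forall_of_atTop
  refine ⟨max (max (max V1 V2) (max V3 V4)) (max V5 Vm), hV1.trans ((le_max_left _ _).trans
    ((le_max_left _ _).trans (le_max_left _ _))), fun V hV => ?_⟩
  have hVV1 : V1 ≤ V := ((le_max_left _ _).trans ((le_max_left _ _).trans (le_max_left _ _))).trans hV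
  have hVV2 : V2 ≤ V := ((le_max_right _ _).trans ((le_max_left _ _).trans (le_max_left _ _))).trans hV
  have hVV3 : V3 ≤ V := ((le_max_left _ _).trans ((le_max_right _ _).trans (le_max_left _ _))).trans hV
  have hVV4 : V4 ≤ V := ((le_max_right _ _).trans ((le_max_right _ _).trans (le_max_left _ _))).trans hV
  have hVV5 : V5 ≤ V := ((le_max_left _ _).trans (le_max_right _ _)).trans hV
  have hVVm : Vm ≤ V := ((le_max_right _ _).trans (le_max_right _ _)).trans hV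
  have hV10 : 10 ≤ V := hV1.trans hVV1
  have hX := XV_pos hV10
  have hXY := XV_le hV10
  have hXV := XV_ge hV10
  have hlV : 0 < Real.log V := Real.log_pos (by linarith)
  obtain ⟨X, hXd⟩ : ∃ X : ℝ, X = XV V := ⟨_, rfl⟩
  rw [← hXd] at hX hXY hXV ⊢
  -- collect
  obtain ⟨p1, p2⟩ := h1 V hVV1
  have p3 := (Finset.abs_sum_le_sum_abs _ _).trans (h2 V hVV2)
  simp only [add_zero] at p3
  rw [Finset.sum_sub_distrib] at p3
  have p4 := h3 V hVV3 (NZ (2 * V - 1))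
  have p5 := hV5 V hVV5
  have pk := fun (k : ℕ) (hk' : k ∈ Finset.Icc 1 K) =>
    hk k V ((hVkm k (Finset.mem_Icc.mp hk').2).trans hVVm) (Finset.mem_Icc.mp hk').1
  rw [← hXd] at p1 p2 p3 pk
  rw [← hI0] at p2
  have hN12 : NZ (V + 1) ≤ NZ (2 * V - 1) := SG.NZ_mono (by linarith)
  have hexp := expansion' tf hev hR1 hA (yv V) hN12 K (by rw [← hQ]; linarith)
    (Cs * Real.log V + 1) (fun n a b => by
      have q1 : NZ V ≤ n := (SG.NZ_mono (by linarith : V ≤ V + 1)).trans a.le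
      have q2 : NZ (2 * V - 1) ≤ NZ (2 * V) := SG.NZ_mono (by linarith)
      obtain ⟨q3, q4, q5⟩ := h4 V hVV4 n q1 (by omega)
      rw [dif_xx] at q4 q5
      rw [abs_le]
      constructor
      · have : 0 ≤ Cs * Real.log V := by positivity
        linarith
      · linarith)
  rw [← Bx_eq] at hexp
  -- the pair sums agree
  have hT : ∑ n ∈ Bx V, ∑ m ∈ Bx V, G ((yv V m - yv V n) / R) =
      ∑ n ∈ Bx V, ∑ m ∈ Bx V, G (ds ord V n m / R) := by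
    refine Finset.sum_congr rfl fun n _ => Finset.sum_congr rfl fun m _ => ?_
    have : ds ord V n m / R = -((yv V m - yv V n) / R) := by
      unfold ds Pool.Agent.Y743.LR.yv; ring
    rw [this, hev]
  rw [hT] at hexp
  have hrm := riem tf hev hR1 (by linarith) hA K (by rw [← hQ]; linarith)
  rw [← hI0] at hrm
  clear h1 h2 h3 h4 hk hpair hlag hfar hsup hV5 hT
  -- names
  obtain ⟨T, hTd⟩ : ∃ T : ℝ, T = ∑ n ∈ Bx V, ∑ m ∈ Bx V, G (ds ord V n m / R) := ⟨_, rfl⟩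
  obtain ⟨c, hcd⟩ : ∃ c : ℝ, c = ((Bx V).card : ℝ) := ⟨_, rfl⟩
  have hc0 : 0 ≤ c := by rw [hcd]; exact Nat.cast_nonneg _
  obtain ⟨S0, hS0⟩ : ∃ S0 : ℝ, S0 = G 0 + 2 * ∑ k ∈ Finset.Icc 1 K, G (k / R) := ⟨_, rfl⟩
  obtain ⟨W, hW⟩ : ∃ W : ℝ, W = G 0 * (∑ n ∈ Bx V, xx (yv V) n * xx (yv V) n) +
      2 * ∑ k ∈ Finset.Icc 1 K, G (k / R) * ∑ n ∈ Bx V, xx (yv V) n * xx (yv V) (n + k) := ⟨_, rfl⟩
  obtain ⟨W', hW'⟩ : ∃ W' : ℝ, W' = G 0 * (∑ n ∈ Bx V, (dlt n - 1) * (dlt n - 1)) +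
      2 * ∑ k ∈ Finset.Icc 1 K, G (k / R) * ∑ n ∈ Bx V, (dlt n - 1) * (dlt (n + k) - 1) := ⟨_, rfl⟩
  rw [← hTd, ← hcd, ← hS0, ← hW, ← hQ] at hexp
  rw [← hTd] at p2
  rw [← hcd] at p1
  rw [← hS0] at hrm
  rw [← hW']
  obtain ⟨ℓ, hℓ⟩ : ∃ ℓ : ℝ, ℓ = Real.log R ^ 2 / R ^ 2 := ⟨_, rfl⟩
  -- errors
  have E1 := errZ hB (by linarith) hR1 hQR (by positivity) hXY (sq_nonneg _) hlogQ hℓ p4
  have E2 : 2 * B / R * ∑ k ∈ Finset.Icc 1 K, |∑ n ∈ Bx V, uu (yv V) k n| ≤ 2 * B * K * e * X := by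
    have q1 : ∑ k ∈ Finset.Icc 1 K, |∑ n ∈ Bx V, uu (yv V) k n| ≤ K * (e * X) :=
      sum_lag fun k hk' => (pk k hk').2.2.1
    have q2 : 2 * B / R ≤ 2 * B := div_le_self (by linarith) hR1
    calc _ ≤ 2 * B * (K * (e * X)) := mul_le_mul q2 q1 (Finset.sum_nonneg fun _ _ => abs_nonneg _)
          (by linarith)
      _ = _ := by ring
  have E3 := err3 (S := ∑ k ∈ Finset.Icc 1 K, ∑ n ∈ Bx V, Ph R (uu (yv V) k n)) (CA := CA) (A := A)
    hB (by linarith : 0 ≤ Cl) hR1 hX.le hKQ hℓ (sum_lag fun k hk' => by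
      refine (pk k hk').1.trans ?_
      have := hlogk k (Nat.cast_nonneg k) (by exact_mod_cast (Finset.mem_Icc.mp hk').2)
      gcongr)
  have E4 := err4 (S := ∑ k ∈ Finset.Icc 1 K, ∑ n ∈ Bx V, uu (yv V) k n ^ 2) (CA := CA) (A := A)
    hB (by linarith : 0 ≤ Cl) hR1 hX.le (by linarith) hKQ hℓ (sum_lag fun k hk' => by
      refine (pk k hk').2.1.trans ?_
      have := hlogk k (Nat.cast_nonneg k) (by exact_mod_cast (Finset.mem_Icc.mp hk').2)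
      gcongr)
  have E5 : 2 * B * (K : ℝ) ^ 2 + 6 * B / R ^ 2 * ((K : ℝ) ^ 4 * (Cs * Real.log V + 1) ^ 2) ≤
      1 * e * X := by
    refine p5.trans ?_
    calc e / 10 * V = e * (V / 10) := by ring
      _ ≤ e * X := mul_le_mul_of_nonneg_left hXV he.le
      _ = _ := by ring
  have Eall : |T - (c * S0 + W)| ≤ (16 * B * Cf * CA ^ 2 + 28 * B * A * Cl * CA ^ 2 +
      14 * B * A * Cl * CA ^ 2) * ℓ * X + (2 * B * K + 1) * e * X := by
    refine hexp.trans ?_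
    linarith
  have M1 := errM1 hR2 hB (by linarith) hX he.le he1 hc0 hℓ hKQ p1 hrm
  have M2 := p2.trans (errM2 hR2 hCp hX.le hℓ)
  have M3 : |W' - W| ≤ (|G 0| + 2 * K * B) * e * X := by
    have q0 : W' - W = G 0 * (∑ n ∈ Bx V, (dlt n - 1) * (dlt n - 1) -
        ∑ n ∈ Bx V, xx (yv V) n * xx (yv V) n) + 2 * ∑ k ∈ Finset.Icc 1 K, G (k / R) *
        (∑ n ∈ Bx V, (dlt n - 1) * (dlt (n + k) - 1) -
          ∑ n ∈ Bx V, xx (yv V) n * xx (yv V) (n + k)) := by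
      have q9 : ∑ k ∈ Finset.Icc 1 K, G (k / R) *
          (∑ n ∈ Bx V, (dlt n - 1) * (dlt (n + k) - 1) -
            ∑ n ∈ Bx V, xx (yv V) n * xx (yv V) (n + k)) =
          ∑ k ∈ Finset.Icc 1 K, G (k / R) * ∑ n ∈ Bx V, (dlt n - 1) * (dlt (n + k) - 1) -
          ∑ k ∈ Finset.Icc 1 K, G (k / R) * ∑ n ∈ Bx V, xx (yv V) n * xx (yv V) (n + k) := by
        rw [← Finset.sum_sub_distrib]
        exact Finset.sum_congr rfl fun k _ => mul_sub _ _ _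
      rw [q9, hW, hW']
      ring
    rw [q0]
    refine (abs_add_le _ _).trans ?_
    rw [abs_mul, abs_mul, abs_two]
    have q1 : |G 0| * |∑ n ∈ Bx V, (dlt n - 1) * (dlt n - 1) -
        ∑ n ∈ Bx V, xx (yv V) n * xx (yv V) n| ≤ |G 0| * (e * X) := by
      apply mul_le_mul_of_nonneg_left _ (abs_nonneg _)
      rw [abs_sub_comm]
      exact p3
    have q2 : |∑ k ∈ Finset.Icc 1 K, G (k / R) *
        (∑ n ∈ Bx V, (dlt n - 1) * (dlt (n + k) - 1) -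
          ∑ n ∈ Bx V, xx (yv V) n * xx (yv V) (n + k))| ≤ K * (B * (e * X)) := by
      refine (Finset.abs_sum_le_sum_abs _ _).trans (sum_lag fun k hk' => ?_)
      rw [abs_mul]
      apply mul_le_mul (tf.b0 _) _ (abs_nonneg _) hB
      have := (pk k hk').2.2.2
      rw [abs_sub_comm] at this
      exact this
    calc _ ≤ |G 0| * (e * X) + 2 * (K * (B * (e * X))) :=
          add_le_add q1 (mul_le_mul_of_nonneg_left q2 (by norm_num))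
      _ = _ := by ring
  refine (assemble Eall M1 M2 M3).trans ?_
  have F5 : D * e * X ≤ ε * X := mul_le_mul_of_nonneg_right he2 hX.le
  rw [hD] at F5
  have F9 : ((16 * B * Cf * CA ^ 2 + 28 * B * A * Cl * CA ^ 2 +
    14 * B * A * Cl * CA ^ 2 + 120 * A * B + 3 * Cp) * Real.log R ^ 2 / R ^ 2 + ε) * X =
    (16 * B * Cf * CA ^ 2 + 28 * B * A * Cl * CA ^ 2 +
    14 * B * A * Cl * CA ^ 2 + 120 * A * B + 3 * Cp) * ℓ * X + ε * X := by
    rw [hℓ]; ring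
  rw [F9]
  linarith

end Pool.Agent.E8helper70.Dys
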