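import Pool.Agent.R846.NC.Abs

/-! # Pair sums and sums over lags: the combinatorial part -/

set_option autoImplicit false

open Finset

namespace Pool.Agent.E8helper70.Dys

open Pool.Agent.R846.NC (AA double_sum expand)

/-- the displacement of the `k`-th neighbour -/
def uu (y : ℕ → ℝ) (k n : ℕ) : ℝ := y (n + k) - y n - k

/-- the centred gap -/
def xx (y : ℕ → ℝ) (n : ℕ) : ℝ := y (n + 1) - y n - 1

lemma uu_eq (y : ℕ → ℝ) (k n : ℕ) : uu y k n = ∑ i ∈ range k, xx y (n + i) := by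
  unfold uu xx
  induction k with
  | zero => simp
  | succ k ih =>
    rw [Finset.sum_range_succ, ← ih]
    push_cast
    rw [show n + (k + 1) = n + k + 1 by ring]
    ring

/-- pair sums of an even function -/
lemma pair_split (F : ℝ → ℝ) (hF : ∀ x, F (-x) = F x) (y : ℕ → ℝ) (N : ℕ) :
    ∑ n ∈ Icc 1 N, ∑ m ∈ Icc 1 N, F (y m - y n) =
      N * F 0 + 2 * ∑ n ∈ Icc 1 N, ∑ m ∈ Ioc n N, F (y m - y n) := by
  induction N with
  | zero => simp
  | succ N ih =>
    have hI : ∀ f : ℕ → ℝ, ∑ n ∈ Icc 1 (N + 1), f n = ∑ n ∈ Icc 1 N, f n + f (N + 1) := by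
      intro f
      rw [Finset.sum_Icc_succ_top (by omega)]
    rw [hI]
    simp_rw [hI]
    rw [Finset.sum_add_distrib, ih]
    have e1 : ∑ m ∈ Icc 1 N, F (y m - y (N + 1)) = ∑ m ∈ Icc 1 N, F (y (N + 1) - y m) := by
      refine Finset.sum_congr rfl fun m _ => ?_
      rw [← hF, neg_sub]
    have e2 : ∑ n ∈ Icc 1 N, ∑ m ∈ Ioc n (N + 1), F (y m - y n) =
        ∑ n ∈ Icc 1 N, ∑ m ∈ Ioc n N, F (y m - y n) + ∑ n ∈ Icc 1 N, F (y (N + 1) - y n) := by
      rw [← Finset.sum_add_distrib]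
      refine Finset.sum_congr rfl fun n hn => ?_
      rw [mem_Icc] at hn
      have : Ioc n (N + 1) = insert (N + 1) (Ioc n N) := by
        ext m
        simp only [mem_Ioc, mem_insert]
        omega
      rw [this, Finset.sum_insert (by simp)]
      ring
    rw [e1, e2]
    simp only [sub_self, Finset.Ioc_self, Finset.sum_empty]
    push_cast
    ring

/-- passing from pairs to lags, for one index -/
lemma lag_one (F : ℝ → ℝ) (B : ℝ) (hB : ∀ x, |F x| ≤ B) (D : ℝ) (hD : ∀ x, D < |x| → F x = 0)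
    (y : ℕ → ℝ) (n N K : ℕ) :
    |∑ m ∈ Ioc n N, F (y m - y n) - ∑ k ∈ Icc 1 K, F (y (n + k) - y n)| ≤
      B * (((Ioc (n + K) N).filter fun m => |y m - y n| ≤ D).card : ℝ) +
        (if N < n + K then (K : ℝ) * B else 0) := by
  have hB0 : 0 ≤ B := (abs_nonneg _).trans (hB 0)
  have e1 : ∑ k ∈ Icc 1 K, F (y (n + k) - y n) = ∑ m ∈ Ioc n (n + K), F (y m - y n) := by
    have : Ioc n (n + K) = (Icc 1 K).image (fun k => n + k) := by
      ext m
      simp only [mem_Ioc, mem_image, mem_Icc]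
      constructor
      · intro h
        exact ⟨m - n, by omega, by omega⟩
      · rintro ⟨k, hk, rfl⟩
        omega
    rw [this, Finset.sum_image]
    intro a _ b _ h
    simpa using h
  have e2 : ∑ m ∈ Ioc n N, F (y m - y n) - ∑ m ∈ Ioc n (n + K), F (y m - y n) =
      ∑ m ∈ Ioc (n + K) N, F (y m - y n) - ∑ m ∈ Ioc (max n N) (n + K), F (y m - y n) := by
    rcases le_total (n + K) N with h | h
    · have h1 : Ioc n N = Ioc n (n + K) ∪ Ioc (n + K) N := by
        ext m; simp only [mem_Ioc, mem_union]; omega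
      have h2 : Disjoint (Ioc n (n + K)) (Ioc (n + K) N) := by
        rw [Finset.disjoint_left]
        intro m h3 h4
        rw [mem_Ioc] at h3 h4
        omega
      rw [h1, Finset.sum_union h2, Ioc_eq_empty_of_le (a := max n N) (by omega)]
      simp
    · have h1 : Ioc n (n + K) = Ioc n N ∪ Ioc (max n N) (n + K) := by
        ext m; simp only [mem_Ioc, mem_union]; omega
      have h2 : Disjoint (Ioc n N) (Ioc (max n N) (n + K)) := by
        rw [Finset.disjoint_left]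
        intro m h3 h4
        rw [mem_Ioc] at h3 h4
        omega
      rw [h1, Finset.sum_union h2, Ioc_eq_empty_of_le h]
      simp
  rw [e1, e2]
  refine (abs_sub _ _).trans ?_
  gcongr
  · calc |∑ m ∈ Ioc (n + K) N, F (y m - y n)| ≤ ∑ m ∈ Ioc (n + K) N, |F (y m - y n)| :=
          Finset.abs_sum_le_sum_abs _ _
      _ ≤ ∑ m ∈ Ioc (n + K) N, B * (if |y m - y n| ≤ D then (1 : ℝ) else 0) := by
          refine Finset.sum_le_sum fun m _ => ?_
          split_ifs with h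
          · rw [mul_one]; exact hB _
          · rw [hD _ (not_le.mp h)]; simp
      _ = _ := by
          rw [← Finset.mul_sum, Finset.sum_boole]
  · calc |∑ m ∈ Ioc (max n N) (n + K), F (y m - y n)| ≤ ∑ m ∈ Ioc (max n N) (n + K), |F (y m - y n)| :=
          Finset.abs_sum_le_sum_abs _ _
      _ ≤ ∑ _m ∈ Ioc (max n N) (n + K), B := Finset.sum_le_sum fun m _ => hB _
      _ ≤ _ := by
          rw [Finset.sum_const, nsmul_eq_mul, Nat.card_Ioc]
          split_ifs with h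
          · have : ((n + K - max n N : ℕ) : ℝ) ≤ K := by
              exact_mod_cast (by omega : n + K - max n N ≤ K)
            gcongr
          · have : n + K - max n N = 0 := by omega
            rw [this]
            simp

/-- **pairs and lags** -/
lemma pair_lag (F : ℝ → ℝ) (hF : ∀ x, F (-x) = F x) (B : ℝ) (hB : ∀ x, |F x| ≤ B) (D : ℝ)
    (hD : ∀ x, D < |x| → F x = 0) (y : ℕ → ℝ) (N K : ℕ) :
    |∑ n ∈ Icc 1 N, ∑ m ∈ Icc 1 N, F (y m - y n) -
      (N * F 0 + 2 * ∑ k ∈ Icc 1 K, ∑ n ∈ Icc 1 N, F (y (n + k) - y n))| ≤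
      2 * (B * ∑ n ∈ Icc 1 N, (((Ioc (n + K) N).filter fun m => |y m - y n| ≤ D).card : ℝ)) +
        2 * (K : ℝ) ^ 2 * B := by
  have hB0 : 0 ≤ B := (abs_nonneg _).trans (hB 0)
  rw [pair_split F hF y N, Finset.sum_comm (s := Icc 1 K)]
  have e : ((N : ℝ) * F 0 + 2 * ∑ n ∈ Icc 1 N, ∑ m ∈ Ioc n N, F (y m - y n)) -
      (N * F 0 + 2 * ∑ n ∈ Icc 1 N, ∑ k ∈ Icc 1 K, F (y (n + k) - y n)) =
      2 * ∑ n ∈ Icc 1 N, (∑ m ∈ Ioc n N, F (y m - y n) - ∑ k ∈ Icc 1 K, F (y (n + k) - y n)) := by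
    rw [Finset.sum_sub_distrib]; ring
  rw [e, abs_mul, abs_two]
  have h1 := (Finset.abs_sum_le_sum_abs (fun n => ∑ m ∈ Ioc n N, F (y m - y n) -
    ∑ k ∈ Icc 1 K, F (y (n + k) - y n)) (Icc 1 N)).trans
    (Finset.sum_le_sum fun n _ => lag_one F B hB D hD y n N K)
  rw [Finset.sum_add_distrib, ← Finset.mul_sum] at h1
  have h2 : ∑ n ∈ Icc 1 N, (if N < n + K then (K : ℝ) * B else 0) ≤ (K : ℝ) ^ 2 * B := by
    rw [← Finset.sum_filter, Finset.sum_const, nsmul_eq_mul]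
    have h3 : (((Icc 1 N).filter fun n => N < n + K).card : ℝ) ≤ K := by
      have h4 : (Icc 1 N).filter (fun n => N < n + K) ⊆ Ioc (N - K) N := by
        intro n hn
        rw [mem_filter, mem_Icc] at hn
        rw [mem_Ioc]
        omega
      have h5 := Finset.card_le_card h4
      rw [Nat.card_Ioc] at h5
      exact_mod_cast (by omega : ((Icc 1 N).filter fun n => N < n + K).card ≤ K)
    calc _ ≤ (K : ℝ) * (K * B) := by gcongr
      _ = _ := by ring
  linarith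

/-- summation by parts twice -/
lemma second_diff (g : ℕ → ℝ) (K i : ℕ) (hi : i < K) (h1 : g K = 0) (h2 : g (K + 1) = 0) :
    ∑ k ∈ Ioc i K, ((k : ℝ) - i) * (g (k + 1) - 2 * g k + g (k - 1)) = g i := by
  have key : ∀ M, i ≤ M → ∑ k ∈ Ioc i M, ((k : ℝ) - i) * (g (k + 1) - 2 * g k + g (k - 1)) =
      ((M : ℝ) - i) * g (M + 1) - ((M : ℝ) + 1 - i) * g M + g i := by
    intro M hM
    induction M, hM using Nat.le_induction with
    | base => simp
    | succ M hM ih =>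
      have : Ioc i (M + 1) = insert (M + 1) (Ioc i M) := by
        ext m; simp only [mem_Ioc, mem_insert]; omega
      rw [this, Finset.sum_insert (by simp), ih]
      have e : M + 1 - 1 = M := by omega
      rw [e]
      push_cast
      ring
  rw [key K hi.le, h1, h2]
  ring

/-- the double sum and the second differences -/
lemma sum_second_diff (g : ℕ → ℝ) (A : ℕ → ℝ) (K : ℕ) (h1 : ∀ k, K ≤ k → g k = 0) :
    ∑ k ∈ Icc 1 K, (g (k + 1) - 2 * g k + g (k - 1)) *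
      ((k : ℝ) * A 0 + 2 * ∑ i ∈ Ico 1 k, ((k : ℝ) - i) * A i) =
      g 0 * A 0 + 2 * ∑ i ∈ Icc 1 K, g i * A i := by
  rcases Nat.eq_zero_or_pos K with h0 | h0
  · subst h0
    simp [h1 0 le_rfl]
  have e1 : ∑ k ∈ Icc 1 K, (g (k + 1) - 2 * g k + g (k - 1)) *
      ((k : ℝ) * A 0 + 2 * ∑ i ∈ Ico 1 k, ((k : ℝ) - i) * A i) =
      A 0 * ∑ k ∈ Ioc 0 K, ((k : ℝ) - (0 : ℕ)) * (g (k + 1) - 2 * g k + g (k - 1)) +
      2 * ∑ k ∈ Icc 1 K, ∑ i ∈ Ico 1 k, A i * (((k : ℝ) - i) * (g (k + 1) - 2 * g k + g (k - 1))) := by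
    have e0 : Ioc 0 K = Icc 1 K := by
      ext m; simp only [mem_Ioc, mem_Icc]; omega
    rw [e0, Finset.mul_sum, Finset.mul_sum, ← Finset.sum_add_distrib]
    refine Finset.sum_congr rfl fun k _ => ?_
    simp_rw [mul_add, Finset.mul_sum]
    congr 1
    · push_cast; ring
    · refine Finset.sum_congr rfl fun i _ => ?_
      ring
  rw [e1, second_diff g K 0 h0 (h1 _ le_rfl) (h1 _ (by omega))]
  have e2 : ∑ k ∈ Icc 1 K, ∑ i ∈ Ico 1 k, A i * (((k : ℝ) - i) * (g (k + 1) - 2 * g k + g (k - 1))) =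
      ∑ i ∈ Icc 1 K, ∑ k ∈ Ioc i K, A i * (((k : ℝ) - i) * (g (k + 1) - 2 * g k + g (k - 1))) := by
    apply Finset.sum_comm'
    intro a b
    simp only [mem_Icc, mem_Ico, mem_Ioc]
    omega
  rw [e2]
  have e3 : ∑ i ∈ Icc 1 K, ∑ k ∈ Ioc i K, A i * (((k : ℝ) - i) * (g (k + 1) - 2 * g k + g (k - 1))) =
      ∑ i ∈ Icc 1 K, g i * A i := by
    refine Finset.sum_congr rfl fun i hi => ?_
    rw [mem_Icc] at hi
    rw [← Finset.mul_sum]
    rcases lt_or_ge i K with h | h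
    · rw [second_diff g K i h (h1 _ le_rfl) (h1 _ (by omega))]
      ring
    · rw [Ioc_eq_empty_of_le h, h1 i h]
      simp
  rw [e3]
  ring

/-- the second order term -/
lemma quad_term (g : ℕ → ℝ) (y : ℕ → ℝ) (N K : ℕ) (M D2 : ℝ) (h1 : ∀ k, K ≤ k → g k = 0)
    (hM : ∀ n, 1 ≤ n → n ≤ N + 2 * K → |xx y n| ≤ M)
    (hg : ∀ k, |g (k + 1) - 2 * g k + g (k - 1)| ≤ D2) :
    |∑ k ∈ Icc 1 K, (g (k + 1) - 2 * g k + g (k - 1)) * ∑ n ∈ Icc 1 N, uu y k n ^ 2 -
      (g 0 * AA (xx y) 0 N + 2 * ∑ i ∈ Icc 1 K, g i * AA (xx y) i N)| ≤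
      2 * (K : ℝ) ^ 4 * D2 * M ^ 2 := by
  have hD0 : 0 ≤ D2 := (abs_nonneg _).trans (hg 0)
  rw [← sum_second_diff g (fun i => AA (xx y) i N) K h1, ← Finset.sum_sub_distrib]
  refine (Finset.abs_sum_le_sum_abs _ _).trans ?_
  have h : ∀ k ∈ Icc 1 K, |(g (k + 1) - 2 * g k + g (k - 1)) * ∑ n ∈ Icc 1 N, uu y k n ^ 2 -
      (g (k + 1) - 2 * g k + g (k - 1)) * ((k : ℝ) * AA (xx y) 0 N +
        2 * ∑ i ∈ Ico 1 k, ((k : ℝ) - i) * AA (xx y) i N)| ≤ D2 * (2 * (K : ℝ) ^ 3 * M ^ 2) := by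
    intro k hk
    rw [mem_Icc] at hk
    rw [← mul_sub, abs_mul]
    have h3 := expand (xx y) N k M fun n a b => hM n a (by omega)
    simp_rw [uu_eq]
    have hkK : (k : ℝ) ≤ K := by exact_mod_cast hk.2
    have h4 : 2 * (k : ℝ) ^ 3 * M ^ 2 ≤ 2 * (K : ℝ) ^ 3 * M ^ 2 := by gcongr
    exact mul_le_mul (hg k) (h3.trans h4) (abs_nonneg _) hD0
  refine (Finset.sum_le_sum h).trans ?_
  rw [Finset.sum_const, Nat.card_Icc, nsmul_eq_mul]
  apply le_of_eq
  push_cast [Nat.add_sub_cancel]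
  ring

end Pool.Agent.E8helper70.Dys
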