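import Pool.Agent.E8helper70.Dys.Four

/-! # Splitting a test function into a band-limited part and a small part -/

set_option autoImplicit false

open MeasureTheory Filter Topology
open scoped ContDiff

namespace Pool.Agent.E8helper70.Dys

/-- a cut-off function -/
lemma bump : ∃ χ χ1 χ2 : ℝ → ℝ, ContDiff ℝ 1 χ ∧ (∀ x, HasDerivAt χ (χ1 x) x) ∧
    (∀ x, HasDerivAt χ1 (χ2 x) x) ∧ Continuous χ2 ∧ (∀ x, χ (-x) = χ x) ∧ χ 0 = 1 ∧
    (∀ x, 1 ≤ |x| → χ x = 0) ∧ ∃ C : ℝ, 0 < C ∧ ∀ x, |1 - χ x| ≤ C * |x| ^ 6 ∧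
      |χ1 x| ≤ C * |x| ^ 6 ∧ |χ2 x| ≤ C * |x| ^ 6 := by
  set b : ContDiffBump (0 : ℝ) := ⟨1 / 2, 1, by norm_num, by norm_num⟩ with hb
  have hcd : ContDiff ℝ 2 (b : ℝ → ℝ) := b.contDiff
  have hcs : HasCompactSupport (b : ℝ → ℝ) := b.hasCompactSupport
  have hcd' : ContDiff ℝ (1 + 1) (b : ℝ → ℝ) := b.contDiff
  have h1d : ContDiff ℝ 1 (deriv b) := hcd'.deriv'
  have h1d' : ContDiff ℝ (0 + 1) (deriv b) := by simpa using h1d
  have h2d : ContDiff ℝ 0 (deriv (deriv b)) := h1d'.deriv'
  have c1 : HasCompactSupport (deriv b) := hcs.deriv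
  have c2 : HasCompactSupport (deriv (deriv b)) := c1.deriv
  obtain ⟨C1, hC1⟩ := h1d.continuous.bounded_above_of_compact_support c1
  obtain ⟨C2, hC2⟩ := h2d.continuous.bounded_above_of_compact_support c2
  have z0 : ∀ x : ℝ, |x| < 1 / 2 → (b : ℝ → ℝ) =ᶠ[𝓝 x] fun _ => 1 := by
    intro x hx
    have : x ∈ Metric.ball (0 : ℝ) b.rIn := by
      rw [Metric.mem_ball, Real.dist_eq, sub_zero]
      exact hx
    exact b.eventuallyEq_one_of_mem_ball this
  have z1 : ∀ x : ℝ, |x| < 1 / 2 → deriv b x = 0 := by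
    intro x hx
    rw [(z0 x hx).deriv_eq]
    simp
  have z2 : ∀ x : ℝ, |x| < 1 / 2 → deriv (deriv b) x = 0 := by
    intro x hx
    have : deriv b =ᶠ[𝓝 x] fun _ => 0 := by
      have ho : IsOpen {y : ℝ | |y| < 1 / 2} := isOpen_lt continuous_abs continuous_const
      filter_upwards [ho.mem_nhds hx] with y hy
      exact z1 y hy
    rw [this.deriv_eq]
    simp
  refine ⟨b, deriv b, deriv (deriv b), hcd.of_le (by norm_num), fun x =>
    (hcd.differentiable (by norm_num) x).hasDerivAt, fun x =>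
    (h1d.differentiable (by norm_num) x).hasDerivAt, h2d.continuous, fun x => b.neg x, ?_, ?_, ?_⟩
  · apply b.one_of_mem_closedBall
    simp [hb]
  · intro x hx
    apply b.zero_of_le_dist
    rw [Real.dist_eq, sub_zero]
    exact hx
  · have hC1' : 0 ≤ C1 := (norm_nonneg _).trans (hC1 0)
    have hC2' : 0 ≤ C2 := (norm_nonneg _).trans (hC2 0)
    refine ⟨64 * (1 + C1 + C2), by positivity, fun x => ?_⟩
    rcases lt_or_ge |x| (1 / 2) with h | h
    · have e0 : (b : ℝ → ℝ) x = 1 := (z0 x h).self_of_nhds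
      rw [e0, z1 x h, z2 x h]
      have : 0 ≤ 64 * (1 + C1 + C2) * |x| ^ 6 := by positivity
      simp only [sub_self, abs_zero]
      exact ⟨this, this, this⟩
    · have h6 : 1 ≤ 64 * |x| ^ 6 := by
        have : (1 / 2 : ℝ) ^ 6 ≤ |x| ^ 6 := by gcongr
        norm_num at this
        linarith
      have h0 : |1 - b x| ≤ 1 := by
        have a1 := b.nonneg' x
        have a2 : b x ≤ 1 := b.le_one
        rw [abs_le]
        constructor <;> linarith
      have h1 := hC1 x
      have h2 := hC2 x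
      rw [Real.norm_eq_abs] at h1 h2
      refine ⟨?_, ?_, ?_⟩ <;> nlinarith

/-- integration by parts twice -/
lemma ibp {w w1 w2 : ℝ → ℝ} {K : ℝ} (h0 : ∀ x, HasDerivAt w (w1 x) x)
    (h1 : ∀ x, HasDerivAt w1 (w2 x) x) (hc : Continuous w2)
    (b0 : ∀ x, |w x| ≤ K / (1 + x ^ 2)) (b1 : ∀ x, |w1 x| ≤ K / (1 + x ^ 2))
    (b2 : ∀ x, |w2 x| ≤ K / (1 + x ^ 2)) (z : ℝ) :
    (1 + z ^ 2) * |∫ t, w t * Real.cos (z * t)| ≤ 2 * Real.pi * K := by
  have hw : Continuous w := continuous_iff_continuousAt.2 fun x => (h0 x).continuousAt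
  have hw1 : Continuous w1 := continuous_iff_continuousAt.2 fun x => (h1 x).continuousAt
  have hI : Integrable (fun x : ℝ => K / (1 + x ^ 2)) := by
    simpa [div_eq_mul_inv] using integrable_inv_one_add_sq.const_mul K
  have hIv : ∫ x : ℝ, K / (1 + x ^ 2) = Real.pi * K := by
    simp_rw [div_eq_mul_inv]
    rw [integral_const_mul, integral_univ_inv_one_add_sq]
    ring
  have i0 : Integrable w := hI.mono' hw.aestronglyMeasurable (Eventually.of_forall b0)
  have i1 : Integrable w1 := hI.mono' hw1.aestronglyMeasurable (Eventually.of_forall b1)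
  have i2 : Integrable w2 := hI.mono' hc.aestronglyMeasurable (Eventually.of_forall b2)
  have ic : ∀ {f : ℝ → ℝ}, Integrable f → Integrable (fun t => f t * Real.cos (z * t)) := by
    intro f hf
    have := hf.bdd_mul (c := 1) (f := fun t => Real.cos (z * t))
      (by apply Continuous.aestronglyMeasurable; fun_prop)
      (Eventually.of_forall fun t => by rw [Real.norm_eq_abs]; exact Real.abs_cos_le_one _)
    exact this.congr (Eventually.of_forall fun t => by simp [mul_comm])
  have is : ∀ {f : ℝ → ℝ}, Integrable f → Integrable (fun t => f t * Real.sin (z * t)) := by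
    intro f hf
    have := hf.bdd_mul (c := 1) (f := fun t => Real.sin (z * t))
      (by apply Continuous.aestronglyMeasurable; fun_prop)
      (Eventually.of_forall fun t => by rw [Real.norm_eq_abs]; exact Real.abs_sin_le_one _)
    exact this.congr (Eventually.of_forall fun t => by simp [mul_comm])
  have bd : ∀ {f g : ℝ → ℝ}, (∀ x, |f x| ≤ K / (1 + x ^ 2)) → (∀ x, |g x| ≤ 1) →
      |∫ t, f t * g t| ≤ Real.pi * K := by
    intro f g hf hg
    rw [← hIv, ← Real.norm_eq_abs]
    refine norm_integral_le_of_norm_le hI (Eventually.of_forall fun t => ?_)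
    rw [Real.norm_eq_abs, abs_mul]
    calc _ ≤ K / (1 + t ^ 2) * 1 := mul_le_mul (hf t) (hg t) (abs_nonneg _)
          ((abs_nonneg _).trans (hf t))
      _ = _ := mul_one _
  have s1 : z * ∫ t, w t * Real.cos (z * t) = - ∫ t, w1 t * Real.sin (z * t) := by
    have hv : ∀ x, HasDerivAt (fun t => Real.sin (z * t)) (z * Real.cos (z * x)) x := by
      intro x
      have := (Real.hasDerivAt_sin (z * x)).comp x ((hasDerivAt_id x).const_mul z)
      exact this.congr_deriv (by simp; ring)
    have := integral_mul_deriv_eq_deriv_mul_of_integrable (u := w) (u' := w1)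
      (v := fun t => Real.sin (z * t)) (v' := fun t => z * Real.cos (z * t))
      (fun x _ => h0 x) (fun x _ => hv x)
      (((ic i0).const_mul z).congr (Eventually.of_forall fun t => by simp; ring))
      (is i1) (is i0)
    rw [← this, ← integral_const_mul]
    congr 1
    funext t
    ring
  have s2 : z * ∫ t, w1 t * Real.sin (z * t) = ∫ t, w2 t * Real.cos (z * t) := by
    have hv : ∀ x, HasDerivAt (fun t => Real.cos (z * t)) (-(z * Real.sin (z * x))) x := by
      intro x
      have := (Real.hasDerivAt_cos (z * x)).comp x ((hasDerivAt_id x).const_mul z)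
      exact this.congr_deriv (by simp; ring)
    have := integral_mul_deriv_eq_deriv_mul_of_integrable (u := w1) (u' := w2)
      (v := fun t => Real.cos (z * t)) (v' := fun t => -(z * Real.sin (z * t)))
      (fun x _ => h1 x) (fun x _ => hv x)
      (((is i1).const_mul (-z)).congr (Eventually.of_forall fun t => by simp; ring))
      (ic i2) (ic i1)
    have h3 : ∫ t, w1 t * -(z * Real.sin (z * t)) = -(z * ∫ t, w1 t * Real.sin (z * t)) := by
      rw [← integral_const_mul, ← integral_neg]
      congr 1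
      funext t
      ring
    rw [h3] at this
    linarith
  have e : z ^ 2 * ∫ t, w t * Real.cos (z * t) = - ∫ t, w2 t * Real.cos (z * t) := by
    rw [sq, mul_assoc, s1, ← s2]
    ring
  have b3 := bd b0 (g := fun t => Real.cos (z * t)) (fun x => Real.abs_cos_le_one _)
  have b4 := bd b2 (g := fun t => Real.cos (z * t)) (fun x => Real.abs_cos_le_one _)
  have e2 : z ^ 2 * |∫ t, w t * Real.cos (z * t)| = |∫ t, w2 t * Real.cos (z * t)| := by
    rw [← abs_of_nonneg (sq_nonneg z), ← abs_mul, e, abs_neg]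
  have e3 : (1 + z ^ 2) * |∫ t, w t * Real.cos (z * t)| =
      |∫ t, w t * Real.cos (z * t)| + z ^ 2 * |∫ t, w t * Real.cos (z * t)| := by ring
  rw [e3, e2]
  linarith

end Pool.Agent.E8helper70.Dys
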