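import Pool.Agent.E8helper70.Dys.Cut

/-! # Splitting a test function into a band-limited part and a small part, II -/

set_option autoImplicit false

open MeasureTheory Filter Topology Set

namespace Pool.Agent.E8helper70.Dys

lemma half_line {g : ℝ → ℝ} (h : ∀ x, 1 ≤ x → g x = 0) :
    ∫ t in Ioi (0 : ℝ), g t = ∫ t in (0 : ℝ)..1, g t := by
  rw [intervalIntegral.integral_of_le zero_le_one]
  apply setIntegral_eq_of_subset_of_forall_sdiff_eq_zero measurableSet_Ioi
    (fun x hx => hx.1)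
  intro x hx
  apply h
  have h1 : 0 < x := hx.1
  have h2 : ¬ (0 < x ∧ x ≤ 1) := hx.2
  by_contra hcon
  push Not at hcon
  exact h2 ⟨h1, hcon.le⟩

lemma key_bound {R t a : ℝ} (hR : 1 ≤ R) (n : ℕ) (ha : 0 ≤ a) :
    a / (1 + |R / 2 * t|) ^ (n + 2) * |t| ^ n ≤ 2 ^ n * 4 * a / R ^ n / (1 + t ^ 2) := by
  have hR0 : 0 < R := by linarith
  set s := |R / 2 * t| with hs
  have hs0 : 0 ≤ s := abs_nonneg _
  have e1 : |t| = 2 * s / R := by
    rw [hs, abs_mul, abs_of_pos (by positivity : (0 : ℝ) < R / 2)]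
    field_simp
  have h1 : |t| ^ n ≤ 2 ^ n * (1 + s) ^ n / R ^ n := by
    rw [e1, div_pow, mul_pow]
    gcongr
    linarith
  have h2 : 1 + t ^ 2 ≤ 4 * (1 + s) ^ 2 := by
    have h3 : |t| ≤ 2 * s := by
      rw [e1, div_le_iff₀ hR0]
      nlinarith
    have h4 : t ^ 2 ≤ (2 * s) ^ 2 := by
      rw [← sq_abs]
      exact pow_le_pow_left₀ (abs_nonneg _) h3 2
    nlinarith
  have h5 : (0 : ℝ) < (1 + s) ^ (n + 2) := by positivity
  calc a / (1 + s) ^ (n + 2) * |t| ^ n ≤ a / (1 + s) ^ (n + 2) * (2 ^ n * (1 + s) ^ n / R ^ n) := by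
        gcongr
    _ = 2 ^ n * a / R ^ n / (1 + s) ^ 2 := by
        rw [pow_add]
        field_simp
    _ ≤ 2 ^ n * a / R ^ n / ((1 + t ^ 2) / 4) := by
        gcongr
        linarith
    _ = _ := by
        field_simp

theorem cut {G p p1 p2 : ℝ → ℝ} (h : TD G p p1 p2) : ∃ C : ℝ, 0 < C ∧ ∀ R : ℝ, 1 ≤ R →
    ∃ g : ℝ → ℝ, ContDiff ℝ 1 g ∧ g 1 = 0 ∧ g 0 = R / 2 * ∫ x, G x ∧
      |(∫ t in (0 : ℝ)..1, t * g t) - 2 / R * ∫ ξ in Ioi (0 : ℝ), ξ * p ξ| ≤ C / R ^ 3 ∧
      ∀ x, |G (x / R) - 2 * ∫ t in (0 : ℝ)..1, g t * Real.cos (2 * Real.pi * (x / 2) * t)| ≤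
        C / R ^ 3 / (1 + x ^ 2) := by
  obtain ⟨χ, χ1, χ2, cχ, d0, d1, c2, ev, z0, zz, Cχ, hCχ, bχ⟩ := bump
  obtain ⟨A, hA, dec⟩ := h.dec 9
  have hpi := Real.pi_pos
  have hpi3 := Real.pi_gt_three
  refine ⟨4096 * Cχ * A * Real.pi, by positivity, fun R hR => ?_⟩
  have hR0 : 0 < R := by linarith
  have hpc : Continuous p := continuous_iff_continuousAt.2 fun x => (h.d0 x).continuousAt
  have hp1c : Continuous p1 := continuous_iff_continuousAt.2 fun x => (h.d1 x).continuousAt
  have hpcd : ContDiff ℝ 1 p := by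
    rw [contDiff_one_iff_deriv]
    refine ⟨fun x => (h.d0 x).differentiableAt, ?_⟩
    have : deriv p = p1 := funext fun x => (h.d0 x).deriv
    rw [this]
    exact hp1c
  set g : ℝ → ℝ := fun t => R / 2 * (p (R / 2 * t) * χ t) with hg
  have g0 : ∀ t, 1 ≤ t → g t = 0 := by
    intro t ht
    simp only [hg]
    rw [zz t (by rw [abs_of_nonneg (by linarith)]; exact ht)]
    ring
  have hgc : ContDiff ℝ 1 g := by
    have h1 : ContDiff ℝ 1 (fun t : ℝ => p (R / 2 * t)) := hpcd.comp (contDiff_const.mul contDiff_id)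
    exact contDiff_const.mul (h1.mul cχ)
  -- the high part
  set w : ℝ → ℝ := fun t => p (R / 2 * t) * (1 - χ t) with hw
  set w1 : ℝ → ℝ := fun t => R / 2 * p1 (R / 2 * t) * (1 - χ t) + p (R / 2 * t) * (-χ1 t) with hw1
  set w2 : ℝ → ℝ := fun t => (R / 2 * (R / 2 * p2 (R / 2 * t)) * (1 - χ t) +
    R / 2 * p1 (R / 2 * t) * (-χ1 t)) + (R / 2 * p1 (R / 2 * t) * (-χ1 t) +
    p (R / 2 * t) * (-χ2 t)) with hw2
  have lin : ∀ x, HasDerivAt (fun t : ℝ => R / 2 * t) (R / 2) x := by
    intro x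
    exact ((hasDerivAt_id x).const_mul (R / 2)).congr_deriv (by ring)
  have dp : ∀ x, HasDerivAt (fun t => p (R / 2 * t)) (R / 2 * p1 (R / 2 * x)) x := by
    intro x
    exact ((h.d0 (R / 2 * x)).comp x (lin x)).congr_deriv (by ring)
  have dp1 : ∀ x, HasDerivAt (fun t => p1 (R / 2 * t)) (R / 2 * p2 (R / 2 * x)) x := by
    intro x
    exact ((h.d1 (R / 2 * x)).comp x (lin x)).congr_deriv (by ring)
  have hd0 : ∀ x, HasDerivAt w (w1 x) x := by
    intro x
    exact ((dp x).mul ((d0 x).const_sub 1)).congr_deriv (by simp only [hw1])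
  have hd1 : ∀ x, HasDerivAt w1 (w2 x) x := by
    intro x
    have a1 := ((dp1 x).const_mul (R / 2)).mul ((d0 x).const_sub 1)
    have a2 := (dp x).mul (d1 x).neg
    exact (a1.add a2).congr_deriv (by simp only [hw2, Pi.neg_apply])
  have hc1 : Continuous χ1 := continuous_iff_continuousAt.2 fun x => (d1 x).continuousAt
  have hχc : Continuous χ := cχ.continuous
  have hw2c : Continuous w2 := by
    have hp2 := h.c2
    have l : Continuous (fun t : ℝ => R / 2 * t) := by fun_prop
    have q0 := hpc.comp l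
    have q1 := hp1c.comp l
    have q2 := hp2.comp l
    simp only [hw2]
    exact (((continuous_const.mul (continuous_const.mul q2)).mul (continuous_const.sub hχc)).add
      ((continuous_const.mul q1).mul hc1.neg)).add
      (((continuous_const.mul q1).mul hc1.neg).add (q0.mul c2.neg))
  -- bounds
  obtain ⟨K, hK⟩ : ∃ K : ℝ, K = 3 * R ^ 2 * (Cχ * (64 * 4 * A / R ^ 6)) := ⟨_, rfl⟩
  have basic : ∀ (q : ℝ → ℝ) (e : ℝ → ℝ), (∀ x, |q x| ≤ A / (1 + |x|) ^ 9) →
      (∀ x, |e x| ≤ Cχ * |x| ^ 6) → ∀ t, |q (R / 2 * t) * e t| ≤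
        Cχ * (64 * 4 * A / R ^ 6) / (1 + t ^ 2) := by
    intro q e hq he t
    rw [abs_mul]
    have h1 : |q (R / 2 * t)| ≤ A / (1 + |R / 2 * t|) ^ (6 + 2) := by
      refine (hq _).trans ?_
      apply div_le_div_of_nonneg_left hA.le (by positivity)
      apply pow_le_pow_right₀ _ (by norm_num)
      linarith [abs_nonneg (R / 2 * t)]
    have h2 := key_bound (t := t) hR 6 hA.le
    calc |q (R / 2 * t)| * |e t| ≤ A / (1 + |R / 2 * t|) ^ (6 + 2) * (Cχ * |t| ^ 6) :=
          mul_le_mul h1 (he t) (abs_nonneg _) (by positivity)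
      _ = Cχ * (A / (1 + |R / 2 * t|) ^ (6 + 2) * |t| ^ 6) := by ring
      _ ≤ Cχ * (2 ^ 6 * 4 * A / R ^ 6 / (1 + t ^ 2)) := mul_le_mul_of_nonneg_left h2 hCχ.le
      _ = _ := by ring
  have p0b : ∀ x, |p x| ≤ A / (1 + |x|) ^ 9 := fun x => (dec x).1
  have p1b : ∀ x, |p1 x| ≤ A / (1 + |x|) ^ 9 := fun x => (dec x).2.1
  have p2b : ∀ x, |p2 x| ≤ A / (1 + |x|) ^ 9 := fun x => (dec x).2.2
  have e0b : ∀ x, |1 - χ x| ≤ Cχ * |x| ^ 6 := fun x => (bχ x).1
  have e1b : ∀ x, |-χ1 x| ≤ Cχ * |x| ^ 6 := fun x => by rw [abs_neg]; exact (bχ x).2.1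
  have e2b : ∀ x, |-χ2 x| ≤ Cχ * |x| ^ 6 := fun x => by rw [abs_neg]; exact (bχ x).2.2
  have hb0 : ∀ t, |w t| ≤ K / (1 + t ^ 2) := by
    intro t
    have h1 := basic p (fun x => 1 - χ x) p0b e0b t
    refine h1.trans ?_
    rw [hK]
    apply div_le_div_of_nonneg_right _ (by positivity)
    exact le_mul_of_one_le_left (by positivity) (by nlinarith)
  have hb1 : ∀ t, |w1 t| ≤ K / (1 + t ^ 2) := by
    intro t
    have h1 := basic p1 (fun x => 1 - χ x) p1b e0b t
    have h2 := basic p (fun x => -χ1 x) p0b e1b t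
    have e : w1 t = R / 2 * (p1 (R / 2 * t) * (1 - χ t)) + p (R / 2 * t) * (-χ1 t) := by
      simp only [hw1]; ring
    rw [e]
    refine (abs_add_le _ _).trans ?_
    rw [abs_mul, abs_of_pos (by positivity : (0 : ℝ) < R / 2)]
    set Q := Cχ * (64 * 4 * A / R ^ 6) / (1 + t ^ 2) with hQ
    have hQ0 : 0 ≤ Q := by positivity
    have e3 : K / (1 + t ^ 2) = 3 * R ^ 2 * Q := by rw [hK, hQ]; ring
    rw [e3]
    have h3 : R / 2 * |p1 (R / 2 * t) * (1 - χ t)| ≤ R / 2 * Q :=
      mul_le_mul_of_nonneg_left h1 (by positivity)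
    have h4 : R / 2 * Q + Q ≤ 3 * R ^ 2 * Q := by
      have : R / 2 + 1 ≤ 3 * R ^ 2 := by nlinarith
      nlinarith
    linarith
  have hb2 : ∀ t, |w2 t| ≤ K / (1 + t ^ 2) := by
    intro t
    have h1 := basic p2 (fun x => 1 - χ x) p2b e0b t
    have h2 := basic p1 (fun x => -χ1 x) p1b e1b t
    have h3 := basic p (fun x => -χ2 x) p0b e2b t
    have e : w2 t = R ^ 2 / 4 * (p2 (R / 2 * t) * (1 - χ t)) + (R * (p1 (R / 2 * t) * (-χ1 t)) +
        p (R / 2 * t) * (-χ2 t)) := by
      simp only [hw2]; ring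
    rw [e]
    refine (abs_add_le _ _).trans ?_
    have h5 := abs_add_le (R * (p1 (R / 2 * t) * (-χ1 t))) (p (R / 2 * t) * (-χ2 t))
    rw [abs_mul, abs_of_pos (by positivity : (0 : ℝ) < R ^ 2 / 4)]
    rw [abs_mul, abs_of_pos hR0] at h5
    set Q := Cχ * (64 * 4 * A / R ^ 6) / (1 + t ^ 2) with hQ
    have hQ0 : 0 ≤ Q := by positivity
    have e3 : K / (1 + t ^ 2) = 3 * R ^ 2 * Q := by rw [hK, hQ]; ring
    rw [e3]
    have h6 : R ^ 2 / 4 * |p2 (R / 2 * t) * (1 - χ t)| ≤ R ^ 2 / 4 * Q :=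
      mul_le_mul_of_nonneg_left h1 (by positivity)
    have h7 : R * |p1 (R / 2 * t) * (-χ1 t)| ≤ R * Q := mul_le_mul_of_nonneg_left h2 hR0.le
    have h4 : R ^ 2 / 4 * Q + (R * Q + Q) ≤ 3 * R ^ 2 * Q := by
      have : R ^ 2 / 4 + (R + 1) ≤ 3 * R ^ 2 := by nlinarith
      nlinarith
    linarith
  refine ⟨g, hgc, g0 1 le_rfl, ?_, ?_, fun x => ?_⟩
  · simp only [hg]
    rw [mul_zero, z0, h.z, mul_one]
  · -- the first moment
    have h1 := half_line (g := fun t => t * g t) (fun t ht => by rw [g0 t ht, mul_zero])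
    rw [← h1]
    have h2 := integral_comp_mul_left_Ioi (fun ξ : ℝ => ξ * p ξ) 0 (b := R / 2) (by positivity)
    rw [mul_zero, smul_eq_mul] at h2
    have h3 : 2 / R * ∫ ξ in Ioi (0 : ℝ), ξ * p ξ =
        ∫ t in Ioi (0 : ℝ), R / 2 * (t * p (R / 2 * t)) := by
      have e4 : ∫ x in Ioi (0 : ℝ), R / 2 * x * p (R / 2 * x) =
          ∫ t in Ioi (0 : ℝ), R / 2 * (t * p (R / 2 * t)) := by
        congr 1; funext t; ring
      rw [← e4, h2]
      field_simp
    rw [h3]
    -- integrability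
    have hI : Integrable (fun x : ℝ => 1 / (1 + x ^ 2)) := by
      simpa [div_eq_mul_inv] using integrable_inv_one_add_sq
    have hi1 : IntegrableOn (fun t => R / 2 * (t * p (R / 2 * t))) (Ioi 0) := by
      apply Integrable.integrableOn
      apply Integrable.const_mul
      refine (hI.const_mul (2 ^ 1 * 4 * A / R ^ 1)).mono'
        ((continuous_id.mul (hpc.comp (by fun_prop : Continuous fun t : ℝ => R / 2 * t))).aestronglyMeasurable)
        (Eventually.of_forall fun t => ?_)
      rw [Real.norm_eq_abs, abs_mul]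
      have h4 : |p (R / 2 * t)| ≤ A / (1 + |R / 2 * t|) ^ (1 + 2) := by
        refine (p0b _).trans ?_
        apply div_le_div_of_nonneg_left hA.le (by positivity)
        apply pow_le_pow_right₀ _ (by norm_num)
        linarith [abs_nonneg (R / 2 * t)]
      have h5 := key_bound (t := t) hR 1 hA.le
      calc |t| * |p (R / 2 * t)| ≤ |t| * (A / (1 + |R / 2 * t|) ^ (1 + 2)) := by gcongr
        _ = A / (1 + |R / 2 * t|) ^ (1 + 2) * |t| ^ 1 := by ring
        _ ≤ _ := h5
        _ = _ := by ring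
    have hbd : ∀ t, |t * g t - R / 2 * (t * p (R / 2 * t))| ≤
        (R / 2 * (Cχ * (128 * 4 * A / R ^ 7))) * (1 / (1 + t ^ 2)) := by
      intro t
      have e5 : t * g t - R / 2 * (t * p (R / 2 * t)) = -(R / 2 * (t * w t)) := by
        simp only [hg, hw]; ring
      rw [e5, abs_neg, abs_mul, abs_of_pos (by positivity : (0 : ℝ) < R / 2), mul_assoc]
      apply mul_le_mul_of_nonneg_left _ (by positivity)
      have h4 := p0b (R / 2 * t)
      have h5 := key_bound (t := t) hR 7 hA.le
      calc |t * w t| = |p (R / 2 * t)| * (|t| * |1 - χ t|) := by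
            simp only [hw]; rw [abs_mul, abs_mul]; ring
        _ ≤ A / (1 + |R / 2 * t|) ^ 9 * (|t| * (Cχ * |t| ^ 6)) := by
            apply mul_le_mul h4 _ (by positivity) (by positivity)
            exact mul_le_mul_of_nonneg_left (e0b t) (abs_nonneg _)
        _ = Cχ * (A / (1 + |R / 2 * t|) ^ (7 + 2) * |t| ^ 7) := by ring
        _ ≤ Cχ * (2 ^ 7 * 4 * A / R ^ 7 / (1 + t ^ 2)) := mul_le_mul_of_nonneg_left h5 hCχ.le
        _ = _ := by ring
    have hi2 : IntegrableOn (fun t => t * g t) (Ioi 0) := by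
      have h6 : IntegrableOn (fun t => t * g t - R / 2 * (t * p (R / 2 * t))) (Ioi 0) := by
        apply Integrable.integrableOn
        refine (hI.const_mul _).mono' ?_ (Eventually.of_forall hbd)
        exact ((continuous_id.mul hgc.continuous).sub (continuous_const.mul (continuous_id.mul
          (hpc.comp (by fun_prop : Continuous fun t : ℝ => R / 2 * t))))).aestronglyMeasurable
      exact (h6.add hi1).congr (Eventually.of_forall fun t => by simp)
    rw [← integral_sub hi2 hi1]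
    have hv : ∫ x in Ioi (0 : ℝ), (R / 2 * (Cχ * (128 * 4 * A / R ^ 7))) * (1 / (1 + x ^ 2)) ≤
        (R / 2 * (Cχ * (128 * 4 * A / R ^ 7))) * Real.pi := by
      rw [integral_const_mul]
      apply mul_le_mul_of_nonneg_left _ (by positivity)
      have : ∫ x : ℝ, 1 / (1 + x ^ 2) = Real.pi := by
        simp_rw [one_div]
        exact integral_univ_inv_one_add_sq
      rw [← this]
      exact setIntegral_le_integral hI (Eventually.of_forall fun t => by positivity)
    rw [← Real.norm_eq_abs]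
    refine (norm_integral_le_of_norm_le (hI.const_mul _).integrableOn
      (Eventually.of_forall hbd)).trans (hv.trans ?_)
    have e7 : R / 2 * (Cχ * (128 * 4 * A / R ^ 7)) * Real.pi =
        256 * Cχ * A * Real.pi / R ^ 6 := by
      field_simp
      ring
    rw [e7]
    have h8 : (R : ℝ) ^ 3 ≤ R ^ 6 := pow_le_pow_right₀ hR (by norm_num)
    calc 256 * Cχ * A * Real.pi / R ^ 6 ≤ 256 * Cχ * A * Real.pi / R ^ 3 := by gcongr
      _ ≤ _ := by
        apply div_le_div_of_nonneg_right _ (by positivity)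
        have : 0 ≤ Cχ * A * Real.pi := by positivity
        nlinarith
  · -- the difference
    have hcI : ∀ {f : ℝ → ℝ}, Integrable f → Integrable (fun t => f t * Real.cos (Real.pi * x * t)) := by
      intro f hf
      have := hf.bdd_mul (c := 1) (f := fun t => Real.cos (Real.pi * x * t))
        (by apply Continuous.aestronglyMeasurable; fun_prop)
        (Eventually.of_forall fun t => by rw [Real.norm_eq_abs]; exact Real.abs_cos_le_one _)
      exact this.congr (Eventually.of_forall fun t => by simp [mul_comm])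
    have hI : Integrable (fun x : ℝ => 1 / (1 + x ^ 2)) := by
      simpa [div_eq_mul_inv] using integrable_inv_one_add_sq
    have hwc : Continuous w := (hpc.comp (by fun_prop : Continuous fun t : ℝ => R / 2 * t)).mul
      (continuous_const.sub hχc)
    have iw : Integrable w := by
      refine (hI.const_mul K).mono' hwc.aestronglyMeasurable (Eventually.of_forall fun t => ?_)
      rw [Real.norm_eq_abs]
      refine (hb0 t).trans (le_of_eq ?_)
      ring
    have ip : Integrable (fun t => p (R / 2 * t)) := by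
      refine (hI.const_mul (2 ^ 0 * 4 * A / R ^ 0)).mono'
        (hpc.comp (by fun_prop : Continuous fun t : ℝ => R / 2 * t)).aestronglyMeasurable
        (Eventually.of_forall fun t => ?_)
      rw [Real.norm_eq_abs]
      have h4 : |p (R / 2 * t)| ≤ A / (1 + |R / 2 * t|) ^ (0 + 2) := by
        refine (p0b _).trans ?_
        apply div_le_div_of_nonneg_left hA.le (by positivity)
        apply pow_le_pow_right₀ _ (by norm_num)
        linarith [abs_nonneg (R / 2 * t)]
      have h5 := key_bound (t := t) hR 0 hA.le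
      rw [pow_zero, mul_one] at h5
      refine h4.trans (h5.trans (le_of_eq ?_))
      ring
    have e1 : G (x / R) = R / 2 * ∫ t, p (R / 2 * t) * Real.cos (Real.pi * x * t) := by
      rw [h.inv]
      have h2 := Measure.integral_comp_mul_left
        (fun ξ : ℝ => p ξ * Real.cos (2 * Real.pi * ξ * (x / R))) (R / 2)
      rw [smul_eq_mul, abs_of_pos (by positivity : (0 : ℝ) < (R / 2)⁻¹)] at h2
      have e3 : ∫ t : ℝ, p (R / 2 * t) * Real.cos (2 * Real.pi * (R / 2 * t) * (x / R)) =
          ∫ t, p (R / 2 * t) * Real.cos (Real.pi * x * t) := by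
        congr 1
        funext t
        congr 2
        field_simp
      rw [← e3, h2, ← mul_assoc, mul_inv_cancel₀ (by positivity), one_mul]
    have e2 : ∫ t, p (R / 2 * t) * Real.cos (Real.pi * x * t) =
        (∫ t, w t * Real.cos (Real.pi * x * t)) +
          ∫ t, p (R / 2 * t) * χ t * Real.cos (Real.pi * x * t) := by
      have ipχ : Integrable (fun t => p (R / 2 * t) * χ t) := by
        refine (ip.sub iw).congr (Eventually.of_forall fun t => ?_)
        simp only [hw, Pi.sub_apply]; ring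
      rw [← integral_add (hcI iw) (hcI ipχ)]
      congr 1
      funext t
      simp only [hw]; ring
    have e3 : ∫ t, p (R / 2 * t) * χ t * Real.cos (Real.pi * x * t) =
        2 * ∫ t in (0 : ℝ)..1, p (R / 2 * t) * χ t * Real.cos (Real.pi * x * t) := by
      have h4 := integral_comp_abs (f := fun t => p (R / 2 * t) * χ t * Real.cos (Real.pi * x * t))
      have h5 : ∀ t : ℝ, p (R / 2 * |t|) * χ |t| * Real.cos (Real.pi * x * |t|) =
          p (R / 2 * t) * χ t * Real.cos (Real.pi * x * t) := by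
        intro t
        rcases abs_choice t with h6 | h6
        · rw [h6]
        · rw [h6, ev, show R / 2 * -t = -(R / 2 * t) by ring, h.ev,
            show Real.pi * x * -t = -(Real.pi * x * t) by ring, Real.cos_neg]
      simp only [h5] at h4
      rw [h4, half_line]
      intro t ht
      rw [zz t (by rw [abs_of_nonneg (by linarith)]; exact ht)]
      ring
    have e4 : 2 * ∫ t in (0 : ℝ)..1, g t * Real.cos (2 * Real.pi * (x / 2) * t) =
        R / 2 * (2 * ∫ t in (0 : ℝ)..1, p (R / 2 * t) * χ t * Real.cos (Real.pi * x * t)) := by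
      have : ∫ t in (0 : ℝ)..1, g t * Real.cos (2 * Real.pi * (x / 2) * t) =
          ∫ t in (0 : ℝ)..1, R / 2 * (p (R / 2 * t) * χ t * Real.cos (Real.pi * x * t)) := by
        congr 1
        funext t
        simp only [hg]
        rw [show 2 * Real.pi * (x / 2) * t = Real.pi * x * t by ring]
        ring
      rw [this, intervalIntegral.integral_const_mul]
      ring
    have e5 : G (x / R) - 2 * ∫ t in (0 : ℝ)..1, g t * Real.cos (2 * Real.pi * (x / 2) * t) =
        R / 2 * ∫ t, w t * Real.cos (Real.pi * x * t) := by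
      rw [e1, e2, e3, e4]
      ring
    rw [e5, abs_mul, abs_of_pos (by positivity : (0 : ℝ) < R / 2)]
    have h6 := ibp hd0 hd1 hw2c hb0 hb1 hb2 (Real.pi * x)
    set J := |∫ t, w t * Real.cos (Real.pi * x * t)| with hJ
    have hJ0 : 0 ≤ J := abs_nonneg _
    have h7 : (1 + x ^ 2) * J ≤ 2 * Real.pi * K := by
      refine le_trans ?_ h6
      apply mul_le_mul_of_nonneg_right _ hJ0
      have : x ^ 2 ≤ (Real.pi * x) ^ 2 := by
        rw [mul_pow]
        have : 1 ≤ Real.pi ^ 2 := by nlinarith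
        nlinarith [sq_nonneg x]
      linarith
    rw [le_div_iff₀ (by positivity)]
    have e8 : R / 2 * (2 * Real.pi * K) = 768 * Cχ * A * Real.pi / R ^ 3 := by
      rw [hK]
      field_simp
      ring
    calc R / 2 * J * (1 + x ^ 2) = R / 2 * ((1 + x ^ 2) * J) := by ring
      _ ≤ R / 2 * (2 * Real.pi * K) := mul_le_mul_of_nonneg_left h7 (by positivity)
      _ = 768 * Cχ * A * Real.pi / R ^ 3 := e8
      _ ≤ _ := by
        apply div_le_div_of_nonneg_right _ (by positivity)
        have : 0 ≤ Cχ * A * Real.pi := by positivity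
        nlinarith

end Pool.Agent.E8helper70.Dys
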