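import Pool.Agent.E8helper70.Dys.Tay

/-! # Dyadic summation of tails -/

set_option autoImplicit false

open Finset

namespace Pool.Agent.E8helper70.Dys

lemma cube_le_of_le {x : ℝ} (J : ℕ) (hx : |x| ≤ 2 ^ J) :
    |x| ^ 3 ≤ 1 + ∑ j ∈ range J, 8 ^ (j + 1) * (if 2 ^ j < |x| then (1 : ℝ) else 0) := by
  induction J with
  | zero =>
    rw [pow_zero] at hx
    rw [Finset.range_zero, Finset.sum_empty, add_zero]
    exact pow_le_one₀ (abs_nonneg _) hx
  | succ J ih =>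
    rw [Finset.sum_range_succ]
    rcases le_or_gt |x| (2 ^ J) with h | h
    · have h1 := ih h
      have h2 : (0 : ℝ) ≤ 8 ^ (J + 1) * (if 2 ^ J < |x| then (1 : ℝ) else 0) := by
        split_ifs <;> positivity
      linarith
    · rw [if_pos h, mul_one]
      have h1 : |x| ^ 3 ≤ 8 ^ (J + 1) := by
        calc |x| ^ 3 ≤ (2 ^ (J + 1)) ^ 3 := pow_le_pow_left₀ (abs_nonneg _) hx 3
          _ = 8 ^ (J + 1) := by rw [← pow_mul, mul_comm, pow_mul]; norm_num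
      have h2 : (0 : ℝ) ≤ ∑ j ∈ range J, 8 ^ (j + 1) *
          (if 2 ^ j < |x| then (1 : ℝ) else 0) :=
        Finset.sum_nonneg fun k _ => by split_ifs <;> positivity
      linarith

lemma Ph_dyadic {R : ℝ} (hR : 1 ≤ R) (x : ℝ) (J : ℕ) :
    Ph R x ≤ 1 / R * (1 + ∑ j ∈ range J, 8 ^ (j + 1) * (if 2 ^ j < |x| then (1 : ℝ) else 0)) +
      |x| ^ 3 / 2 ^ J := by
  have hR0 : 0 < R := by linarith
  have h2 : (0 : ℝ) ≤ ∑ j ∈ range J, 8 ^ (j + 1) *
      (if 2 ^ j < |x| then (1 : ℝ) else 0) :=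
    Finset.sum_nonneg fun k _ => by split_ifs <;> positivity
  unfold Ph
  rcases le_or_gt |x| (2 ^ J) with h | h
  · have h1 := cube_le_of_le J h
    have h3 : x ^ 2 * min 1 (|x| / R) ≤ 1 / R * |x| ^ 3 := by
      calc x ^ 2 * min 1 (|x| / R) ≤ x ^ 2 * (|x| / R) :=
            mul_le_mul_of_nonneg_left (min_le_right _ _) (sq_nonneg _)
        _ = _ := by rw [← sq_abs]; ring
    have h4 : 1 / R * |x| ^ 3 ≤ 1 / R * (1 + ∑ j ∈ range J, 8 ^ (j + 1) *
      (if 2 ^ j < |x| then (1 : ℝ) else 0)) := mul_le_mul_of_nonneg_left h1 (by positivity)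
    have h5 : 0 ≤ |x| ^ 3 / 2 ^ J := by positivity
    linarith
  · have h3 : x ^ 2 * min 1 (|x| / R) ≤ |x| ^ 3 / 2 ^ J := by
      rw [le_div_iff₀ (by positivity)]
      have h6 : x ^ 2 * min 1 (|x| / R) ≤ |x| ^ 2 := by
        rw [sq_abs]
        exact mul_le_of_le_one_right (sq_nonneg _) (min_le_left _ _)
      calc x ^ 2 * min 1 (|x| / R) * 2 ^ J ≤ |x| ^ 2 * |x| :=
            mul_le_mul h6 h.le (by positivity) (by positivity)
        _ = _ := by ring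
    have h5 : 0 ≤ 1 / R * (1 + ∑ j ∈ range J, 8 ^ (j + 1) *
      (if 2 ^ j < |x| then (1 : ℝ) else 0)) := by positivity
    linarith

lemma geo22 (J : ℕ) : ∑ j ∈ range J, ((j : ℝ) + 2) ^ 2 / 2 ^ j ≤ 22 := by
  have key : ∑ j ∈ range J, ((j : ℝ) + 2) ^ 2 / 2 ^ j =
      22 - (2 * (J : ℝ) ^ 2 + 12 * J + 22) / 2 ^ J := by
    induction J with
    | zero => norm_num
    | succ J ih =>
      rw [Finset.sum_range_succ, ih]
      push_cast
      field_simp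
      ring
  rw [key]
  have : 0 ≤ (2 * (J : ℝ) ^ 2 + 12 * J + 22) / 2 ^ J := by positivity
  linarith

/-- **sums of truncated cubes from tails** -/
lemma Ph_sum (I : Finset ℕ) (u : ℕ → ℝ) (k J : ℕ) {R C Y : ℝ} (hR : 1 ≤ R) (hC : 0 ≤ C)
    (hY : 0 ≤ Y) (hI : (I.card : ℝ) ≤ C * Y) (h3 : ∑ n ∈ I, |u n| ^ 3 ≤ (k : ℝ) ^ 3 * (C * Y))
    (hJ : R * (k : ℝ) ^ 3 ≤ 2 ^ J)
    (ht : ∀ j, j < J → ((I.filter fun n => 2 ^ j < |u n|).card : ℝ) ≤
      C * (1 + Real.log (2 + k + 2 ^ j)) ^ 2 / 16 ^ j * Y) :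
    ∑ n ∈ I, Ph R (u n) ≤ 178 * C * (1 + Real.log (2 + k)) ^ 2 / R * Y := by
  have hR0 : 0 < R := by linarith
  obtain ⟨L, hL⟩ : ∃ L : ℝ, L = Real.log (2 + k) := ⟨_, rfl⟩
  have hk0 : (0 : ℝ) ≤ k := Nat.cast_nonneg k
  have hL0 : 0 ≤ L := by rw [hL]; exact Real.log_nonneg (by linarith)
  rw [← hL]
  have hlog : ∀ j : ℕ, 1 + Real.log (2 + k + 2 ^ j) ≤ (1 + L) * (j + 2) := by
    intro j
    have h1 : Real.log (2 + k + 2 ^ j) ≤ Real.log ((2 + k) * 2 ^ (j + 1)) := by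
      apply Real.log_le_log (by positivity)
      have : (1 : ℝ) ≤ 2 ^ j := one_le_pow₀ (by norm_num)
      rw [pow_succ]
      nlinarith
    rw [Real.log_mul (by positivity) (by positivity), Real.log_pow, ← hL] at h1
    have h2 : Real.log 2 ≤ 1 := by
      have := Real.log_two_lt_d9
      linarith
    have hj : (0 : ℝ) ≤ j := Nat.cast_nonneg j
    push_cast at h1
    have h3 : ((j : ℝ) + 1) * Real.log 2 ≤ j + 1 := by nlinarith
    nlinarith
  have hlog0 : ∀ j : ℕ, 0 ≤ 1 + Real.log (2 + k + 2 ^ j) := by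
    intro j
    have : (0 : ℝ) ≤ Real.log (2 + k + 2 ^ j) := by
      apply Real.log_nonneg
      have : (0 : ℝ) ≤ 2 ^ j := by positivity
      linarith
    linarith
  have h1 : ∑ n ∈ I, Ph R (u n) ≤ ∑ n ∈ I, (1 / R * (1 + ∑ j ∈ range J, 8 ^ (j + 1) *
      (if 2 ^ j < |u n| then (1 : ℝ) else 0)) + |u n| ^ 3 / 2 ^ J) :=
    Finset.sum_le_sum fun n _ => Ph_dyadic hR _ J
  refine h1.trans ?_
  rw [Finset.sum_add_distrib, ← Finset.mul_sum, Finset.sum_add_distrib, Finset.sum_const,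
    nsmul_eq_mul, mul_one, Finset.sum_comm, ← Finset.sum_div]
  have h4 : (∑ n ∈ I, |u n| ^ 3) / 2 ^ J ≤ C * Y / R := by
    rw [div_le_iff₀ (by positivity)]
    refine h3.trans ?_
    have : (C * Y / R) * (R * (k : ℝ) ^ 3) ≤ (C * Y / R) * 2 ^ J :=
      mul_le_mul_of_nonneg_left hJ (by positivity)
    refine le_trans (le_of_eq ?_) this
    field_simp
  have h5 : ∑ j ∈ range J, ∑ n ∈ I, 8 ^ (j + 1) * (if 2 ^ j < |u n| then (1 : ℝ) else 0) ≤
      176 * C * (1 + L) ^ 2 * Y := by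
    calc _ ≤ ∑ j ∈ range J, 8 * C * (1 + L) ^ 2 * Y * (((j : ℝ) + 2) ^ 2 / 2 ^ j) := by
          refine Finset.sum_le_sum fun j hj => ?_
          rw [← Finset.mul_sum, Finset.sum_boole]
          have h6 := ht j (Finset.mem_range.mp hj)
          have h7 : (1 + Real.log (2 + k + 2 ^ j)) ^ 2 ≤ ((1 + L) * (j + 2)) ^ 2 :=
            pow_le_pow_left₀ (hlog0 j) (hlog j) 2
          calc 8 ^ (j + 1) * ((I.filter fun n => 2 ^ j < |u n|).card : ℝ) ≤
              8 ^ (j + 1) * (C * (1 + Real.log (2 + k + 2 ^ j)) ^ 2 / 16 ^ j * Y) :=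
                mul_le_mul_of_nonneg_left h6 (by positivity)
            _ ≤ 8 ^ (j + 1) * (C * ((1 + L) * (j + 2)) ^ 2 / 16 ^ j * Y) := by gcongr
            _ = 8 * C * (1 + L) ^ 2 * Y * (((j : ℝ) + 2) ^ 2 * (8 ^ j / 16 ^ j)) := by
                rw [pow_succ]; ring
            _ = _ := by
                have : (8 : ℝ) ^ j / 16 ^ j = 1 / 2 ^ j := by
                  rw [← div_pow, show (8 : ℝ) / 16 = 1 / 2 by norm_num, one_div_pow]
                rw [this]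
                ring
      _ = 8 * C * (1 + L) ^ 2 * Y * ∑ j ∈ range J, ((j : ℝ) + 2) ^ 2 / 2 ^ j := by
          rw [Finset.mul_sum]
      _ ≤ 8 * C * (1 + L) ^ 2 * Y * 22 := mul_le_mul_of_nonneg_left (geo22 J) (by positivity)
      _ = _ := by ring
  have h8 : (1 : ℝ) ≤ (1 + L) ^ 2 := one_le_pow₀ (by linarith)
  have h9 : C * Y ≤ C * (1 + L) ^ 2 * Y := by
    have : 0 ≤ C * Y := by positivity
    nlinarith
  calc 1 / R * ((I.card : ℝ) + ∑ j ∈ range J, ∑ n ∈ I, 8 ^ (j + 1) *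
        (if 2 ^ j < |u n| then (1 : ℝ) else 0)) + (∑ n ∈ I, |u n| ^ 3) / 2 ^ J ≤
      1 / R * (C * Y + 176 * C * (1 + L) ^ 2 * Y) + C * Y / R := by gcongr
    _ = 1 / R * (2 * (C * Y) + 176 * C * (1 + L) ^ 2 * Y) := by ring
    _ ≤ 1 / R * (2 * (C * (1 + L) ^ 2 * Y) + 176 * C * (1 + L) ^ 2 * Y) := by gcongr
    _ = _ := by ring

end Pool.Agent.E8helper70.Dys
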