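import Mathlib

/-! # The cosine transform of an even test function -/

set_option autoImplicit false

open MeasureTheory FourierTransform SchwartzMap Filter Topology
open scoped ContDiff

namespace Pool.Agent.E8helper70.Dys

lemma dec_of {f : 𝓢(ℝ, ℂ)} (m : ℕ) : ∃ C : ℝ, 0 < C ∧ ∀ x, ‖f x‖ ≤ C / (1 + |x|) ^ m := by
  have h := fun x : ℝ => one_add_le_sup_seminorm_apply (𝕜 := ℝ) (m := (m, 0)) (k := m) (n := 0)
    le_rfl le_rfl f x
  obtain ⟨C, hC⟩ : ∃ C : ℝ, C = 2 ^ m * (Finset.Iic (m, 0)).sup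
    (fun m => SchwartzMap.seminorm ℝ m.1 m.2) f := ⟨_, rfl⟩
  refine ⟨|C| + 1, by positivity, fun x => ?_⟩
  have h1 := h x
  rw [← hC] at h1
  simp only [norm_iteratedFDeriv_zero, Real.norm_eq_abs] at h1
  rw [le_div_iff₀ (by positivity), mul_comm]
  linarith [le_abs_self C]

/-- the data of the transform -/
structure TD (G p p1 p2 : ℝ → ℝ) : Prop where
  d0 : ∀ x, HasDerivAt p (p1 x) x
  d1 : ∀ x, HasDerivAt p1 (p2 x) x
  c2 : Continuous p2
  ev : ∀ x, p (-x) = p x
  z : p 0 = ∫ x, G x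
  dec : ∀ m : ℕ, ∃ C : ℝ, 0 < C ∧ ∀ x, |p x| ≤ C / (1 + |x|) ^ m ∧ |p1 x| ≤ C / (1 + |x|) ^ m ∧
    |p2 x| ≤ C / (1 + |x|) ^ m
  inv : ∀ x, G x = ∫ ξ, p ξ * Real.cos (2 * Real.pi * ξ * x)

theorem exists_TD {G : ℝ → ℝ} (hs : ContDiff ℝ ∞ G) (hc : HasCompactSupport G)
    (he : ∀ x, G (-x) = G x) : ∃ p p1 p2 : ℝ → ℝ, TD G p p1 p2 := by
  have hc' : HasCompactSupport (fun x => (G x : ℂ)) := by
    have := hc.comp_left (g := fun r : ℝ => (r : ℂ)) (by simp)
    exact this
  have hs' : ContDiff ℝ ∞ (fun x => (G x : ℂ)) := Complex.ofRealCLM.contDiff.comp hs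
  set f : 𝓢(ℝ, ℂ) := hc'.toSchwartzMap hs' with hf
  have hfx : ∀ x, f x = (G x : ℂ) := fun x => rfl
  set P : 𝓢(ℝ, ℂ) := 𝓕 f with hP
  set P1 : 𝓢(ℝ, ℂ) := derivCLM ℝ ℂ P with hP1
  set P2 : 𝓢(ℝ, ℂ) := derivCLM ℝ ℂ P1 with hP2
  have hPx : ∀ ξ : ℝ, P ξ = ∫ v : ℝ, Complex.exp (((-2 * Real.pi * v * ξ : ℝ) : ℂ) * Complex.I) •
      (G v : ℂ) := by
    intro ξ
    have : P ξ = 𝓕 (f : ℝ → ℂ) ξ := rfl
    rw [this, Real.fourier_real_eq_integral_exp_smul]
    rfl
  have hint : ∀ ξ : ℝ, Integrable (fun v : ℝ =>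
      Complex.exp (((-2 * Real.pi * v * ξ : ℝ) : ℂ) * Complex.I) • (G v : ℂ)) := by
    intro ξ
    have h1 : Integrable (fun v : ℝ => (G v : ℂ)) := f.integrable
    have h2 := h1.bdd_mul (c := 1) (f := fun v : ℝ =>
      Complex.exp (((-2 * Real.pi * v * ξ : ℝ) : ℂ) * Complex.I))
      (by apply Continuous.aestronglyMeasurable; fun_prop)
      (Eventually.of_forall fun v => by rw [Complex.norm_exp_ofReal_mul_I])
    simpa [smul_eq_mul] using h2
  have hre : ∀ ξ : ℝ, (P ξ).re = ∫ v : ℝ, Real.cos (2 * Real.pi * v * ξ) * G v := by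
    intro ξ
    rw [hPx]
    have h1 := integral_re (hint ξ) (𝕜 := ℂ)
    have h2 : (∫ v : ℝ, Complex.exp (((-2 * Real.pi * v * ξ : ℝ) : ℂ) * Complex.I) • (G v : ℂ)).re =
        RCLike.re (∫ v : ℝ, Complex.exp (((-2 * Real.pi * v * ξ : ℝ) : ℂ) * Complex.I) •
          (G v : ℂ)) := rfl
    rw [h2, ← h1]
    congr 1
    funext v
    rw [smul_eq_mul]
    simp only [RCLike.re_to_complex, Complex.re_mul_ofReal, Complex.exp_ofReal_mul_I_re]
    rw [show -2 * Real.pi * v * ξ = -(2 * Real.pi * v * ξ) by ring, Real.cos_neg]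
  have hd : ∀ (Q : 𝓢(ℝ, ℂ)) (x : ℝ), HasDerivAt (fun x => (Q x).re) ((derivCLM ℝ ℂ Q x).re) x := by
    intro Q x
    have h1 := Q.hasDerivAt x
    have h2 := Complex.reCLM.hasFDerivAt.comp_hasDerivAt x h1
    exact h2
  refine ⟨fun x => (P x).re, fun x => (P1 x).re, fun x => (P2 x).re, hd P, hd P1, ?_, ?_, ?_, ?_, ?_⟩
  · exact Complex.continuous_re.comp P2.continuous
  · intro x
    show (P (-x)).re = (P x).re
    rw [hre, hre]
    congr 1
    funext v
    rw [show 2 * Real.pi * v * -x = -(2 * Real.pi * v * x) by ring, Real.cos_neg]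
  · show (P 0).re = _
    rw [hre]
    simp
  · intro m
    obtain ⟨C0, hC0, h0⟩ := dec_of (f := P) m
    obtain ⟨C1, hC1, h1⟩ := dec_of (f := P1) m
    obtain ⟨C2, hC2, h2⟩ := dec_of (f := P2) m
    refine ⟨C0 + C1 + C2, by positivity, fun x => ⟨?_, ?_, ?_⟩⟩
    · refine (Complex.abs_re_le_norm _).trans ((h0 x).trans ?_)
      gcongr
      linarith
    · refine (Complex.abs_re_le_norm _).trans ((h1 x).trans ?_)
      gcongr
      linarith
    · refine (Complex.abs_re_le_norm _).trans ((h2 x).trans ?_)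
      gcongr
      linarith
  · intro x
    have hinv : ∀ x : ℝ, (G x : ℂ) = ∫ v : ℝ, Complex.exp (((2 * Real.pi * v * x : ℝ) : ℂ) * Complex.I) •
        P v := by
      intro x
      have h1 : 𝓕⁻ (𝓕 f) = f := FourierTransform.fourierInv_fourier_eq f
      have h2 : f x = (𝓕⁻ (P : ℝ → ℂ)) x := by
        rw [← SchwartzMap.fourierInv_coe, hP, h1]
      rw [← hfx, h2, Real.fourierInv_eq']
      congr 1
      funext v
      congr 2
      simp only [RCLike.inner_apply, conj_trivial]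
      push_cast
      ring
    have hint2 : ∀ x : ℝ, Integrable (fun v : ℝ =>
        Complex.exp (((2 * Real.pi * v * x : ℝ) : ℂ) * Complex.I) • P v) := by
      intro x
      have h1 : Integrable (fun v : ℝ => P v) := P.integrable
      have h2 := h1.bdd_mul (c := 1) (f := fun v : ℝ =>
        Complex.exp (((2 * Real.pi * v * x : ℝ) : ℂ) * Complex.I))
        (by apply Continuous.aestronglyMeasurable; fun_prop)
        (Eventually.of_forall fun v => by rw [Complex.norm_exp_ofReal_mul_I])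
      simpa [smul_eq_mul] using h2
    have hsum : (2 : ℂ) * (G x : ℂ) = ∫ v : ℝ, ((2 * Real.cos (2 * Real.pi * v * x) : ℝ) : ℂ) * P v := by
      have h1 := hinv x
      have h2 := hinv (-x)
      rw [he] at h2
      rw [two_mul]
      nth_rewrite 1 [h1]
      rw [h2, ← integral_add (hint2 x) (hint2 (-x))]
      congr 1
      funext v
      rw [smul_eq_mul, smul_eq_mul, ← add_mul]
      congr 1
      rw [show 2 * Real.pi * v * -x = -(2 * Real.pi * v * x) by ring]
      push_cast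
      rw [Complex.two_cos, add_comm]

    have h3 := congrArg Complex.re hsum
    have h4 : Integrable (fun v : ℝ => ((2 * Real.cos (2 * Real.pi * v * x) : ℝ) : ℂ) * P v) := by
      refine P.integrable.bdd_mul (c := 2) (by apply Continuous.aestronglyMeasurable; fun_prop)
        (Eventually.of_forall fun v => ?_)
      rw [Complex.norm_real, Real.norm_eq_abs, abs_mul, abs_two]
      have := Real.abs_cos_le_one (2 * Real.pi * v * x)
      linarith
    have h5 := integral_re h4 (𝕜 := ℂ)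
    have h6 : (∫ v : ℝ, ((2 * Real.cos (2 * Real.pi * v * x) : ℝ) : ℂ) * P v).re =
        RCLike.re (∫ v : ℝ, ((2 * Real.cos (2 * Real.pi * v * x) : ℝ) : ℂ) * P v) := rfl
    rw [h6, ← h5] at h3
    have h7 : ((2 : ℂ) * (G x : ℂ)).re = 2 * G x := by simp
    rw [h7] at h3
    have h8 : ∫ v : ℝ, RCLike.re (((2 * Real.cos (2 * Real.pi * v * x) : ℝ) : ℂ) * P v) =
        2 * ∫ v : ℝ, (P v).re * Real.cos (2 * Real.pi * v * x) := by
      rw [← integral_const_mul]
      congr 1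
      funext v
      simp only [RCLike.re_to_complex, Complex.re_ofReal_mul]
      ring
    rw [h8] at h3
    linarith

end Pool.Agent.E8helper70.Dys
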