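import Pool.Agent.Y747.Blk
import Pool.Agent.H382L.GapUnif

/-! # From blocks to all indices, for sums with signs -/

set_option autoImplicit false

open Filter Topology

namespace Pool.Agent.E8helper70.Dys

open SG (ord NZ)
open W200.HW (Ix mem_Ix)
open Pool.Agent.TH873.EW (XV)
open Pool.Agent.Y747 (Bx mem_Bx edge)

lemma XV_pos {V : ℝ} (hV : 10 ≤ V) : 0 < XV V := by
  unfold Pool.Agent.TH873.EW.XV
  have h1 : 0 < Real.log V := Real.log_pos (by linarith)
  have h2 : 0 < V - 2 := by linarith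
  have := Real.pi_pos
  positivity

lemma log3_le : ∃ D : ℝ, 0 < D ∧ ∀ T : ℝ, 3 ≤ T → Real.log T * (1 + 2 * Real.log T) ^ 2 ≤ D * T := by
  have h1 : (fun T : ℝ => Real.log T ^ 3) =o[atTop] id := Real.isLittleO_pow_log_id_atTop
  have h2 := h1.bound (c := 1) one_pos
  obtain ⟨T0, hT0⟩ := h2.exists_forall_of_atTop
  refine ⟨9 * (max 1 |T0| + 1) ^ 3, by positivity, fun T hT => ?_⟩
  have hl1 : 1 ≤ Real.log T := by
    rw [Real.le_log_iff_exp_le (by linarith)]
    have := Real.exp_one_lt_d9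
    linarith
  have h3 : Real.log T * (1 + 2 * Real.log T) ^ 2 ≤ 9 * Real.log T ^ 3 := by nlinarith [sq_nonneg (Real.log T), mul_pos (show (0:ℝ) < Real.log T by linarith) (show (0:ℝ) < Real.log T by linarith)]
  have hm : 1 ≤ max 1 |T0| := le_max_left _ _
  rcases le_total T0 T with h | h
  · have h4 := hT0 T h
    rw [id, Real.norm_of_nonneg (by positivity), Real.norm_of_nonneg (by linarith), one_mul] at h4
    have h5 : (1 : ℝ) ≤ (max 1 |T0| + 1) ^ 3 := one_le_pow₀ (by linarith)
    nlinarith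
  · have h4 : Real.log T ≤ max 1 |T0| + 1 := by
      have := Real.log_le_sub_one_of_pos (show 0 < T by linarith)
      have h6 : T ≤ |T0| := h.trans (le_abs_self _)
      have h7 : |T0| ≤ max 1 |T0| := le_max_right _ _
      linarith
    have h5 : Real.log T ^ 3 ≤ (max 1 |T0| + 1) ^ 3 := pow_le_pow_left₀ (by linarith) h4 3
    have h8 : (0 : ℝ) ≤ (max 1 |T0| + 1) ^ 3 := by positivity
    nlinarith

theorem glo (hRH : RiemannHypothesis) (f : ℕ → ℝ) (C η : ℝ) (hC : 0 ≤ C) (hη : 0 ≤ η)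
    (hf : ∀ n : ℕ, 1 ≤ n → |f n| ≤ C * (1 + Real.log n) ^ 2)
    (hblk : ∀ ε : ℝ, 0 < ε → ∃ V0 : ℝ, 10 ≤ V0 ∧ ∀ V : ℝ, V0 ≤ V →
      |∑ n ∈ Bx V, f n| ≤ (η + ε) * XV V) (ε : ℝ) (hε : 0 < ε) :
    ∀ᶠ N : ℕ in atTop, |∑ n ∈ Finset.Icc 1 N, f n| ≤ (η + ε) * N := by
  classical
  have hpi := Real.pi_gt_three
  obtain ⟨L, hL, hed⟩ := edge hRH
  obtain ⟨D, hD, hlog3⟩ := log3_le
  obtain ⟨C3, T3, hC3, hT3, hup⟩ := LG.GapAux.NZ_up
  -- parameters
  obtain ⟨e, he0, he1, he2⟩ : ∃ e : ℝ, 0 < e ∧ e ≤ 1 ∧ (η + 3 * e) * (1 + e) ≤ η + ε := by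
    refine ⟨min 1 (ε / (η + 8)), lt_min one_pos (by positivity), min_le_left _ _, ?_⟩
    have h1 : min 1 (ε / (η + 8)) ≤ 1 := min_le_left _ _
    have h2 : min 1 (ε / (η + 8)) ≤ ε / (η + 8) := min_le_right _ _
    have h0 : 0 < min 1 (ε / (η + 8)) := lt_min one_pos (by positivity)
    set e := min 1 (ε / (η + 8))
    rw [le_div_iff₀ (by positivity)] at h2
    nlinarith
  obtain ⟨V0, hV0, hb⟩ := hblk e he0
  set S : ℝ → ℝ := fun T => ∑ n ∈ Ix T, f n with hS
  -- bound for the indices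
  obtain ⟨T4, hT4⟩ : ∃ T4 : ℝ, ∀ T : ℝ, T4 ≤ T → (NZ T : ℝ) ≤ T ^ 2 ∧ 3 ≤ T := by
    have h1 : (fun T : ℝ => Real.log T ^ 1) =o[atTop] id := Real.isLittleO_pow_log_id_atTop
    have h2 := h1.bound (c := 1 / (C3 + 1)) (by positivity)
    obtain ⟨T5, hT5⟩ := h2.exists_forall_of_atTop
    refine ⟨max (max (2 * T3) T5) 3, fun T hT => ?_⟩
    have hTT3 : 2 * T3 ≤ T := ((le_max_left _ _).trans (le_max_left _ _)).trans hT
    have hTT5 : T5 ≤ T := ((le_max_right _ _).trans (le_max_left _ _)).trans hT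
    have hTT : 3 ≤ T := (le_max_right _ _).trans hT
    have h3 := hup (T / 2) (by linarith)
    have e5 : 2 * (T / 2) = T := by ring
    rw [e5] at h3
    have h4 := hT5 T hTT5
    have hlT : 0 ≤ Real.log T := Real.log_nonneg (by linarith)
    rw [pow_one, id, Real.norm_of_nonneg hlT, Real.norm_of_nonneg (by linarith)] at h4
    have h6 : Real.log (T / 2) ≤ Real.log T := Real.log_le_log (by linarith) (by linarith)
    have h7 : C3 * (T / 2 * Real.log (T / 2)) ≤ C3 * (T * Real.log T) := by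
      have : 0 ≤ Real.log (T / 2) := Real.log_nonneg (by linarith)
      gcongr
      linarith
    have h8 : (C3 + 1) * Real.log T ≤ T := by
      calc (C3 + 1) * Real.log T ≤ (C3 + 1) * (1 / (C3 + 1) * T) := by gcongr
        _ = T := by field_simp
    refine ⟨?_, hTT⟩
    have h9 : C3 * (T * Real.log T) ≤ T ^ 2 := by nlinarith
    linarith
  have hfT : ∀ T : ℝ, T4 ≤ T → ∀ n ∈ Ix T, |f n| ≤ C * (1 + 2 * Real.log T) ^ 2 := by
    intro T hT n hn
    rw [mem_Ix] at hn
    obtain ⟨h1, h2⟩ := hT4 T hT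
    have h3 : n ≤ NZ T := (SG.ord_le_iff hn.1 T).mp hn.2
    have h4 : (n : ℝ) ≤ T ^ 2 := le_trans (by exact_mod_cast h3) h1
    have hn0 : (0 : ℝ) < n := by exact_mod_cast hn.1
    have h5 : Real.log n ≤ 2 * Real.log T := by
      have := Real.log_le_log hn0 h4
      rw [Real.log_pow] at this
      exact_mod_cast this
    have h6 : 0 ≤ Real.log n := Real.log_natCast_nonneg n
    refine (hf n hn.1).trans ?_
    gcongr
  have hEdge : ∀ T : ℝ, T4 ≤ T → ∀ E : Finset ℕ, E ⊆ Ix T → ∀ a b : ℝ, a ≤ b → b ≤ a + 1 →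
      (∀ n ∈ E, a < ord n ∧ ord n ≤ b) → |∑ n ∈ E, f n| ≤ 2 * L * C * (D * T) := by
    intro T hT E hE a b hab hab1 hEab
    obtain ⟨h1, h2⟩ := hT4 T hT
    have hlT : 0 ≤ Real.log T := Real.log_nonneg (by linarith)
    have h3 := hed T h2 a b hab
    have h4 : (E.card : ℝ) ≤ L * Real.log T * 2 := by
      have h5 : E ⊆ (Ix T).filter (fun n => a < ord n ∧ ord n ≤ b) := by
        intro n hn
        rw [Finset.mem_filter]
        exact ⟨hE hn, hEab n hn⟩
      have h6 : (E.card : ℝ) ≤ ((Ix T).filter (fun n => a < ord n ∧ ord n ≤ b)).card := by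
        exact_mod_cast Finset.card_le_card h5
      refine h6.trans (h3.trans ?_)
      apply mul_le_mul_of_nonneg_left (by linarith) (by positivity)
    calc |∑ n ∈ E, f n| ≤ ∑ n ∈ E, |f n| := Finset.abs_sum_le_sum_abs _ _
      _ ≤ ∑ _n ∈ E, C * (1 + 2 * Real.log T) ^ 2 := Finset.sum_le_sum fun n hn => hfT T hT n (hE hn)
      _ = (E.card : ℝ) * (C * (1 + 2 * Real.log T) ^ 2) := by rw [Finset.sum_const, nsmul_eq_mul]
      _ ≤ (L * Real.log T * 2) * (C * (1 + 2 * Real.log T) ^ 2) := by gcongr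
      _ = 2 * L * C * (Real.log T * (1 + 2 * Real.log T) ^ 2) := by ring
      _ ≤ _ := mul_le_mul_of_nonneg_left (hlog3 T h2) (by positivity)
  obtain ⟨T6, hT6⟩ : ∃ T6 : ℝ, T6 = max (2 * V0) (max T4 20) := ⟨_, rfl⟩
  have hT6a : 2 * V0 ≤ T6 := by rw [hT6]; exact le_max_left _ _
  have hT6b : T4 ≤ T6 := by rw [hT6]; exact (le_max_left _ _).trans (le_max_right _ _)
  have hT6c : 20 ≤ T6 := by rw [hT6]; exact (le_max_right _ _).trans (le_max_right _ _)
  -- the step
  have hstep : ∀ T : ℝ, T6 ≤ T → |S T| ≤ |S (T / 2)| + (η + e) * (T / 2 * Real.log T / (2 * Real.pi)) +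
      4 * L * C * (D * T) := by
    intro T hT
    have hT0 : 20 ≤ T := hT6c.trans hT
    have h1 := hb (T / 2) (by linarith)
    have h2 : XV (T / 2) ≤ T / 2 * Real.log T / (2 * Real.pi) := by
      unfold Pool.Agent.TH873.EW.XV
      have h3 : Real.log (T / 2) ≤ Real.log T := Real.log_le_log (by linarith) (by linarith)
      have h4 : 0 ≤ Real.log (T / 2) := Real.log_nonneg (by linarith)
      apply div_le_div_of_nonneg_right _ (by positivity)
      calc (T / 2 - 2) * Real.log (T / 2) ≤ (T / 2) * Real.log (T / 2) := by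
            apply mul_le_mul_of_nonneg_right _ h4; linarith
        _ ≤ T / 2 * Real.log T := by gcongr
    set E1 := (Ix T).filter (fun n => T / 2 < ord n ∧ ord n ≤ T / 2 + 1) with hE1
    set E2 := (Ix T).filter (fun n => T - 1 < ord n ∧ ord n ≤ T) with hE2
    have hdec : Ix T = ((Ix (T / 2) ∪ Bx (T / 2)) ∪ E1) ∪ E2 := by
      ext n
      simp only [Finset.mem_union, hE1, hE2, Finset.mem_filter, mem_Bx, mem_Ix]
      constructor
      · intro hn
        by_cases c1 : ord n ≤ T / 2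
        · exact Or.inl (Or.inl (Or.inl ⟨hn.1, c1⟩))
        · rw [not_le] at c1
          by_cases c2 : ord n ≤ T / 2 + 1
          · exact Or.inl (Or.inr ⟨hn, c1, c2⟩)
          · rw [not_le] at c2
            by_cases c3 : ord n ≤ T - 1
            · refine Or.inl (Or.inl (Or.inr ⟨hn.1, c2, ?_⟩))
              linarith
            · rw [not_le] at c3
              exact Or.inr ⟨hn, c3, hn.2⟩
      · rintro (((h | h) | h) | h)
        · exact ⟨h.1, by linarith [h.2]⟩
        · exact ⟨h.1, by linarith [h.2.2]⟩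
        · exact h.1
        · exact h.1
    have d1 : Disjoint (Ix (T / 2)) (Bx (T / 2)) := by
      rw [Finset.disjoint_left]
      intro n h3 h4
      rw [mem_Ix] at h3
      rw [mem_Bx] at h4
      linarith [h3.2, h4.2.1]
    have d2 : Disjoint (Ix (T / 2) ∪ Bx (T / 2)) E1 := by
      rw [Finset.disjoint_left]
      intro n h3 h4
      rw [hE1, Finset.mem_filter] at h4
      rw [Finset.mem_union, mem_Ix, mem_Bx] at h3
      rcases h3 with h3 | h3
      · linarith [h3.2, h4.2.1]
      · linarith [h3.2.1, h4.2.2]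
    have d3 : Disjoint ((Ix (T / 2) ∪ Bx (T / 2)) ∪ E1) E2 := by
      rw [Finset.disjoint_left]
      intro n h3 h4
      rw [hE2, Finset.mem_filter] at h4
      rw [Finset.mem_union, Finset.mem_union, mem_Ix, mem_Bx, hE1, Finset.mem_filter] at h3
      rcases h3 with (h3 | h3) | h3
      · linarith [h3.2, h4.2.1]
      · linarith [h3.2.2, h4.2.1]
      · linarith [h3.2.2, h4.2.1]
    have hsum : S T = S (T / 2) + ∑ n ∈ Bx (T / 2), f n + ∑ n ∈ E1, f n + ∑ n ∈ E2, f n := by
      simp only [hS]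
      rw [hdec, Finset.sum_union d3, Finset.sum_union d2, Finset.sum_union d1]
    have b1 := hEdge T (hT6b.trans hT) E1 (Finset.filter_subset _ _) (T / 2) (T / 2 + 1) (by linarith)
      (by linarith) (fun n hn => (Finset.mem_filter.mp hn).2)
    have b2 := hEdge T (hT6b.trans hT) E2 (Finset.filter_subset _ _) (T - 1) T (by linarith)
      (by linarith) (fun n hn => (Finset.mem_filter.mp hn).2)
    rw [hsum]
    have a1 := abs_add_le (S (T / 2) + ∑ n ∈ Bx (T / 2), f n + ∑ n ∈ E1, f n) (∑ n ∈ E2, f n)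
    have a2 := abs_add_le (S (T / 2) + ∑ n ∈ Bx (T / 2), f n) (∑ n ∈ E1, f n)
    have a3 := abs_add_le (S (T / 2)) (∑ n ∈ Bx (T / 2), f n)
    have h11 : (η + e) * XV (T / 2) ≤ (η + e) * (T / 2 * Real.log T / (2 * Real.pi)) :=
      mul_le_mul_of_nonneg_left h2 (by linarith)
    linarith
  -- the induction
  obtain ⟨P, hP⟩ : ∃ P : ℝ, P = ∑ n ∈ Ix T6, |f n| := ⟨_, rfl⟩
  have hP0 : 0 ≤ P := by rw [hP]; exact Finset.sum_nonneg fun n _ => abs_nonneg _
  obtain ⟨B, hB⟩ : ∃ B : ℝ, B = 8 * L * C * D + P + 1 := ⟨_, rfl⟩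
  have hB0 : 0 < B := by rw [hB]; positivity
  have key : ∀ j : ℕ, ∀ T : ℝ, 10 ≤ T → T ≤ 2 ^ j * T6 →
      |S T| ≤ (η + e) * (T * Real.log T / (2 * Real.pi)) + B * T := by
    intro j
    induction j with
    | zero =>
      intro T h1 h2
      rw [pow_zero, one_mul] at h2
      have h3 : |S T| ≤ P := by
        rw [hP]
        refine (Finset.abs_sum_le_sum_abs _ _).trans ?_
        apply Finset.sum_le_sum_of_subset_of_nonneg
        · intro n hn
          rw [mem_Ix] at hn ⊢
          exact ⟨hn.1, hn.2.trans h2⟩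
        · intro n _ _; exact abs_nonneg _
      have h5 : 0 ≤ (η + e) * (T * Real.log T / (2 * Real.pi)) := by
        have : 0 ≤ Real.log T := Real.log_nonneg (by linarith)
        have : 0 < T := by linarith
        positivity
      have h6 : P ≤ B * T := by
        have : 0 ≤ 8 * L * C * D := by positivity
        rw [hB]; nlinarith
      linarith
    | succ j ih =>
      intro T h1 h2
      rcases le_total T T6 with h3 | h3
      · have hpow : (1 : ℝ) ≤ 2 ^ j := one_le_pow₀ (by norm_num)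
        exact ih T h1 (h3.trans (le_mul_of_one_le_left (by linarith) hpow))
      · have h5 := ih (T / 2) (by linarith) (by rw [pow_succ] at h2; linarith)
        have h6 := hstep T h3
        have hT0 : 0 < T := by linarith
        have h7 : Real.log (T / 2) ≤ Real.log T := Real.log_le_log (by linarith) (by linarith)
        have h9 : (η + e) * (T / 2 * Real.log (T / 2) / (2 * Real.pi)) ≤
            (η + e) * (T / 2 * Real.log T / (2 * Real.pi)) := by gcongr
        have h10 : 4 * L * C * (D * T) ≤ B / 2 * T := by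
          have h11 : 4 * L * C * D ≤ B / 2 := by rw [hB]; linarith
          calc 4 * L * C * (D * T) = 4 * L * C * D * T := by ring
            _ ≤ B / 2 * T := by gcongr
        have h11 : (η + e) * (T / 2 * Real.log T / (2 * Real.pi)) +
            (η + e) * (T / 2 * Real.log T / (2 * Real.pi)) =
            (η + e) * (T * Real.log T / (2 * Real.pi)) := by ring
        linarith
  have hT : ∀ T : ℝ, 10 ≤ T → |S T| ≤ (η + e) * (T * Real.log T / (2 * Real.pi)) + B * T := by
    intro T hT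
    obtain ⟨j, hj⟩ := pow_unbounded_of_one_lt (T / T6) (by norm_num : (1 : ℝ) < 2)
    apply key j T hT
    rw [div_lt_iff₀ (by linarith)] at hj
    exact hj.le
  -- the end
  have hlim : Tendsto (fun N : ℕ => ord (N + 1)) atTop atTop :=
    SG.ord_tendsto.comp (tendsto_add_atTop_nat 1)
  have hlim0 : Tendsto (fun N : ℕ => ord N) atTop atTop := SG.ord_tendsto
  filter_upwards [hlim0.eventually_ge_atTop (max 20 T4), W249.TCF.T_le e he0 he1,
    (Real.tendsto_log_atTop.comp hlim0).eventually_ge_atTop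
      ((B + 2 * L * C * D) * (2 * Real.pi) / e), eventually_ge_atTop 1] with N h1 h2 h3 hN1
  simp only [Function.comp] at h3
  set T := ord N with hTd
  have hT20 : 20 ≤ T := (le_max_left _ _).trans h1
  have hTT4 : T4 ≤ T := (le_max_right _ _).trans h1
  have h4 := hT T (by linarith)
  have hT0 : 0 < T := by linarith
  have hmono : T ≤ ord (N + 1) := SG.ord_mono hN1 (by omega)
  have hlT : 0 ≤ Real.log T := Real.log_nonneg (by linarith)
  have h2' : T * Real.log T / (2 * Real.pi) ≤ (1 + e) * N := by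
    refine le_trans ?_ h2
    apply div_le_div_of_nonneg_right _ (by positivity)
    have := Real.log_le_log hT0 hmono
    exact mul_le_mul hmono this hlT (by linarith)
  -- the last ordinate
  set E := Finset.Ioc N (NZ T) with hE
  have hNT : N ≤ NZ T := (SG.ord_le_iff hN1 T).mp le_rfl
  have hIx : Ix T = Finset.Icc 1 N ∪ E := by
    ext n
    rw [mem_Ix, Finset.mem_union, Finset.mem_Icc, hE, Finset.mem_Ioc]
    constructor
    · intro hn
      have := (SG.ord_le_iff hn.1 T).mp hn.2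
      omega
    · intro hn
      have hn1 : 1 ≤ n := by omega
      exact ⟨hn1, (SG.ord_le_iff hn1 T).mpr (by omega)⟩
  have hdis : Disjoint (Finset.Icc 1 N) E := by
    rw [Finset.disjoint_left]
    intro n h5 h6
    rw [Finset.mem_Icc] at h5
    rw [hE, Finset.mem_Ioc] at h6
    omega
  have hsumT : S T = ∑ n ∈ Finset.Icc 1 N, f n + ∑ n ∈ E, f n := by
    simp only [hS]
    rw [hIx, Finset.sum_union hdis]
  have b3 := hEdge T hTT4 E (by rw [hIx]; exact Finset.subset_union_right) (T - 1) T (by linarith)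
    (by linarith) (fun n hn => by
      rw [hE, Finset.mem_Ioc] at hn
      have hn1 : 1 ≤ n := by omega
      have a1 : ord n ≤ T := (SG.ord_le_iff hn1 T).mpr hn.2
      have a2 : T ≤ ord n := SG.ord_mono hN1 hn.1.le
      exact ⟨by linarith, a1⟩)
  have e1 : ∑ n ∈ Finset.Icc 1 N, f n = S T - ∑ n ∈ E, f n := by rw [hsumT]; ring
  rw [e1]
  refine (abs_sub _ _).trans ?_
  have h5 : (B + 2 * L * C * D) * T ≤ e * (T * Real.log T / (2 * Real.pi)) := by
    rw [div_le_iff₀ he0] at h3
    rw [← mul_div_assoc, le_div_iff₀ (by positivity)]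
    nlinarith
  have h6 : (η + 2 * e) * (T * Real.log T / (2 * Real.pi)) ≤ (η + 2 * e) * ((1 + e) * N) :=
    mul_le_mul_of_nonneg_left h2' (by positivity)
  have hN0 : (0 : ℝ) ≤ N := Nat.cast_nonneg N
  have h8 : (η + 2 * e) * ((1 + e) * N) ≤ (η + ε) * N := by
    have : (η + 2 * e) * (1 + e) ≤ η + ε := by nlinarith
    nlinarith
  have e2 : (B + 2 * L * C * D) * T = B * T + 2 * L * C * (D * T) := by ring
  rw [e2] at h5
  linarith

end Pool.Agent.E8helper70.Dys
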