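import Pool.Agent.E8helper70.Dys.Tay

/-! # Riemann sums of an even test function -/

set_option autoImplicit false

open MeasureTheory Filter Topology Finset

namespace Pool.Agent.E8helper70.Dys

variable {G G1 G2 G3 G4 : ℝ → ℝ} {B : ℝ}

/-- the corrected trapezoidal rule on one interval -/
lemma trap (h : TF G G1 G2 G3 G4 B) (a s : ℝ) :
    |(∫ x in a..(a + s), G x) - s * (G a + G (a + s)) / 2 + s ^ 2 * (G1 (a + s) - G1 a) / 12| ≤
      2 * B * s ^ 4 := by
  have hB := h.B0
  have hGc : Continuous G := continuous_iff_continuousAt.2 fun x => (h.d0 x).continuousAt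
  have hb : ∀ t, |t| ≤ |s| → |G (a + t) - ((G a + G (a + t)) / 2 + t * G1 (a + t) / 2) +
      (2 * t * (G1 (a + t) - G1 a) / 12 + t ^ 2 * G2 (a + t) / 12)| ≤ 2 * B * |s| ^ 3 := by
    intro t ht
    have r0 := taylor3 h a t
    have t0 : 0 ≤ |t| := abs_nonneg t
    have r2 : |G2 (a + t) - G2 a| ≤ B * |t| :=
      mvt0 (f := fun s => G2 (a + s) - G2 a) (f' := fun s => G3 (a + s)) (h := t) (K := B)
        (fun s => (shift_deriv h.d2 a s).sub_const _) (by simp) (fun s _ => h.b3 _) t le_rfl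
    have r1 : |G1 (a + t) - G1 a - G2 a * t| ≤ B * |t| * |t| := by
      refine mvt0 (f := fun s => G1 (a + s) - G1 a - G2 a * s)
        (f' := fun s => G2 (a + s) - G2 a) (h := t) (fun s => ?_) (by simp) (fun s hs => ?_) t le_rfl
      · have h1 := ((shift_deriv h.d1 a s).sub_const (G1 a)).sub ((hasDerivAt_id s).const_mul (G2 a))
        exact h1.congr_deriv (by ring)
      · have := mvt0 (f := fun s => G2 (a + s) - G2 a) (f' := fun s => G3 (a + s)) (h := t) (K := B)
          (fun s => (shift_deriv h.d2 a s).sub_const _) (by simp) (fun s _ => h.b3 _) s hs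
        exact this
    have r0' : |G (a + t) - (G a + G1 a * t + G2 a / 2 * t ^ 2)| ≤ 2 * B * (|t| ^ 3) := by
      refine r0.trans ?_
      have : t ^ 2 * min 1 |t| ≤ |t| ^ 3 := by
        rw [← sq_abs]
        have : min 1 |t| ≤ |t| := min_le_right _ _
        calc |t| ^ 2 * min 1 |t| ≤ |t| ^ 2 * |t| := by gcongr
          _ = _ := by ring
      gcongr
    set q0 := G (a + t) - (G a + G1 a * t + G2 a / 2 * t ^ 2) with hq0
    set q1 := G1 (a + t) - G1 a - G2 a * t with hq1
    set q2 := G2 (a + t) - G2 a with hq2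
    have e : G (a + t) - ((G a + G (a + t)) / 2 + t * G1 (a + t) / 2) +
      (2 * t * (G1 (a + t) - G1 a) / 12 + t ^ 2 * G2 (a + t) / 12) =
      q0 / 2 + (-(t * q1) / 3 + t ^ 2 * q2 / 12) := by
      rw [hq0, hq1, hq2]
      ring
    rw [e]
    have m1 := abs_add_le (q0 / 2) (-(t * q1) / 3 + t ^ 2 * q2 / 12)
    have m2 := abs_add_le (-(t * q1) / 3) (t ^ 2 * q2 / 12)
    have m3 : |q0 / 2| ≤ B * |t| ^ 3 := by
      rw [abs_div, abs_two]; linarith
    have m4 : |-(t * q1) / 3| ≤ B * |t| ^ 3 / 3 := by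
      rw [abs_div, abs_neg, abs_mul]
      have : |(3 : ℝ)| = 3 := by norm_num
      rw [this]
      have : |t| * |q1| ≤ |t| * (B * |t| * |t|) := mul_le_mul_of_nonneg_left r1 t0
      apply div_le_div_of_nonneg_right _ (by norm_num)
      calc _ ≤ |t| * (B * |t| * |t|) := this
        _ = _ := by ring
    have m5 : |t ^ 2 * q2 / 12| ≤ B * |t| ^ 3 / 12 := by
      rw [abs_div, abs_mul, abs_pow]
      have : |(12 : ℝ)| = 12 := by norm_num
      rw [this]
      apply div_le_div_of_nonneg_right _ (by norm_num)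
      calc |t| ^ 2 * |q2| ≤ |t| ^ 2 * (B * |t|) := by gcongr
        _ = _ := by ring
    have m6 : |t| ^ 3 ≤ |s| ^ 3 := pow_le_pow_left₀ t0 ht 3
    have m7 : 0 ≤ B * |t| ^ 3 := by positivity
    have m8 : B * |t| ^ 3 ≤ B * |s| ^ 3 := mul_le_mul_of_nonneg_left m6 hB
    linarith
  have h0 := mvt0 (f := fun t => (∫ x in a..(a + t), G x) - t * (G a + G (a + t)) / 2 +
      t ^ 2 * (G1 (a + t) - G1 a) / 12)
    (f' := fun t => G (a + t) - ((G a + G (a + t)) / 2 + t * G1 (a + t) / 2) +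
      (2 * t * (G1 (a + t) - G1 a) / 12 + t ^ 2 * G2 (a + t) / 12)) (h := s) (K := 2 * B * |s| ^ 3)
    (fun t => by
      have f1 : HasDerivAt (fun t => ∫ x in a..(a + t), G x) (G (a + t)) t := by
        have := (intervalIntegral.integral_hasDerivAt_right (hGc.intervalIntegrable a (a + t))
          (hGc.stronglyMeasurableAtFilter _ _) hGc.continuousAt)
        exact this.comp_const_add a t
      have f2 : HasDerivAt (fun t => t * (G a + G (a + t)) / 2)
          ((G a + G (a + t)) / 2 + t * G1 (a + t) / 2) t := by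
        have := ((hasDerivAt_id t).mul ((shift_deriv h.d0 a t).const_add (G a))).div_const 2
        exact this.congr_deriv (by simp; ring)
      have f3 : HasDerivAt (fun t => t ^ 2 * (G1 (a + t) - G1 a) / 12)
          (2 * t * (G1 (a + t) - G1 a) / 12 + t ^ 2 * G2 (a + t) / 12) t := by
        have := ((hasDerivAt_pow 2 t).mul ((shift_deriv h.d1 a t).sub_const (G1 a))).div_const 12
        exact this.congr_deriv (by simp; ring)
      exact (f1.sub f2).add f3) (by simp) hb s le_rfl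
  refine h0.trans (le_of_eq ?_)
  have : s ^ 4 = |s| ^ 4 := by
    rw [show (4 : ℕ) = 2 * 2 by norm_num, pow_mul, pow_mul, sq_abs]
  rw [this]
  ring

/-- **Riemann sums** -/
theorem riem (h : TF G G1 G2 G3 G4 B) (hev : ∀ x, G (-x) = G x) {A R : ℝ} (hR : 1 ≤ R)
    (hA0 : 0 ≤ A) (hA : ∀ x, A < |x| → G x = 0) (K : ℕ) (hK : A * R < K) :
    |(G 0 + 2 * ∑ k ∈ Icc 1 K, G (k / R)) - R * ∫ x, G x| ≤ 4 * B * K / R ^ 3 := by
  have hR0 : 0 < R := by linarith
  have hB := h.B0
  have hGc : Continuous G := continuous_iff_continuousAt.2 fun x => (h.d0 x).continuousAt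
  have hAK : A < K / R := by rw [lt_div_iff₀ hR0]; exact hK
  have hG1K : G1 (K / R) = 0 := by
    have h1 : G =ᶠ[𝓝 ((K : ℝ) / R)] fun _ => 0 := by
      have ho : IsOpen {y : ℝ | A < y} := isOpen_Ioi
      filter_upwards [ho.mem_nhds hAK] with y hy
      exact hA y (lt_of_lt_of_le hy (le_abs_self y))
    have h2 := (h.d0 ((K : ℝ) / R)).congr_of_eventuallyEq h1.symm
    exact h2.unique (hasDerivAt_const _ _)
  have hG10 : G1 0 = 0 := by
    have h1 := (h.d0 0)
    have h2 : HasDerivAt (fun x => G (-x)) (-G1 0) 0 := by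
      have h3 := (h.d0 (-0)).comp 0 (hasDerivAt_neg (0 : ℝ))
      rw [neg_zero] at h3
      exact h3.congr_deriv (by ring)
    simp only [hev] at h2
    have := h1.unique h2
    linarith
  have hGK : G (K / R) = 0 := hA _ (lt_of_lt_of_le hAK (le_abs_self _))
  -- the sum of the local rules
  have step : ∀ k : ℕ, |(∫ x in ((k : ℝ) / R)..(((k + 1 : ℕ) : ℝ) / R), G x) -
      1 / R * (G (k / R) + G (((k + 1 : ℕ) : ℝ) / R)) / 2 +
      (1 / R) ^ 2 * (G1 (((k + 1 : ℕ) : ℝ) / R) - G1 (k / R)) / 12| ≤ 2 * B * (1 / R) ^ 4 := by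
    intro k
    have h1 := trap h (k / R) (1 / R)
    have e : (k : ℝ) / R + 1 / R = ((k + 1 : ℕ) : ℝ) / R := by push_cast; ring
    rw [e] at h1
    exact h1
  have hsum := (Finset.abs_sum_le_sum_abs (fun k : ℕ => (∫ x in ((k : ℝ) / R)..(((k + 1 : ℕ) : ℝ) / R), G x) -
      1 / R * (G (k / R) + G (((k + 1 : ℕ) : ℝ) / R)) / 2 +
      (1 / R) ^ 2 * (G1 (((k + 1 : ℕ) : ℝ) / R) - G1 (k / R)) / 12) (range K)).trans
    (Finset.sum_le_sum fun k _ => step k)
  rw [Finset.sum_const, card_range, nsmul_eq_mul, Finset.sum_add_distrib,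
    Finset.sum_sub_distrib] at hsum
  have i1 : ∑ k ∈ range K, (∫ x in ((k : ℝ) / R)..(((k + 1 : ℕ) : ℝ) / R), G x) =
      ∫ x in (0 : ℝ)..((K : ℝ) / R), G x := by
    have := intervalIntegral.sum_integral_adjacent_intervals (f := G) (μ := volume)
      (a := fun k : ℕ => (k : ℝ) / R) (n := K) (fun k _ => hGc.intervalIntegrable _ _)
    simpa using this
  have i2 : ∑ k ∈ range K, (1 / R) ^ 2 * (G1 (((k + 1 : ℕ) : ℝ) / R) - G1 (k / R)) / 12 = 0 := by
    have e1 : ∀ k ∈ range K, (1 / R) ^ 2 * (G1 (((k + 1 : ℕ) : ℝ) / R) - G1 (k / R)) / 12 =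
        (1 / R) ^ 2 / 12 * (G1 (((k + 1 : ℕ) : ℝ) / R) - G1 ((k : ℕ) / R)) := by
      intro k _; ring
    rw [Finset.sum_congr rfl e1, ← Finset.mul_sum,
      Finset.sum_range_sub (fun k : ℕ => G1 ((k : ℝ) / R)), hG1K]
    simp [hG10]
  have i3 : ∑ k ∈ range K, 1 / R * (G (k / R) + G (((k + 1 : ℕ) : ℝ) / R)) / 2 =
      1 / R * (G 0 + 2 * ∑ k ∈ Icc 1 K, G (k / R)) / 2 := by
    have key : ∀ M : ℕ, ∑ k ∈ range M, 1 / R * (G (k / R) + G (((k + 1 : ℕ) : ℝ) / R)) / 2 =
        1 / R * (G 0 + 2 * ∑ k ∈ Icc 1 M, G (k / R) - G (M / R)) / 2 := by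
      intro M
      induction M with
      | zero => simp
      | succ M ih =>
        rw [Finset.sum_range_succ, ih, Finset.sum_Icc_succ_top (by omega)]
        push_cast
        ring
    rw [key K, hGK, sub_zero]
  rw [i1, i2, i3, add_zero] at hsum
  have i4 : ∫ x, G x = 2 * ∫ x in (0 : ℝ)..((K : ℝ) / R), G x := by
    have h1 := integral_comp_abs (f := G)
    have h2 : ∀ x, G |x| = G x := by
      intro x
      rcases abs_choice x with h3 | h3
      · rw [h3]
      · rw [h3, hev]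
    simp only [h2] at h1
    rw [h1, intervalIntegral.integral_of_le (by positivity)]
    congr 1
    apply setIntegral_eq_of_subset_of_forall_sdiff_eq_zero measurableSet_Ioi
      (fun x hx => hx.1)
    intro x hx
    apply hA
    have h3 : 0 < x := hx.1
    have h4 : ¬ (0 < x ∧ x ≤ (K : ℝ) / R) := hx.2
    rw [abs_of_pos h3]
    by_contra hcon
    push Not at hcon
    exact h4 ⟨h3, by linarith⟩
  rw [i4]
  set I := ∫ x in (0 : ℝ)..((K : ℝ) / R), G x
  set S := G 0 + 2 * ∑ k ∈ Icc 1 K, G (k / R)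
  have e : S - R * (2 * I) = -(2 * R) * (I - 1 / R * S / 2) := by
    field_simp
    ring
  rw [e, abs_mul, abs_neg, abs_of_pos (by positivity : (0 : ℝ) < 2 * R)]
  calc 2 * R * |I - 1 / R * S / 2| ≤ 2 * R * (K * (2 * B * (1 / R) ^ 4)) := by gcongr
    _ = _ := by field_simp; ring

end Pool.Agent.E8helper70.Dys
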