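import Pool.Agent.E8helper70.Dys.Cut2
import Pool.Agent.E8helper70.Dys.Riem
import Pool.Agent.H336R2.V.ExistsLam

/-! # The limit functional, and test functions -/

set_option autoImplicit false

open MeasureTheory Filter Topology Set
open scoped ContDiff

namespace Pool.Agent.E8helper70.Dys

/-- derivatives of a smooth compactly supported function -/
theorem exists_TF {G : ℝ → ℝ} (hs : ContDiff ℝ ∞ G) (hc : HasCompactSupport G) :
    ∃ (G1 G2 G3 G4 : ℝ → ℝ) (B : ℝ), TF G G1 G2 G3 G4 B := by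
  have h0 : ContDiff ℝ (0 + 1 + 1 + 1 + 1) G := hs.of_le (by norm_cast)
  have h1 : ContDiff ℝ (0 + 1 + 1 + 1) (deriv G) := h0.deriv'
  have h2 : ContDiff ℝ (0 + 1 + 1) (deriv (deriv G)) := h1.deriv'
  have h3 : ContDiff ℝ (0 + 1) (deriv (deriv (deriv G))) := h2.deriv'
  have h4 : ContDiff ℝ 0 (deriv (deriv (deriv (deriv G)))) := h3.deriv'
  have c1 := hc.deriv
  have c2 := c1.deriv
  have c3 := c2.deriv
  have c4 := c3.deriv
  obtain ⟨C0, b0⟩ := h0.continuous.bounded_above_of_compact_support hc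
  obtain ⟨C1, b1⟩ := h1.continuous.bounded_above_of_compact_support c1
  obtain ⟨C2, b2⟩ := h2.continuous.bounded_above_of_compact_support c2
  obtain ⟨C3, b3⟩ := h3.continuous.bounded_above_of_compact_support c3
  obtain ⟨C4, b4⟩ := h4.continuous.bounded_above_of_compact_support c4
  have p0 : 0 ≤ C0 := (norm_nonneg _).trans (b0 0)
  have p1 : 0 ≤ C1 := (norm_nonneg _).trans (b1 0)
  have p2 : 0 ≤ C2 := (norm_nonneg _).trans (b2 0)
  have p3 : 0 ≤ C3 := (norm_nonneg _).trans (b3 0)
  have p4 : 0 ≤ C4 := (norm_nonneg _).trans (b4 0)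
  have hh0 : ContDiff ℝ 4 G := hs.of_le (by norm_cast)
  refine ⟨_, _, _, _, C0 + C1 + C2 + C3 + C4,
    fun x => (h0.differentiable (by simp) x).hasDerivAt,
    fun x => (h1.differentiable (by simp) x).hasDerivAt,
    fun x => (h2.differentiable (by simp) x).hasDerivAt,
    fun x => (h3.differentiable (by simp) x).hasDerivAt, fun x => ?_, fun x => ?_, fun x => ?_,
    fun x => ?_, fun x => ?_⟩
  · have := b0 x; rw [Real.norm_eq_abs] at this; linarith
  · have := b1 x; rw [Real.norm_eq_abs] at this; linarith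
  · have := b2 x; rw [Real.norm_eq_abs] at this; linarith
  · have := b3 x; rw [Real.norm_eq_abs] at this; linarith
  · have := b4 x; rw [Real.norm_eq_abs] at this; linarith

lemma cos_int (ξ : ℝ) : ∫ x in Ioi (0 : ℝ), (1 - Real.cos (2 * Real.pi * ξ * x)) / x ^ 2 =
    Real.pi ^ 2 * |ξ| := by
  rcases eq_or_ne ξ 0 with h | h
  · subst h; simp
  have ha : 0 < |ξ| := abs_pos.2 h
  have h1 := integral_comp_mul_left_Ioi (fun w : ℝ => Real.sinc (Real.pi * w) ^ 2) 0 ha
  rw [mul_zero, smul_eq_mul, H336V.ExistsLam.integral_sinc_sq] at h1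
  have h2 : ∫ x in Ioi (0 : ℝ), (1 - Real.cos (2 * Real.pi * ξ * x)) / x ^ 2 =
      ∫ x in Ioi (0 : ℝ), 2 * Real.pi ^ 2 * |ξ| ^ 2 * Real.sinc (Real.pi * (|ξ| * x)) ^ 2 := by
    apply setIntegral_congr_fun measurableSet_Ioi
    intro x hx
    have hx0 : (0 : ℝ) < x := hx
    have hpi := Real.pi_pos
    have h3 : Real.cos (2 * Real.pi * ξ * x) = Real.cos (2 * (Real.pi * (|ξ| * x))) := by
      rcases abs_choice ξ with h4 | h4
      · rw [h4]; congr 1; ring
      · rw [h4, ← Real.cos_neg]; congr 1; ring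
    simp only
    rw [h3, Real.cos_two_mul, Real.sinc_of_ne_zero (by positivity)]
    have h5 : Real.cos (Real.pi * (|ξ| * x)) ^ 2 = 1 - Real.sin (Real.pi * (|ξ| * x)) ^ 2 := by
      have := Real.sin_sq_add_cos_sq (Real.pi * (|ξ| * x))
      linarith
    rw [h5]
    field_simp
    ring
  rw [h2, integral_const_mul, h1]
  field_simp

theorem lid {G p p1 p2 : ℝ → ℝ} (h : TD G p p1 p2) :
    2 * ∫ ξ in Ioi (0 : ℝ), ξ * p ξ =
      1 / Real.pi ^ 2 * ∫ x in Ioi (0 : ℝ), (G 0 - G x) / x ^ 2 := by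
  have hpi := Real.pi_pos
  obtain ⟨A, hA, dec⟩ := h.dec 3
  have hpc : Continuous p := continuous_iff_continuousAt.2 fun x => (h.d0 x).continuousAt
  have hI : Integrable (fun x : ℝ => 1 / (1 + x ^ 2)) := by
    simpa [div_eq_mul_inv] using integrable_inv_one_add_sq
  have hb : ∀ x : ℝ, |x| * |p x| ≤ A * (1 / (1 + x ^ 2)) := by
    intro x
    have h1 := (dec x).1
    have h2 : |x| * |p x| ≤ |x| * (A / (1 + |x|) ^ 3) := mul_le_mul_of_nonneg_left h1 (abs_nonneg _)
    refine h2.trans ?_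
    have hx := abs_nonneg x
    rw [mul_div_assoc', mul_one_div, div_le_div_iff₀ (by positivity) (by positivity), ← sq_abs x]
    have : |x| * (1 + |x| ^ 2) ≤ (1 + |x|) ^ 3 := by nlinarith [sq_nonneg (|x|)]
    nlinarith
  have hb0 : ∀ x : ℝ, |p x| ≤ A * (1 / (1 + x ^ 2)) := by
    intro x
    refine ((dec x).1).trans ?_
    have hx := abs_nonneg x
    rw [mul_one_div, div_le_div_iff₀ (by positivity) (by positivity), ← sq_abs x]
    have : (1 + |x| ^ 2) ≤ (1 + |x|) ^ 3 := by
      have : 0 ≤ |x| ^ 3 := by positivity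
      nlinarith [sq_nonneg (|x|)]
    nlinarith
  have ip : Integrable p := (hI.const_mul A).mono' hpc.aestronglyMeasurable
    (Eventually.of_forall fun x => by rw [Real.norm_eq_abs]; exact hb0 x)
  have ixp : Integrable (fun x => |x| * p x) := (hI.const_mul A).mono'
    ((continuous_abs.mul hpc).aestronglyMeasurable)
    (Eventually.of_forall fun x => by
      rw [Real.norm_eq_abs, abs_mul, abs_abs]; exact hb x)
  -- the kernel
  set F : ℝ × ℝ → ℝ := fun z => p z.2 * ((1 - Real.cos (2 * Real.pi * z.2 * z.1)) / z.1 ^ 2) with hF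
  have hFm : Measurable F := by
    have := hpc.measurable
    simp only [hF]
    fun_prop
  have hkint : ∀ ξ : ℝ, Integrable (fun x : ℝ => (1 - Real.cos (2 * Real.pi * ξ * x)) / x ^ 2) := by
    intro ξ
    refine (hI.const_mul (2 + (2 * Real.pi * ξ) ^ 2)).mono' ?_ (Eventually.of_forall fun x => ?_)
    · exact Measurable.aestronglyMeasurable (by fun_prop)
    · have h1 := Real.cos_le_one (2 * Real.pi * ξ * x)
      have h2 := Real.neg_one_le_cos (2 * Real.pi * ξ * x)
      have h3 := Real.one_sub_sq_div_two_le_cos (x := 2 * Real.pi * ξ * x)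
      rw [Real.norm_eq_abs, abs_of_nonneg (div_nonneg (by linarith) (sq_nonneg _)), mul_one_div,
        le_div_iff₀ (by positivity)]
      rcases eq_or_ne x 0 with rfl | hx
      · simp; positivity
      · have hx2 : 0 < x ^ 2 := by positivity
        rw [div_mul_eq_mul_div, div_le_iff₀ hx2]
        have h4 : 1 - Real.cos (2 * Real.pi * ξ * x) ≤ (2 * Real.pi * ξ) ^ 2 * x ^ 2 := by
          nlinarith [sq_nonneg (2 * Real.pi * ξ * x)]
        have h5 : (1 - Real.cos (2 * Real.pi * ξ * x)) * x ^ 2 ≤ 2 * x ^ 2 := by nlinarith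
        nlinarith
  have hknn : ∀ ξ x : ℝ, 0 ≤ (1 - Real.cos (2 * Real.pi * ξ * x)) / x ^ 2 := fun ξ x =>
    div_nonneg (by linarith [Real.cos_le_one (2 * Real.pi * ξ * x)]) (sq_nonneg _)
  have hFi : Integrable F ((volume.restrict (Ioi (0 : ℝ))).prod volume) := by
    rw [integrable_prod_iff' hFm.aestronglyMeasurable]
    constructor
    · refine Eventually.of_forall fun ξ => ?_
      exact ((hkint ξ).integrableOn).const_mul (p ξ)
    · have e1 : ∀ ξ : ℝ, ∫ x in Ioi (0 : ℝ), ‖F (x, ξ)‖ = Real.pi ^ 2 * (|ξ| * |p ξ|) := by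
        intro ξ
        have e2 : ∫ x in Ioi (0 : ℝ), ‖F (x, ξ)‖ =
            ∫ x in Ioi (0 : ℝ), |p ξ| * ((1 - Real.cos (2 * Real.pi * ξ * x)) / x ^ 2) := by
          congr 1
          funext x
          simp only [hF]
          rw [Real.norm_eq_abs, abs_mul, abs_of_nonneg (hknn ξ x)]
        rw [e2, integral_const_mul, cos_int]
        ring
      simp_rw [e1]
      apply Integrable.const_mul
      refine ixp.norm.congr (Eventually.of_forall fun x => ?_)
      simp only [norm_mul, Real.norm_eq_abs, abs_abs]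
  have hsw := integral_integral_swap (f := fun x ξ => F (x, ξ)) hFi
  have e1 : ∀ ξ : ℝ, ∫ x in Ioi (0 : ℝ), F (x, ξ) = Real.pi ^ 2 * (|ξ| * p ξ) := by
    intro ξ
    simp only [hF]
    rw [integral_const_mul, cos_int]
    ring
  have e2 : ∀ x : ℝ, ∫ ξ, F (x, ξ) = (G 0 - G x) / x ^ 2 := by
    intro x
    have e3 : ∀ ξ, F (x, ξ) = (p ξ * Real.cos (2 * Real.pi * ξ * 0) -
        p ξ * Real.cos (2 * Real.pi * ξ * x)) / x ^ 2 := by
      intro ξ
      simp only [hF]
      rw [mul_zero, Real.cos_zero]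
      ring
    simp_rw [e3]
    have hci : ∀ y : ℝ, Integrable (fun ξ => p ξ * Real.cos (2 * Real.pi * ξ * y)) := by
      intro y
      have := ip.bdd_mul (c := 1) (f := fun ξ => Real.cos (2 * Real.pi * ξ * y))
        (by apply Continuous.aestronglyMeasurable; fun_prop)
        (Eventually.of_forall fun t => by rw [Real.norm_eq_abs]; exact Real.abs_cos_le_one _)
      exact this.congr (Eventually.of_forall fun t => by simp [mul_comm])
    rw [integral_div, integral_sub (hci 0) (hci x), ← h.inv, ← h.inv]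
  simp_rw [e1, e2] at hsw
  rw [hsw, integral_const_mul]
  have h4 := integral_comp_abs (f := fun ξ => ξ * p ξ)
  have h5 : ∀ t : ℝ, |t| * p |t| = |t| * p t := by
    intro t
    rcases abs_choice t with h6 | h6
    · rw [h6]
    · nth_rewrite 2 [h6]
      rw [h.ev]
  simp only [h5] at h4
  rw [h4]
  field_simp

end Pool.Agent.E8helper70.Dys
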