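import Pool.Agent.R320.KL.Mza
import Pool.Agent.Y743.NC.Block
import Pool.Agent.Y743.LR.NX
import Pool.Agent.Y747.Blk
import Pool.Agent.E8helper70.Dys.Dyad

/-! # Tails of the displacements of the zeta zeros -/

set_option autoImplicit false

open Filter Topology

namespace Pool.Agent.E8helper70.Dys

open SG (ord NZ)
open SP (RHs)
open LG (dlt)
open Pool.Agent.Y743.LR (yv dif dif_yv dif_nonneg ord_step)
open Pool.Agent.R320.KL (WW momC)

lemma yv_mono {V : ℝ} (hV : 1 ≤ V) {n m : ℕ} (hn : 1 ≤ n) (h : n ≤ m) : yv V n ≤ yv V m := by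
  unfold Pool.Agent.Y743.LR.yv
  have := SG.ord_mono hn h
  have h0 := Real.log_nonneg hV
  have hpi := Real.pi_pos
  exact mul_le_mul_of_nonneg_right this (by positivity)

lemma NZ_lt {n : ℕ} (hn : 1 ≤ n) {x : ℝ} (h : x < ord n) : NZ x < n := by
  by_contra hcon
  push Not at hcon
  have := (SG.ord_le_iff hn _).mpr hcon
  linarith

/-- a large displacement gives a large deviation of a count -/
lemma tail_pt {V T lam : ℝ} (hV : 1 < V) (hT : 1 < T) (hlam : lam = Real.log T / Real.log V)
    (hl1 : 1 ≤ lam) {n k : ℕ} (hn : 1 ≤ n) {t : ℝ} (ht : 2 ≤ t)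
    (hsm : (lam - 1) * (k + 1) ≤ 1) (hu : t < |uu (yv V) k n|) :
    (t / 2) ^ 4 ≤ WW T 0 (lam * (k + t)) n ^ 4 + WW T (-lam) (lam * max (k - t) (-1)) n ^ 4 := by
  have hpi := Real.pi_pos
  have hLV : 0 < Real.log V := Real.log_pos hV
  have hLT : 0 < Real.log T := Real.log_pos hT
  have hk0 : (0 : ℝ) ≤ k := Nat.cast_nonneg k
  have hscale : ∀ y : ℝ, lam * y * (2 * Real.pi / Real.log T) = y * (2 * Real.pi / Real.log V) := by
    intro y
    rw [hlam]
    field_simp
  have hnn : n ≤ NZ (ord n) := (SG.ord_le_iff hn _).mp le_rfl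
  have p4 : ∀ x : ℝ, t / 2 ≤ |x| → (t / 2) ^ 4 ≤ x ^ 4 := by
    intro x hx
    calc (t / 2) ^ 4 ≤ |x| ^ 4 := pow_le_pow_left₀ (by linarith) hx 4
      _ = x ^ 4 := by
        rw [show (4 : ℕ) = 2 * 2 by norm_num, pow_mul, pow_mul, sq_abs]
  have q1 : 0 ≤ WW T 0 (lam * (k + t)) n ^ 4 := by positivity
  have q2 : 0 ≤ WW T (-lam) (lam * max (k - t) (-1)) n ^ 4 := by positivity
  have hud : uu (yv V) k n = (ord (n + k) - ord n) * (Real.log V / (2 * Real.pi)) - k := by
    unfold uu Pool.Agent.Y743.LR.yv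
    ring
  rcases lt_abs.mp hu with h | h
  · -- large positive displacement
    rw [hud] at h
    have h1 : ord n + (k + t) * (2 * Real.pi / Real.log V) < ord (n + k) := by
      have h2 : (k + t) < (ord (n + k) - ord n) * (Real.log V / (2 * Real.pi)) := by linarith
      have h3 : (k + t) * (2 * Real.pi / Real.log V) <
          (ord (n + k) - ord n) * (Real.log V / (2 * Real.pi)) * (2 * Real.pi / Real.log V) :=
        mul_lt_mul_of_pos_right h2 (by positivity)
      have h4 : (ord (n + k) - ord n) * (Real.log V / (2 * Real.pi)) * (2 * Real.pi / Real.log V) =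
          ord (n + k) - ord n := by field_simp
      linarith
    have h5 := NZ_lt (by omega : 1 ≤ n + k) h1
    have h6 : WW T 0 (lam * (k + t)) n ≤ -t := by
      unfold Pool.Agent.R320.KL.WW
      rw [hscale, zero_mul, add_zero, sub_zero]
      have h7 : (NZ (ord n + (k + t) * (2 * Real.pi / Real.log V)) : ℝ) ≤ n + k := by
        exact_mod_cast h5.le
      have h8 : (n : ℝ) ≤ NZ (ord n) := by exact_mod_cast hnn
      have h9 : (k : ℝ) + t ≤ lam * (k + t) := by nlinarith
      linarith
    have h10 := p4 (WW T 0 (lam * (k + t)) n) (by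
      rw [le_abs]; right; linarith)
    linarith
  · -- large negative displacement
    rw [hud] at h
    have hmo : 0 ≤ (ord (n + k) - ord n) * (Real.log V / (2 * Real.pi)) := by
      have := SG.ord_mono hn (Nat.le_add_right n k)
      exact mul_nonneg (by linarith) (by positivity)
    have htk : t < k := by linarith
    have h1 : ord (n + k) ≤ ord n + (k - t) * (2 * Real.pi / Real.log V) := by
      have h2 : (ord (n + k) - ord n) * (Real.log V / (2 * Real.pi)) ≤ (k - t) := by linarith
      have h3 : (ord (n + k) - ord n) * (Real.log V / (2 * Real.pi)) * (2 * Real.pi / Real.log V) ≤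
          (k - t) * (2 * Real.pi / Real.log V) :=
        mul_le_mul_of_nonneg_right h2 (by positivity)
      have h4 : (ord (n + k) - ord n) * (Real.log V / (2 * Real.pi)) * (2 * Real.pi / Real.log V) =
          ord (n + k) - ord n := by field_simp
      linarith
    have h5 := (SG.ord_le_iff (by omega : 1 ≤ n + k) _).mp h1
    have h6 := NZ_lt hn (x := ord n + -1 * (2 * Real.pi / Real.log V)) (by
      have : 0 < 2 * Real.pi / Real.log V := by positivity
      linarith)
    have hmax : max ((k : ℝ) - t) (-1) = k - t := max_eq_left (by linarith)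
    have h7 : t / 2 ≤ WW T (-lam) (lam * max (k - t) (-1)) n := by
      rw [hmax]
      unfold Pool.Agent.R320.KL.WW
      have e : -lam * (2 * Real.pi / Real.log T) = -1 * (2 * Real.pi / Real.log V) := by
        rw [← hscale]; ring
      rw [hscale, e]
      have h8 : (n : ℝ) + k ≤ NZ (ord n + (k - t) * (2 * Real.pi / Real.log V)) := by
        exact_mod_cast h5
      have h9 : (NZ (ord n + -1 * (2 * Real.pi / Real.log V)) : ℝ) + 1 ≤ n := by
        exact_mod_cast h6
      have h10 : lam * (k - t) - -lam = (k - t + 1) + (lam - 1) * (k - t + 1) := by ring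
      rw [h10]
      have h11 : (lam - 1) * (k - t + 1) ≤ (lam - 1) * (k + 1) :=
        mul_le_mul_of_nonneg_left (by linarith) (by linarith)
      linarith
    have h12 := p4 (WW T (-lam) (lam * max (k - t) (-1)) n) (h7.trans (le_abs_self _))
    linarith

/-- **tails of the displacements** -/
theorem tails (hRH : RHs) : ∃ C : ℝ, 1 ≤ C ∧ ∀ (k : ℕ) (t : ℝ), 1 ≤ t → ∃ V0 : ℝ, 10 ≤ V0 ∧
    ∀ V : ℝ, V0 ≤ V → ∀ I : Finset ℕ, (∀ n ∈ I, 1 ≤ n ∧ n ≤ NZ (2 * V)) →
      ((I.filter fun n => t < |uu (yv V) k n|).card : ℝ) ≤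
        C * (1 + Real.log (2 + k + t)) ^ 2 / t ^ 4 * (V * Real.log V) := by
  obtain ⟨C, hC, hm⟩ := momC hRH 1 1 le_rfl
  obtain ⟨C3, T3, hC3, hT3, hup⟩ := LG.GapAux.NZ_up
  obtain ⟨M0, hM0⟩ := hm.exists_forall_of_atTop
  refine ⟨512 * C + 16 * C3 + 1, by linarith, fun k t ht => ?_⟩
  have hk0 : (0 : ℝ) ≤ k := Nat.cast_nonneg k
  have hlk : 0 ≤ Real.log (2 + k + t) := Real.log_nonneg (by linarith)
  have h1l : (1 : ℝ) ≤ (1 + Real.log (2 + k + t)) ^ 2 := one_le_pow₀ (by linarith)
  rcases lt_or_ge t 2 with ht2 | ht2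
  · -- trivial bound
    refine ⟨max 10 T3, le_max_left _ _, fun V hV I hI => ?_⟩
    have hV10 : 10 ≤ V := (le_max_left _ _).trans hV
    have hlV : 0 < Real.log V := Real.log_pos (by linarith)
    have h1 : (I.filter fun n => t < |uu (yv V) k n|).card ≤ NZ (2 * V) := by
      have h2 : (I.filter fun n => t < |uu (yv V) k n|) ⊆ Finset.Icc 1 (NZ (2 * V)) := by
        intro n hn
        rw [Finset.mem_filter] at hn
        exact Finset.mem_Icc.mpr (hI n hn.1)
      have h3 := Finset.card_le_card h2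
      rw [Nat.card_Icc] at h3
      omega
    have h2 : ((I.filter fun n => t < |uu (yv V) k n|).card : ℝ) ≤ NZ (2 * V) := by
      exact_mod_cast h1
    refine h2.trans ((hup V ((le_max_right _ _).trans hV)).trans ?_)
    apply mul_le_mul_of_nonneg_right _ (by positivity)
    rw [le_div_iff₀ (by positivity)]
    have h3 : t ^ 4 ≤ 16 := by
      calc t ^ 4 ≤ 2 ^ 4 := pow_le_pow_left₀ (by linarith) ht2.le 4
        _ = 16 := by norm_num
    calc C3 * t ^ 4 ≤ 16 * C3 := by nlinarith
      _ ≤ (512 * C + 16 * C3 + 1) * 1 := by linarith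
      _ ≤ _ := mul_le_mul_of_nonneg_left h1l (by positivity)
  · obtain ⟨M, hM⟩ : ∃ M : ℕ, M = max M0 ⌈2 * ((k : ℝ) + t + 1)⌉₊ := ⟨_, rfl⟩
    have hMM0 : M0 ≤ M := by rw [hM]; exact le_max_left _ _
    have hMk : 2 * ((k : ℝ) + t + 1) ≤ M := by
      rw [hM]
      refine (Nat.le_ceil _).trans ?_
      exact_mod_cast le_max_right _ _
    have ev : ∀ᶠ V : ℝ in atTop, max (((2 * M : ℕ) : ℝ) * Real.log (2 * M : ℕ)) (k + 1) ≤
        Real.log V := Real.tendsto_log_atTop.eventually_ge_atTop _
    obtain ⟨V1, hV1⟩ := ev.exists_forall_of_atTop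
    refine ⟨max 10 V1, le_max_left _ _, fun V hV I hI => ?_⟩
    have hV10 : 10 ≤ V := (le_max_left _ _).trans hV
    have hlV0 : 0 < Real.log V := Real.log_pos (by linarith)
    have hl := hV1 V ((le_max_right _ _).trans hV)
    have hl1 := (le_max_left _ _).trans hl
    have hl2 := (le_max_right _ _).trans hl
    have hlVT : Real.log V ≤ Real.log (2 * V) := Real.log_le_log (by linarith) (by linarith)
    have hlog2 : Real.log (2 * V) = Real.log 2 + Real.log V := Real.log_mul (by norm_num) (by linarith)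
    have hl20 : 0 < Real.log 2 := Real.log_pos (by norm_num)
    have hl21 : Real.log 2 < 1 := by
      have := Real.log_two_lt_d9
      linarith
    have hlV1 : 1 ≤ Real.log V := by linarith
    obtain ⟨lam, hlam⟩ : ∃ lam : ℝ, lam = Real.log (2 * V) / Real.log V := ⟨_, rfl⟩
    have hlam1 : 1 ≤ lam := by rw [hlam, le_div_iff₀ hlV0]; linarith
    have hlam2 : lam ≤ 2 := by rw [hlam, div_le_iff₀ hlV0]; linarith
    have hlamk : (lam - 1) * (k + 1) ≤ 1 := by
      have e : lam - 1 = Real.log 2 / Real.log V := by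
        rw [hlam, hlog2]; field_simp; ring
      rw [e, div_mul_eq_mul_div, div_le_one hlV0]
      nlinarith
    have key : ∀ x y : ℝ, |x| ≤ M → |y| ≤ M → x ≤ y → y - x ≤ 2 * (k + t + 1) →
        ∑ n ∈ Finset.Icc 1 (NZ (2 * V)), WW (2 * V) x y n ^ 4 ≤
          16 * C * (1 + Real.log (2 + k + t)) ^ 2 * (V * Real.log V) := by
      intro x y hx hy hxy hyx
      have h1 := hM0 M hMM0 (2 * V) (by linarith) (by rw [one_mul]; linarith) x y hx hy hxy
      have e4 : 2 * 2 ^ 1 = 4 := by norm_num
      rw [e4, pow_one] at h1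
      refine h1.trans ?_
      have h2 : 1 + Real.log (2 + (y - x)) ≤ 2 * (1 + Real.log (2 + k + t)) := by
        have h3 : Real.log (2 + (y - x)) ≤ Real.log (2 * (2 + k + t)) :=
          Real.log_le_log (by linarith) (by linarith)
        rw [Real.log_mul (by norm_num) (by positivity)] at h3
        linarith
      have h0 : 0 ≤ 1 + Real.log (2 + (y - x)) := by
        have : 0 ≤ Real.log (2 + (y - x)) := Real.log_nonneg (by linarith)
        linarith
      have h4 : (1 + Real.log (2 + (y - x))) ^ 2 ≤ (2 * (1 + Real.log (2 + k + t))) ^ 2 :=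
        pow_le_pow_left₀ h0 h2 2
      have h5 : 2 * V * Real.log (2 * V) ≤ 4 * (V * Real.log V) := by
        have : Real.log (2 * V) ≤ 2 * Real.log V := by linarith
        nlinarith
      have h6 : 0 ≤ 2 * V * Real.log (2 * V) := mul_nonneg (by linarith) (by linarith)
      calc C * (1 + Real.log (2 + (y - x))) ^ 2 * (2 * V * Real.log (2 * V)) ≤
          C * (2 * (1 + Real.log (2 + k + t))) ^ 2 * (4 * (V * Real.log V)) := by gcongr
        _ = _ := by ring
    have hA := key 0 (lam * (k + t)) (by rw [abs_zero]; positivity)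
      (by rw [abs_of_nonneg (by positivity)]; nlinarith) (by positivity) (by nlinarith)
    have hmx1 : (-1 : ℝ) ≤ max ((k : ℝ) - t) (-1) := le_max_right _ _
    have hmx2 : max ((k : ℝ) - t) (-1) ≤ k := max_le (by linarith) (by linarith)
    have hB := key (-lam) (lam * max (k - t) (-1)) (by rw [abs_neg, abs_of_nonneg (by linarith)]; linarith)
      (by rw [abs_le]; constructor <;> nlinarith) (by nlinarith) (by nlinarith)
    -- counting
    obtain ⟨S, hS⟩ : ∃ S : Finset ℕ, S = I.filter fun n => t < |uu (yv V) k n| := ⟨_, rfl⟩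
    rw [← hS]
    have hSsub : S ⊆ Finset.Icc 1 (NZ (2 * V)) := by
      intro n hn
      rw [hS, Finset.mem_filter] at hn
      exact Finset.mem_Icc.mpr (hI n hn.1)
    have h1 : (S.card : ℝ) * (t / 2) ^ 4 ≤ ∑ n ∈ Finset.Icc 1 (NZ (2 * V)),
        (WW (2 * V) 0 (lam * (k + t)) n ^ 4 + WW (2 * V) (-lam) (lam * max (k - t) (-1)) n ^ 4) := by
      calc (S.card : ℝ) * (t / 2) ^ 4 = ∑ _n ∈ S, (t / 2) ^ 4 := by
            rw [Finset.sum_const, nsmul_eq_mul]
        _ ≤ ∑ n ∈ S, (WW (2 * V) 0 (lam * (k + t)) n ^ 4 +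
            WW (2 * V) (-lam) (lam * max (k - t) (-1)) n ^ 4) := by
            refine Finset.sum_le_sum fun n hn => ?_
            rw [hS, Finset.mem_filter] at hn
            exact tail_pt (by linarith) (by linarith) hlam hlam1 (hI n hn.1).1 ht2 hlamk hn.2
        _ ≤ _ := Finset.sum_le_sum_of_subset_of_nonneg hSsub fun n _ _ => by positivity
    rw [Finset.sum_add_distrib] at h1
    have h2 : (S.card : ℝ) * t ^ 4 ≤ 512 * C * (1 + Real.log (2 + k + t)) ^ 2 * (V * Real.log V) := by
      have e : (t / 2) ^ 4 = t ^ 4 / 16 := by ring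
      rw [e] at h1
      linarith
    have h3 : (S.card : ℝ) ≤ 512 * C * (1 + Real.log (2 + k + t)) ^ 2 * (V * Real.log V) / t ^ 4 := by
      rw [le_div_iff₀ (by positivity)]
      exact h2
    refine h3.trans ?_
    have h4 : 512 * C * (1 + Real.log (2 + k + t)) ^ 2 * (V * Real.log V) / t ^ 4 =
        512 * C * ((1 + Real.log (2 + k + t)) ^ 2 / t ^ 4 * (V * Real.log V)) := by ring
    have h5 : (512 * C + 16 * C3 + 1) * (1 + Real.log (2 + k + t)) ^ 2 / t ^ 4 * (V * Real.log V) =
        (512 * C + 16 * C3 + 1) * ((1 + Real.log (2 + k + t)) ^ 2 / t ^ 4 * (V * Real.log V)) := by ring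
    rw [h4, h5]
    apply mul_le_mul_of_nonneg_right _ (by positivity)
    linarith

end Pool.Agent.E8helper70.Dys
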