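import Pool.Agent.E8helper70.Dys.Mom1

/-! # Moments of the displacements of the zeta zeros, in blocks -/

set_option autoImplicit false

open Filter Topology

namespace Pool.Agent.E8helper70.Dys

open SG (ord NZ)
open SP (RHs)
open LG (dlt)
open Pool.Agent.Y743.LR (yv dif dif_yv dif_nonneg ord_step good_ev gam_cube gam_le dlt_close Good abs_cube)
open Pool.Agent.Y743.NC (ff ff_eq inner pow3_sum sum_shift)
open Pool.Agent.R320.KL (WW momC)
open Pool.Agent.Y747 (Bx mem_Bx)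
open Pool.Agent.TH873.EW (XV)

lemma Bx_pos {V : ℝ} (hV : 10 ≤ V) {n : ℕ} (hn : n ∈ Bx V) : NZ V < n ∧ n ≤ NZ (2 * V) := by
  rw [mem_Bx] at hn
  obtain ⟨a1, a2, a3⟩ := hn
  constructor
  · exact NZ_lt a1 (by linarith)
  · exact (SG.ord_le_iff a1 _).mp (by linarith)

lemma dif_xx (V : ℝ) (n : ℕ) : dif (yv V) n = xx (yv V) n + 1 := by
  unfold xx Pool.Agent.Y743.LR.dif
  ring

/-- **the truncated cubes** -/
theorem ph_blk (hRH : RHs) : ∃ C : ℝ, 1 ≤ C ∧ ∀ (k : ℕ) (R : ℝ), 1 ≤ k → 1 ≤ R → ∃ V0 : ℝ,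
    10 ≤ V0 ∧ ∀ V : ℝ, V0 ≤ V → ∑ n ∈ Bx V, Ph R (uu (yv V) k n) ≤
      C * (1 + Real.log (2 + k)) ^ 2 / R * (V * Real.log V) := by
  obtain ⟨κ, D, C, hκ, hκ1, hD, hC, hg⟩ := good_ev
  obtain ⟨C', hC', hcube⟩ := gam_cube (D := D) hRH hκ hC
  obtain ⟨C1, hC1, htail⟩ := tails hRH
  refine ⟨178 * (C1 + C + C'), by nlinarith, fun k R hk hR => ?_⟩
  have hk1 : (1 : ℝ) ≤ k := by exact_mod_cast hk
  obtain ⟨J, hJ⟩ := pow_unbounded_of_one_lt (R * (k : ℝ) ^ 3) (by norm_num : (1 : ℝ) < 2)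
  have hT := fun j : ℕ => htail k (2 ^ j) (one_le_pow₀ (by norm_num))
  choose Tj hTj1 hTj using hT
  obtain ⟨Tg, hTg, hgood⟩ := hg k
  set Tm : ℝ := ∑ j ∈ Finset.range J, Tj j with hTm
  have hTjm : ∀ j < J, Tj j ≤ Tm := fun j hj =>
    Finset.single_le_sum (f := Tj) (fun i _ => by linarith [hTj1 i]) (Finset.mem_range.mpr hj)
  refine ⟨max (max Tg Tm) 10, le_max_right _ _, fun V hV => ?_⟩
  have hVg : Tg ≤ V := ((le_max_left _ _).trans (le_max_left _ _)).trans hV
  have hVm : Tm ≤ V := ((le_max_right _ _).trans (le_max_left _ _)).trans hV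
  have hV10 : 10 ≤ V := (le_max_right _ _).trans hV
  have hgV := hgood V hVg
  have hlV : 0 < Real.log V := Real.log_pos (by linarith)
  have hY : 0 < V * Real.log V := by positivity
  have h23 : NZ (2 * V) ≤ NZ (3 * V) := SG.NZ_mono (by linarith)
  have hcard : ((Bx V).card : ℝ) ≤ C * (V * Real.log V) := by
    have h1 : Bx V ⊆ Finset.Ioc (NZ V) (NZ (2 * V)) := fun n hn =>
      Finset.mem_Ioc.mpr (Bx_pos hV10 hn)
    have h2 := Finset.card_le_card h1
    rw [Nat.card_Ioc] at h2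
    have h3 : (Bx V).card ≤ NZ (3 * V) := by omega
    have h4 : ((Bx V).card : ℝ) ≤ NZ (3 * V) := by exact_mod_cast h3
    have h5 := hgV.card
    have : (0 : ℝ) ≤ k := by linarith
    linarith
  have hcub : ∑ n ∈ Bx V, |uu (yv V) k n| ^ 3 ≤ (k : ℝ) ^ 3 * ((C1 + C + C') * (V * Real.log V)) := by
    have h1 : ∀ n ∈ Bx V, |uu (yv V) k n| ^ 3 ≤
        (k : ℝ) ^ 2 * ∑ j ∈ Finset.range k, dif (yv V) (n + j) ^ 3 + (k : ℝ) ^ 3 := by
      intro n hn
      have h0 : ∀ j, 0 ≤ dif (yv V) (n + j) := fun j =>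
        dif_nonneg (by linarith) (by have := (mem_Bx.mp hn).1; omega)
      have e : uu (yv V) k n = ∑ j ∈ Finset.range k, dif (yv V) (n + j) - k := by
        have := ff_eq V k n
        unfold Pool.Agent.Y743.NC.ff at this
        exact this
      rw [e]
      refine (abs_cube (Finset.sum_nonneg fun j _ => h0 j) (by linarith)).trans ?_
      have := pow3_sum k (fun j => dif (yv V) (n + j)) h0
      linarith
    refine (Finset.sum_le_sum h1).trans ?_
    rw [Finset.sum_add_distrib, Finset.sum_const, nsmul_eq_mul, ← Finset.mul_sum, Finset.sum_comm]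
    have h2 : ∀ j ∈ Finset.range k, ∑ n ∈ Bx V, dif (yv V) (n + j) ^ 3 ≤ C' * (V * Real.log V) := by
      intro j hj
      rw [Finset.mem_range] at hj
      rw [sum_shift (Bx V) j (fun m => dif (yv V) m ^ 3)]
      refine hcube k V hgV _ fun m hm => ?_
      rw [Finset.mem_image] at hm
      obtain ⟨n, hn, rfl⟩ := hm
      have := Bx_pos hV10 hn
      omega
    have h3 := Finset.sum_le_sum h2
    rw [Finset.sum_const, Finset.card_range, nsmul_eq_mul] at h3
    have h4 : (k : ℝ) ^ 2 * ∑ j ∈ Finset.range k, ∑ n ∈ Bx V, dif (yv V) (n + j) ^ 3 ≤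
        (k : ℝ) ^ 2 * (k * (C' * (V * Real.log V))) :=
      mul_le_mul_of_nonneg_left h3 (by positivity)
    have h5 : ((Bx V).card : ℝ) * (k : ℝ) ^ 3 ≤ C * (V * Real.log V) * (k : ℝ) ^ 3 :=
      mul_le_mul_of_nonneg_right hcard (by positivity)
    have h6 : 0 ≤ (k : ℝ) ^ 3 * (C1 * (V * Real.log V)) := by positivity
    calc _ ≤ (k : ℝ) ^ 2 * (k * (C' * (V * Real.log V))) + C * (V * Real.log V) * (k : ℝ) ^ 3 :=
          add_le_add h4 h5
      _ ≤ _ := by nlinarith
  exact Ph_sum (Bx V) (fun n => uu (yv V) k n) k J hR (by positivity) hY.le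
    (hcard.trans (by nlinarith)) hcub hJ.le (fun j hj => by
      have h1 := hTj j V ((hTjm j hj).trans hVm) (Bx V) (fun n hn =>
        ⟨(mem_Bx.mp hn).1, (Bx_pos hV10 hn).2⟩)
      refine h1.trans ?_
      have e : ((2 : ℝ) ^ j) ^ 4 = 16 ^ j := by
        rw [← pow_mul, mul_comm, pow_mul]; norm_num
      rw [e]
      apply mul_le_mul_of_nonneg_right _ hY.le
      apply div_le_div_of_nonneg_right _ (by positivity)
      apply mul_le_mul_of_nonneg_right _ (sq_nonneg _)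
      linarith)

/-- the number of far pairs at a small distance: one index -/
lemma far_pt {V T lam : ℝ} (hV : 1 < V) (hT : 1 < T) (hlam : lam = Real.log T / Real.log V)
    {n K N2 : ℕ} (hn : 1 ≤ n) {Q : ℝ} (hQ : 1 ≤ Q) (hsm : (lam - 1) * (Q + 1) ≤ 1)
    (hK : 4 * Q + 2 ≤ K) :
    (((Finset.Ioc (n + K) N2).filter fun m => |yv V m - yv V n| ≤ Q).card : ℝ) ≤
      WW T (-lam) (lam * Q) n ^ 4 / Q ^ 3 := by
  have hpi := Real.pi_pos
  have hLV : 0 < Real.log V := Real.log_pos hV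
  have hLT : 0 < Real.log T := Real.log_pos hT
  have hscale : ∀ y : ℝ, lam * y * (2 * Real.pi / Real.log T) = y * (2 * Real.pi / Real.log V) := by
    intro y
    rw [hlam]
    field_simp
  set S := (Finset.Ioc (n + K) N2).filter fun m => |yv V m - yv V n| ≤ Q with hS
  rcases S.eq_empty_or_nonempty with h0 | h0
  · rw [h0]
    simp only [Finset.card_empty, Nat.cast_zero]
    positivity
  · obtain ⟨m, hm, hmax⟩ : ∃ m ∈ S, ∀ x ∈ S, x ≤ m := ⟨S.max' h0, S.max'_mem h0, fun x hx => S.le_max' x hx⟩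
    have hm' := hm
    rw [hS, Finset.mem_filter, Finset.mem_Ioc] at hm'
    have hc : S.card ≤ m - (n + K) := by
      have h1 : S ⊆ Finset.Ioc (n + K) m := by
        intro x hx
        have h2 := hmax x hx
        rw [hS, Finset.mem_filter, Finset.mem_Ioc] at hx
        exact Finset.mem_Ioc.mpr ⟨hx.1.1, h2⟩
      have h3 := Finset.card_le_card h1
      rwa [Nat.card_Ioc] at h3
    have hcr : (S.card : ℝ) + n + K ≤ m := by
      have : S.card + n + K ≤ m := by omega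
      exact_mod_cast this
    have h1 : ord m ≤ ord n + Q * (2 * Real.pi / Real.log V) := by
      have h2 := (abs_le.mp hm'.2).2
      have e : yv V m - yv V n = (ord m - ord n) * (Real.log V / (2 * Real.pi)) := by
        unfold Pool.Agent.Y743.LR.yv; ring
      rw [e] at h2
      have h3 : (ord m - ord n) * (Real.log V / (2 * Real.pi)) * (2 * Real.pi / Real.log V) ≤
          Q * (2 * Real.pi / Real.log V) :=
        mul_le_mul_of_nonneg_right h2 (by positivity)
      have h4 : (ord m - ord n) * (Real.log V / (2 * Real.pi)) * (2 * Real.pi / Real.log V) =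
          ord m - ord n := by field_simp
      linarith
    have h5 := (SG.ord_le_iff (by omega : 1 ≤ m) _).mp h1
    have h6 := NZ_lt hn (x := ord n + -1 * (2 * Real.pi / Real.log V)) (by
      have : 0 < 2 * Real.pi / Real.log V := by positivity
      linarith)
    have h7 : (S.card : ℝ) + Q ≤ WW T (-lam) (lam * Q) n := by
      unfold Pool.Agent.R320.KL.WW
      have e : -lam * (2 * Real.pi / Real.log T) = -1 * (2 * Real.pi / Real.log V) := by
        rw [← hscale]; ring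
      rw [hscale, e]
      have h8 : (m : ℝ) ≤ NZ (ord n + Q * (2 * Real.pi / Real.log V)) := by exact_mod_cast h5
      have h9 : (NZ (ord n + -1 * (2 * Real.pi / Real.log V)) : ℝ) + 1 ≤ n := by exact_mod_cast h6
      have h10 : lam * Q - -lam = (Q + 1) + (lam - 1) * (Q + 1) := by ring
      rw [h10]
      linarith
    set w := WW T (-lam) (lam * Q) n with hw
    have hc0 : (0 : ℝ) ≤ S.card := Nat.cast_nonneg _
    rw [le_div_iff₀ (by positivity)]
    have h11 : (S.card : ℝ) ≤ w := by linarith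
    have h12 : Q ≤ w := by linarith
    calc (S.card : ℝ) * Q ^ 3 ≤ w * w ^ 3 :=
          mul_le_mul h11 (pow_le_pow_left₀ (by linarith) h12 3) (by positivity) (by linarith)
      _ = w ^ 4 := by ring

/-- **the number of far pairs at a small distance** -/
theorem far (hRH : RHs) : ∃ C : ℝ, 1 ≤ C ∧ ∀ (Q : ℝ) (K : ℕ), 1 ≤ Q → 4 * Q + 2 ≤ K → ∃ V0 : ℝ,
    10 ≤ V0 ∧ ∀ V : ℝ, V0 ≤ V → ∀ N2 : ℕ,
      ∑ n ∈ Bx V, (((Finset.Ioc (n + K) N2).filter fun m => |yv V m - yv V n| ≤ Q).card : ℝ) ≤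
        C * (1 + Real.log (2 + Q)) ^ 2 / Q ^ 3 * (V * Real.log V) := by
  obtain ⟨C, hC, hm⟩ := momC hRH 1 1 le_rfl
  obtain ⟨M0, hM0⟩ := hm.exists_forall_of_atTop
  refine ⟨16 * C + 1, by linarith, fun Q K hQ hK => ?_⟩
  have hlk : 0 ≤ Real.log (2 + Q) := Real.log_nonneg (by linarith)
  obtain ⟨M, hM⟩ : ∃ M : ℕ, M = max M0 ⌈2 * (Q + 1)⌉₊ := ⟨_, rfl⟩
  have hMM0 : M0 ≤ M := by rw [hM]; exact le_max_left _ _
  have hMk : 2 * (Q + 1) ≤ M := by
    rw [hM]
    refine (Nat.le_ceil _).trans ?_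
    exact_mod_cast le_max_right _ _
  have ev : ∀ᶠ V : ℝ in atTop, max (((2 * M : ℕ) : ℝ) * Real.log (2 * M : ℕ)) (Q + 1) ≤
      Real.log V := Real.tendsto_log_atTop.eventually_ge_atTop _
  obtain ⟨V1, hV1⟩ := ev.exists_forall_of_atTop
  refine ⟨max 10 V1, le_max_left _ _, fun V hV N2 => ?_⟩
  have hV10 : 10 ≤ V := (le_max_left _ _).trans hV
  have hlV0 : 0 < Real.log V := Real.log_pos (by linarith)
  have hl := hV1 V ((le_max_right _ _).trans hV)
  have hl1 := (le_max_left _ _).trans hl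
  have hl2 := (le_max_right _ _).trans hl
  have hlVT : Real.log V ≤ Real.log (2 * V) := Real.log_le_log (by linarith) (by linarith)
  have hlog2 : Real.log (2 * V) = Real.log 2 + Real.log V := Real.log_mul (by norm_num) (by linarith)
  have hl20 : 0 < Real.log 2 := Real.log_pos (by norm_num)
  have hl21 : Real.log 2 < 1 := by
    have := Real.log_two_lt_d9
    linarith
  have hlV1 : 1 ≤ Real.log V := by linarith
  obtain ⟨lam, hlam⟩ : ∃ lam : ℝ, lam = Real.log (2 * V) / Real.log V := ⟨_, rfl⟩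
  have hlam1 : 1 ≤ lam := by rw [hlam, le_div_iff₀ hlV0]; linarith
  have hlam2 : lam ≤ 2 := by rw [hlam, div_le_iff₀ hlV0]; linarith
  have hlamk : (lam - 1) * (Q + 1) ≤ 1 := by
    have e : lam - 1 = Real.log 2 / Real.log V := by
      rw [hlam, hlog2]; field_simp; ring
    rw [e, div_mul_eq_mul_div, div_le_one hlV0]
    nlinarith
  have h1 := hM0 M hMM0 (2 * V) (by linarith) (by rw [one_mul]; linarith) (-lam) (lam * Q)
    (by rw [abs_neg, abs_of_nonneg (by linarith)]; linarith)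
    (by rw [abs_of_nonneg (by positivity)]; nlinarith) (by nlinarith)
  have e4 : 2 * 2 ^ 1 = 4 := by norm_num
  rw [e4, pow_one] at h1
  have h2 : 1 + Real.log (2 + (lam * Q - -lam)) ≤ 2 * (1 + Real.log (2 + Q)) := by
    have h3 : Real.log (2 + (lam * Q - -lam)) ≤ Real.log (2 * (2 + Q)) :=
      Real.log_le_log (by nlinarith) (by nlinarith)
    rw [Real.log_mul (by norm_num) (by positivity)] at h3
    linarith
  have h0 : 0 ≤ 1 + Real.log (2 + (lam * Q - -lam)) := by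
    have : 0 ≤ Real.log (2 + (lam * Q - -lam)) := Real.log_nonneg (by nlinarith)
    linarith
  have h4 : (1 + Real.log (2 + (lam * Q - -lam))) ^ 2 ≤ (2 * (1 + Real.log (2 + Q))) ^ 2 :=
    pow_le_pow_left₀ h0 h2 2
  have h5 : 2 * V * Real.log (2 * V) ≤ 4 * (V * Real.log V) := by
    have : Real.log (2 * V) ≤ 2 * Real.log V := by linarith
    nlinarith
  have h6 : ∑ n ∈ Finset.Icc 1 (NZ (2 * V)), WW (2 * V) (-lam) (lam * Q) n ^ 4 ≤
      16 * C * (1 + Real.log (2 + Q)) ^ 2 * (V * Real.log V) := by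
    refine h1.trans ?_
    have h6 : 0 ≤ 2 * V * Real.log (2 * V) := mul_nonneg (by linarith) (by linarith)
    calc _ ≤ C * (2 * (1 + Real.log (2 + Q))) ^ 2 * (4 * (V * Real.log V)) := by gcongr
      _ = _ := by ring
  have h7 : ∑ n ∈ Bx V, (((Finset.Ioc (n + K) N2).filter fun m => |yv V m - yv V n| ≤ Q).card : ℝ) ≤
      ∑ n ∈ Bx V, WW (2 * V) (-lam) (lam * Q) n ^ 4 / Q ^ 3 :=
    Finset.sum_le_sum fun n hn => far_pt (by linarith) (by linarith) hlam (mem_Bx.mp hn).1 hQ hlamk hK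
  refine h7.trans ?_
  rw [← Finset.sum_div]
  have h8 : ∑ n ∈ Bx V, WW (2 * V) (-lam) (lam * Q) n ^ 4 ≤
      ∑ n ∈ Finset.Icc 1 (NZ (2 * V)), WW (2 * V) (-lam) (lam * Q) n ^ 4 := by
    apply Finset.sum_le_sum_of_subset_of_nonneg
    · intro n hn
      exact Finset.mem_Icc.mpr ⟨(mem_Bx.mp hn).1, (Bx_pos hV10 hn).2⟩
    · intro n _ _; positivity
  calc _ ≤ 16 * C * (1 + Real.log (2 + Q)) ^ 2 * (V * Real.log V) / Q ^ 3 := by
        apply div_le_div_of_nonneg_right (h8.trans h6) (by positivity)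
    _ = 16 * C * ((1 + Real.log (2 + Q)) ^ 2 / Q ^ 3 * (V * Real.log V)) := by ring
    _ ≤ (16 * C + 1) * ((1 + Real.log (2 + Q)) ^ 2 / Q ^ 3 * (V * Real.log V)) := by
        apply mul_le_mul_of_nonneg_right (by linarith) (by positivity)
    _ = _ := by ring

/-- the gaps in a block are small -/
theorem sup_blk (hRH : RHs) : ∃ C : ℝ, 1 ≤ C ∧ ∀ K : ℕ, ∃ V0 : ℝ, 10 ≤ V0 ∧ ∀ V : ℝ, V0 ≤ V →
    ∀ n : ℕ, NZ V ≤ n → n ≤ NZ (2 * V) + K → 1 ≤ n ∧ 0 ≤ dif (yv V) n ∧
      dif (yv V) n ≤ C * Real.log V := by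
  obtain ⟨κ, D, C, hκ, hκ1, hD, hC, hg⟩ := good_ev
  obtain ⟨C2, hC2, hgap⟩ := Pool.Agent.Y743.PR.gap_log hRH
  refine ⟨6 * C2 + 1, by linarith, fun K => ?_⟩
  obtain ⟨Tg, hTg, hgood⟩ := hg K
  have ev : ∀ᶠ V : ℝ in atTop, C * Real.log V ≤ V ∧ 1 ≤ Real.log V := by
    have h1 : (fun T : ℝ => Real.log T ^ 1) =o[atTop] id := Real.isLittleO_pow_log_id_atTop
    have h2 := h1.bound (c := 1 / C) (by positivity)
    filter_upwards [h2, Real.tendsto_log_atTop.eventually_ge_atTop 1, eventually_ge_atTop 1]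
      with V h3 h4 h5
    rw [pow_one, id, Real.norm_of_nonneg (by linarith), Real.norm_of_nonneg (by linarith)] at h3
    refine ⟨?_, h4⟩
    calc C * Real.log V ≤ C * (1 / C * V) := by gcongr
      _ = V := by field_simp
  obtain ⟨V1, hV1⟩ := ev.exists_forall_of_atTop
  refine ⟨max Tg V1, hTg.trans (le_max_left _ _), fun V hV n h1 h2 => ?_⟩
  have hgV := hgood V ((le_max_left _ _).trans hV)
  obtain ⟨h3, h4⟩ := hV1 V ((le_max_right _ _).trans hV)
  have hV10 := hgV.hT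
  obtain ⟨a1, a2, a3⟩ := gam_le hκ (by linarith) hgV.lgκ hgV.n1 hgV.n2 h1
  have hn1 : 1 ≤ n := hgV.n1.trans h1
  refine ⟨hn1, a2, a3.trans ?_⟩
  have hn0 : (0 : ℝ) < n := by exact_mod_cast hn1
  have h5 : (n : ℝ) ≤ V ^ 2 := by
    have h6 : (n : ℝ) ≤ NZ (2 * V) + K := by exact_mod_cast h2
    have h7 : (NZ (2 * V) : ℝ) ≤ NZ (3 * V) := by exact_mod_cast SG.NZ_mono (by linarith)
    have h8 := hgV.card
    nlinarith
  have h6 : Real.log n ≤ 2 * Real.log V := by
    have := Real.log_le_log hn0 h5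
    rw [Real.log_pow] at this
    exact_mod_cast this
  have h7 := hgap n hn1
  have h8 : max (dlt n) 0 ≤ C2 * (3 * Real.log V) := by
    apply max_le
    · refine h7.trans ?_
      apply mul_le_mul_of_nonneg_left _ hC2.le
      linarith
    · positivity
  nlinarith

end Pool.Agent.E8helper70.Dys
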