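import Mathlib

/-! # A band-limited majorant -/

set_option autoImplicit false

open MeasureTheory Filter Topology Set

namespace Pool.Agent.E8helper70.Dys

/-- the majorant on the frequency side -/
noncomputable def gpsi (t : ℝ) : ℝ := (1 - t) * (1 + 2 * Real.cos (Real.pi * t))

/-- Fejér's kernel -/
noncomputable def Fj (y : ℝ) : ℝ := 2 * ∫ t in (0 : ℝ)..1, (1 - t) * Real.cos (Real.pi * y * t)

lemma Fj_eq {y : ℝ} (hy : y ≠ 0) : Fj y = 2 * (1 - Real.cos (Real.pi * y)) / (Real.pi * y) ^ 2 := by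
  have hpi := Real.pi_pos
  have hz : Real.pi * y ≠ 0 := mul_ne_zero hpi.ne' hy
  have hd : ∀ t ∈ Set.uIcc (0 : ℝ) 1, HasDerivAt
      (fun t : ℝ => (1 - t) * (Real.sin (Real.pi * y * t) / (Real.pi * y)) -
        Real.cos (Real.pi * y * t) / (Real.pi * y) ^ 2)
      ((1 - t) * Real.cos (Real.pi * y * t)) t := by
    intro t _
    have h0 : HasDerivAt (fun t : ℝ => Real.pi * y * t) (Real.pi * y) t := by
      simpa using (hasDerivAt_id t).const_mul (Real.pi * y)
    have h1 : HasDerivAt (fun t : ℝ => 1 - t) (-1) t := by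
      simpa using (hasDerivAt_id t).const_sub 1
    have h2 := (h0.sin).div_const (Real.pi * y)
    have h3 := (h0.cos).div_const ((Real.pi * y) ^ 2)
    refine ((h1.mul h2).sub h3).congr_deriv ?_
    field_simp
    ring
  unfold Fj
  rw [intervalIntegral.integral_eq_sub_of_hasDerivAt hd]
  · simp only [mul_zero, Real.sin_zero, Real.cos_zero, mul_one, sub_self, zero_div, zero_mul]
    field_simp
    ring
  · exact Continuous.intervalIntegrable (by fun_prop) _ _

lemma Fj_zero : Fj 0 = 1 := by
  unfold Fj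
  simp only [mul_zero, zero_mul, Real.cos_zero, mul_one]
  rw [intervalIntegral.integral_sub (by simp) (by simp)]
  simp
  norm_num

lemma Fj_nonneg (y : ℝ) : 0 ≤ Fj y := by
  rcases eq_or_ne y 0 with h | h
  · rw [h, Fj_zero]; norm_num
  · rw [Fj_eq h]
    have := Real.cos_le_one (Real.pi * y)
    apply div_nonneg _ (sq_nonneg _)
    linarith

lemma Fj_lower {y D : ℝ} (hD : 0 < D) (h : |y| ≤ D) :
    2 * (1 - Real.cos (Real.pi * y)) / (Real.pi ^ 2 * D ^ 2) ≤ Fj y := by
  have hpi := Real.pi_pos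
  rcases eq_or_ne y 0 with h0 | h0
  · rw [h0, Fj_zero]; simp
  · rw [Fj_eq h0]
    have h1 := Real.cos_le_one (Real.pi * y)
    have h2 : (Real.pi * y) ^ 2 ≤ Real.pi ^ 2 * D ^ 2 := by
      rw [mul_pow]
      apply mul_le_mul_of_nonneg_left _ (by positivity)
      rw [← sq_abs y]
      exact pow_le_pow_left₀ (abs_nonneg _) h 2
    have h3 : 0 < (Real.pi * y) ^ 2 := by positivity
    apply div_le_div_of_nonneg_left (by linarith) h3 h2

/-- **the lower bound for the majorant** -/
lemma psi_lower (x : ℝ) : 2 / Real.pi ^ 2 / (1 + x ^ 2) ≤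
    2 * ∫ t in (0 : ℝ)..1, gpsi t * Real.cos (2 * Real.pi * (x / 2) * t) := by
  have hpi := Real.pi_pos
  have e : 2 * ∫ t in (0 : ℝ)..1, gpsi t * Real.cos (2 * Real.pi * (x / 2) * t) =
      Fj x + (Fj (x - 1) + Fj (x + 1)) := by
    unfold Fj
    rw [← mul_add, ← mul_add, ← intervalIntegral.integral_add, ← intervalIntegral.integral_add]
    · congr 1
      apply intervalIntegral.integral_congr
      intro t _
      simp only [gpsi]
      have e1 : Real.pi * (x - 1) * t = Real.pi * x * t - Real.pi * t := by ring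
      have e2 : Real.pi * (x + 1) * t = Real.pi * x * t + Real.pi * t := by ring
      have e3 : 2 * Real.pi * (x / 2) * t = Real.pi * x * t := by ring
      rw [e1, e2, e3, Real.cos_sub, Real.cos_add]
      ring
    · exact Continuous.intervalIntegrable (by fun_prop) _ _
    · exact Continuous.intervalIntegrable (by fun_prop) _ _
    · exact Continuous.intervalIntegrable (by fun_prop) _ _
    · exact Continuous.intervalIntegrable (by fun_prop) _ _
  rw [e]
  have hx := abs_nonneg x
  have h1 := Fj_lower (y := x) (D := 1 + |x|) (by positivity) (by linarith)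
  have h2 := Fj_lower (y := x - 1) (D := 1 + |x|) (by positivity) (by
    refine (abs_sub _ _).trans ?_
    rw [abs_one]; linarith)
  have h3 := Fj_nonneg (x + 1)
  have e4 : Real.cos (Real.pi * (x - 1)) = -Real.cos (Real.pi * x) := by
    rw [show Real.pi * (x - 1) = Real.pi * x - Real.pi by ring, Real.cos_sub_pi]
  rw [e4] at h2
  have h4 : 2 / Real.pi ^ 2 / (1 + x ^ 2) ≤ 2 * (1 - Real.cos (Real.pi * x)) /
      (Real.pi ^ 2 * (1 + |x|) ^ 2) + 2 * (1 - -Real.cos (Real.pi * x)) /
      (Real.pi ^ 2 * (1 + |x|) ^ 2) := by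
    rw [← add_div]
    have e5 : 2 * (1 - Real.cos (Real.pi * x)) + 2 * (1 - -Real.cos (Real.pi * x)) = 4 := by ring
    rw [e5, div_div, div_le_div_iff₀ (by positivity) (by positivity)]
    have h6 : (1 + |x|) ^ 2 ≤ 2 * (1 + x ^ 2) := by
      rw [← sq_abs x]
      nlinarith [sq_nonneg (1 - |x|)]
    have : 0 < Real.pi ^ 2 := by positivity
    nlinarith
  linarith

lemma gpsi_one : gpsi 1 = 0 := by unfold gpsi; ring

lemma gpsi_cd : ContDiff ℝ 1 gpsi := by
  unfold gpsi
  fun_prop

end Pool.Agent.E8helper70.Dys
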