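import Pool.Agent.E8helper70.Dys.Lid
import Pool.Agent.E8helper70.Dys.Psi

/-! # The pair sum of a test function at a large scale -/

set_option autoImplicit false

open MeasureTheory Filter Topology Set
open scoped ContDiff

namespace Pool.Agent.E8helper70.Dys

/-- Montgomery's theorem in blocks, the hypothesis -/
def PairHyp (S : ℝ → Finset ℕ) (o : ℕ → ℝ) (X : ℝ → ℝ) : Prop :=
  (∀ V, 10 ≤ V → 0 < X V) ∧
  ∀ g : ℝ → ℝ, ContDiff ℝ 1 g → g 1 = 0 → ∀ ε : ℝ, 0 < ε → ∃ V0 : ℝ, 10 ≤ V0 ∧ ∀ V : ℝ, V0 ≤ V →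
    |((S V).card : ℝ) - X V| ≤ ε * X V ∧
    |∑ n ∈ S V, ∑ m ∈ S V, Real.exp (-(o n - o m) ^ 2 / 4) *
      (2 * ∫ t in (0 : ℝ)..1, g t *
        Real.cos (2 * Real.pi * (1 / 2 * Real.log V / (2 * Real.pi) * (o n - o m)) * t)) -
      X V * (g 0 / (1 / 2) + 2 * (1 / 2) * ∫ t in (0 : ℝ)..1, t * g t)| ≤ ε * X V

/-- the limit functional -/
noncomputable def LG (G : ℝ → ℝ) : ℝ := 1 / Real.pi ^ 2 * ∫ x in Ioi (0 : ℝ), (G 0 - G x) / x ^ 2

/-- a scaled distance between ordinates -/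
noncomputable def ds (o : ℕ → ℝ) (V : ℝ) (n m : ℕ) : ℝ := Real.log V / (2 * Real.pi) * (o n - o m)

theorem pair_blk {S : ℝ → Finset ℕ} {o : ℕ → ℝ} {X : ℝ → ℝ} (H : PairHyp S o X)
    {G : ℝ → ℝ} (hs : ContDiff ℝ ∞ G) (hc : HasCompactSupport G) (hev : ∀ x, G (-x) = G x) :
    ∃ C : ℝ, 0 < C ∧ ∀ R : ℝ, 1 ≤ R → ∀ ε : ℝ, 0 < ε → ∃ V0 : ℝ, 10 ≤ V0 ∧ ∀ V : ℝ, V0 ≤ V →
      |((S V).card : ℝ) - X V| ≤ ε * X V ∧
      |∑ n ∈ S V, ∑ m ∈ S V, G (ds o V n m / R) - X V * (R * (∫ x, G x) + 1 / R * LG G)| ≤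
        (C / R ^ 3 + ε) * X V := by
  obtain ⟨hXpos, H⟩ := H
  obtain ⟨p, p1, p2, td⟩ := exists_TD hs hc hev
  obtain ⟨Cc, hCc, hcut⟩ := cut td
  obtain ⟨G1, G2, G3, G4, B, tf⟩ := exists_TF hs hc
  have hB := tf.B0
  have hpi := Real.pi_pos
  have hpi3 := Real.pi_gt_three
  -- the support
  obtain ⟨A, hA0, hA⟩ : ∃ A : ℝ, 0 < A ∧ ∀ x, A < |x| → G x = 0 := by
    obtain ⟨A, hA⟩ := hc.isCompact.isBounded.subset_closedBall (0 : ℝ)
    refine ⟨|A| + 1, by positivity, fun x hx => ?_⟩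
    by_contra hne
    have h1 : x ∈ tsupport G := subset_tsupport _ hne
    have h2 := hA h1
    rw [Metric.mem_closedBall, Real.dist_eq, sub_zero] at h2
    linarith [le_abs_self A]
  -- the majorant
  obtain ⟨Cp, hCp⟩ : ∃ Cp : ℝ, Cp = gpsi 0 / (1 / 2) + 2 * (1 / 2) * ∫ t in (0 : ℝ)..1, t * gpsi t :=
    ⟨_, rfl⟩
  obtain ⟨C1, hC1⟩ : ∃ C1 : ℝ, C1 = Real.pi ^ 2 / 2 * (|Cp| + 1) := ⟨_, rfl⟩
  have hC1p : 0 < C1 := by rw [hC1]; positivity
  refine ⟨Cc * C1 + Cc, by positivity, fun R hR ε hε => ?_⟩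
  have hR0 : 0 < R := by linarith
  obtain ⟨g, hg, hg1, hg0, hgm, hgd⟩ := hcut R hR
  obtain ⟨V1, hV1, h1⟩ := H g hg hg1 (ε / 2) (by positivity)
  obtain ⟨V2, hV2, h2⟩ := H gpsi gpsi_cd gpsi_one 1 one_pos
  -- the Gaussian factor
  obtain ⟨Q, hQ⟩ : ∃ Q : ℝ, Q = A * R := ⟨_, rfl⟩
  have hQ0 : 0 < Q := by rw [hQ]; positivity
  have hlim : Tendsto (fun V : ℝ => Real.log V / (2 * Real.pi)) atTop atTop :=
    Real.tendsto_log_atTop.atTop_div_const (by positivity)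
  have hlim2 : Tendsto (fun V : ℝ => Q / (Real.log V / (2 * Real.pi))) atTop (𝓝 0) :=
    hlim.const_div_atTop Q
  have hlim3 : Tendsto (fun V : ℝ => B / 2 * (1 + Q ^ 2) * (Q / (Real.log V / (2 * Real.pi))) ^ 2)
      atTop (𝓝 0) := by
    have := (hlim2.pow 2).const_mul (B / 2 * (1 + Q ^ 2))
    simpa using this
  have ev3 := hlim3.eventually_le_const (show (0 : ℝ) < ε / 2 / C1 by positivity)
  have ev2 := hlim2.eventually_le_const (show (0 : ℝ) < 1 by norm_num)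
  obtain ⟨V3, hV3⟩ := (ev3.and (ev2.and (hlim.eventually_gt_atTop 0))).exists_forall_of_atTop
  refine ⟨max (max V1 V2) V3, hV1.trans ((le_max_left _ _).trans (le_max_left _ _)),
    fun V hV => ?_⟩
  have hVV1 : V1 ≤ V := ((le_max_left _ _).trans (le_max_left _ _)).trans hV
  have hVV2 : V2 ≤ V := ((le_max_right _ _).trans (le_max_left _ _)).trans hV
  obtain ⟨q3, q2, q1⟩ := hV3 V ((le_max_right _ _).trans hV)
  have hX : 0 < X V := hXpos V (hV1.trans hVV1)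
  obtain ⟨c1, c2⟩ := h1 V hVV1
  obtain ⟨c3, c4⟩ := h2 V hVV2
  refine ⟨c1.trans (by nlinarith), ?_⟩
  set a : ℝ := Real.log V / (2 * Real.pi) with ha
  have hds : ∀ n m, ds o V n m = a * (o n - o m) := fun n m => rfl
  have harg : ∀ n m, 1 / 2 * Real.log V / (2 * Real.pi) * (o n - o m) = ds o V n m / 2 := by
    intro n m
    rw [hds, ha]; ring
  simp_rw [harg] at c2 c4
  -- the sum of the majorant
  set E : ℕ → ℕ → ℝ := fun n m => Real.exp (-(o n - o m) ^ 2 / 4) with hE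
  have hE0 : ∀ n m, 0 < E n m := fun n m => Real.exp_pos _
  set Sp : ℝ := ∑ n ∈ S V, ∑ m ∈ S V, E n m * (1 / (1 + ds o V n m ^ 2)) with hSp
  have hSp0 : 0 ≤ Sp := Finset.sum_nonneg fun n _ => Finset.sum_nonneg fun m _ =>
    mul_nonneg (hE0 n m).le (by positivity)
  have hSple : Sp ≤ C1 * X V := by
    have e1 : 2 / Real.pi ^ 2 * Sp ≤ ∑ n ∈ S V, ∑ m ∈ S V, E n m *
        (2 * ∫ t in (0 : ℝ)..1, gpsi t * Real.cos (2 * Real.pi * (ds o V n m / 2) * t)) := by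
      rw [hSp, Finset.mul_sum]
      refine Finset.sum_le_sum fun n _ => ?_
      rw [Finset.mul_sum]
      refine Finset.sum_le_sum fun m _ => ?_
      have := psi_lower (ds o V n m)
      calc 2 / Real.pi ^ 2 * (E n m * (1 / (1 + ds o V n m ^ 2))) =
          E n m * (2 / Real.pi ^ 2 / (1 + ds o V n m ^ 2)) := by ring
        _ ≤ _ := mul_le_mul_of_nonneg_left this (hE0 n m).le
    have e2 := (abs_le.1 c4).2
    rw [← hCp] at e2
    have e3 : Cp ≤ |Cp| := le_abs_self Cp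
    have e4 : 2 / Real.pi ^ 2 * Sp ≤ (|Cp| + 1) * X V := by nlinarith
    have e5 : Sp = Real.pi ^ 2 / 2 * (2 / Real.pi ^ 2 * Sp) := by field_simp
    rw [e5, hC1]
    calc Real.pi ^ 2 / 2 * (2 / Real.pi ^ 2 * Sp) ≤ Real.pi ^ 2 / 2 * ((|Cp| + 1) * X V) :=
          mul_le_mul_of_nonneg_left e4 (by positivity)
      _ = _ := by ring
  -- high frequencies
  set S0 := ∑ n ∈ S V, ∑ m ∈ S V, G (ds o V n m / R) with hS0
  set S1 := ∑ n ∈ S V, ∑ m ∈ S V, E n m * G (ds o V n m / R) with hS1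
  set S2 := ∑ n ∈ S V, ∑ m ∈ S V, E n m *
    (2 * ∫ t in (0 : ℝ)..1, g t * Real.cos (2 * Real.pi * (ds o V n m / 2) * t)) with hS2
  have s12 : |S1 - S2| ≤ Cc / R ^ 3 * Sp := by
    rw [hS1, hS2, hSp, ← Finset.sum_sub_distrib, Finset.mul_sum]
    refine (Finset.abs_sum_le_sum_abs _ _).trans (Finset.sum_le_sum fun n _ => ?_)
    rw [← Finset.sum_sub_distrib, Finset.mul_sum]
    refine (Finset.abs_sum_le_sum_abs _ _).trans (Finset.sum_le_sum fun m _ => ?_)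
    rw [← mul_sub, abs_mul, abs_of_pos (hE0 n m)]
    have := hgd (ds o V n m)
    calc _ ≤ E n m * (Cc / R ^ 3 / (1 + ds o V n m ^ 2)) :=
          mul_le_mul_of_nonneg_left this (hE0 n m).le
      _ = _ := by ring
  -- the Gaussian factor
  have s01 : |S0 - S1| ≤ ε / 2 / C1 * Sp := by
    rw [hS0, hS1, hSp, ← Finset.sum_sub_distrib, Finset.mul_sum]
    refine (Finset.abs_sum_le_sum_abs _ _).trans (Finset.sum_le_sum fun n _ => ?_)
    rw [← Finset.sum_sub_distrib, Finset.mul_sum]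
    refine (Finset.abs_sum_le_sum_abs _ _).trans (Finset.sum_le_sum fun m _ => ?_)
    set d := o n - o m with hd
    have hEd : E n m = Real.exp (-d ^ 2 / 4) := rfl
    have hE1 : E n m ≤ 1 := by
      rw [hEd, Real.exp_le_one_iff]
      have := sq_nonneg d
      linarith
    have hE2 : 1 - d ^ 2 / 4 ≤ E n m := by
      rw [hEd]
      have := Real.add_one_le_exp (-d ^ 2 / 4)
      linarith
    have e0 : G (ds o V n m / R) - E n m * G (ds o V n m / R) =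
        (1 - E n m) * G (ds o V n m / R) := by ring
    rw [e0, abs_mul, abs_of_nonneg (by linarith : 0 ≤ 1 - E n m)]
    rcases lt_or_ge A |ds o V n m / R| with h | h
    · rw [hA _ h, abs_zero, mul_zero]
      have := hE0 n m
      positivity
    · rw [abs_div, abs_of_pos hR0, div_le_iff₀ hR0, ← hQ] at h
      have h5 : |d| ≤ Q / a := by
        rw [le_div_iff₀ q1]
        rw [hds, abs_mul, abs_of_pos q1] at h
        rw [mul_comm]; exact h
      have h6 : d ^ 2 ≤ (Q / a) ^ 2 := by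
        rw [← sq_abs d]
        exact pow_le_pow_left₀ (abs_nonneg _) h5 2
      have h7 : (Q / a) ^ 2 ≤ 1 := by
        have : 0 ≤ Q / a := by positivity
        nlinarith
      have h8 : 1 / 2 ≤ E n m := by linarith
      have h9 : ds o V n m ^ 2 ≤ Q ^ 2 := by
        rw [← sq_abs]
        exact pow_le_pow_left₀ (abs_nonneg _) h 2
      have h10 : (1 - E n m) * |G (ds o V n m / R)| ≤ d ^ 2 / 4 * B := by
        apply mul_le_mul (by linarith) (tf.b0 _) (abs_nonneg _) (by positivity)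
      have h11 : d ^ 2 / 4 * B ≤ (Q / a) ^ 2 / 4 * B := by gcongr
      have h12 : (Q / a) ^ 2 / 4 * B ≤ ε / 2 / C1 * (1 / 2 * (1 / (1 + Q ^ 2))) := by
        have e : (Q / a) ^ 2 / 4 * B = (B / 2 * (1 + Q ^ 2) * (Q / a) ^ 2) *
            (1 / 2 * (1 / (1 + Q ^ 2))) := by field_simp; ring
        rw [e]
        exact mul_le_mul_of_nonneg_right q3 (by positivity)
      have h13 : (1 / 2 * (1 / (1 + Q ^ 2))) ≤ E n m * (1 / (1 + ds o V n m ^ 2)) := by
        apply mul_le_mul h8 _ (by positivity) (hE0 n m).le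
        apply one_div_le_one_div_of_le (by positivity)
        linarith
      calc _ ≤ ε / 2 / C1 * (1 / 2 * (1 / (1 + Q ^ 2))) := h10.trans (h11.trans h12)
        _ ≤ _ := mul_le_mul_of_nonneg_left h13 (by positivity)
  -- the main term
  have hval : g 0 / (1 / 2) + 2 * (1 / 2) * ∫ t in (0 : ℝ)..1, t * g t =
      R * (∫ x, G x) + ∫ t in (0 : ℝ)..1, t * g t := by
    rw [hg0]; ring
  rw [hval] at c2
  have hL : 2 / R * ∫ ξ in Ioi (0 : ℝ), ξ * p ξ = 1 / R * LG G := by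
    have := lid td
    unfold LG
    rw [← this]; ring
  rw [hL] at hgm
  have s3 : |S2 - X V * (R * (∫ x, G x) + 1 / R * LG G)| ≤ ε / 2 * X V + Cc / R ^ 3 * X V := by
    set M1 := ∫ t in (0 : ℝ)..1, t * g t
    have e1 : S2 - X V * (R * (∫ x, G x) + 1 / R * LG G) =
        (S2 - X V * (R * (∫ x, G x) + M1)) + X V * (M1 - 1 / R * LG G) := by ring
    rw [e1]
    refine (abs_add_le _ _).trans (add_le_add c2 ?_)
    rw [abs_mul, abs_of_pos hX, mul_comm]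
    exact mul_le_mul_of_nonneg_right hgm hX.le
  have f1 : Cc / R ^ 3 * Sp ≤ Cc / R ^ 3 * (C1 * X V) := mul_le_mul_of_nonneg_left hSple (by positivity)
  have f2 : ε / 2 / C1 * Sp ≤ ε / 2 * X V := by
    calc ε / 2 / C1 * Sp ≤ ε / 2 / C1 * (C1 * X V) := mul_le_mul_of_nonneg_left hSple (by positivity)
      _ = _ := by field_simp
  have e6 : S0 - X V * (R * (∫ x, G x) + 1 / R * LG G) = (S0 - S1) + ((S1 - S2) +
      (S2 - X V * (R * (∫ x, G x) + 1 / R * LG G))) := by ring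
  rw [e6]
  have g1 := abs_add_le (S0 - S1) ((S1 - S2) + (S2 - X V * (R * (∫ x, G x) + 1 / R * LG G)))
  have g2 := abs_add_le (S1 - S2) (S2 - X V * (R * (∫ x, G x) + 1 / R * LG G))
  have e7 : ((Cc * C1 + Cc) / R ^ 3 + ε) * X V = Cc / R ^ 3 * (C1 * X V) + Cc / R ^ 3 * X V +
      (ε / 2 * X V + ε / 2 * X V) := by ring
  rw [e7]
  linarith

end Pool.Agent.E8helper70.Dys
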