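import Pool.Agent.E8helper70.Dys.Mom2
import Pool.Agent.E8helper70.Dys.Glo
import Pool.Agent.E8helper70.Dys.Pair

/-! # First moments, and the normalisation, in blocks -/

set_option autoImplicit false

open Filter Topology MeasureTheory
open scoped ContDiff

namespace Pool.Agent.E8helper70.Dys

open SG (ord NZ)
open SP (RHs)
open LG (dlt)
open Pool.Agent.Y743.LR (yv dif dif_yv dif_nonneg ord_step good_ev gam_cube gam_le dlt_close Good)
open Pool.Agent.Y743.NC (ff ff_eq inner pow3_sum sum_shift)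
open Pool.Agent.Y747 (Bx mem_Bx)
open Pool.Agent.TH873.EW (XV)

lemma Bx_eq {V : ℝ} : Bx V = Finset.Ioc (NZ (V + 1)) (NZ (2 * V - 1)) := by
  ext n
  rw [mem_Bx, Finset.mem_Ioc]
  constructor
  · rintro ⟨h1, h2, h3⟩
    exact ⟨NZ_lt h1 h2, (SG.ord_le_iff h1 _).mp h3⟩
  · rintro ⟨h1, h2⟩
    have h0 : 1 ≤ n := by omega
    refine ⟨h0, ?_, (SG.ord_le_iff h0 _).mpr h2⟩
    by_contra hcon
    push Not at hcon
    have := (SG.ord_le_iff h0 _).mp hcon
    omega

lemma pairHyp (hRH : RiemannHypothesis) : PairHyp Bx ord XV := by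
  refine ⟨fun V hV => XV_pos hV, fun g hg h1 ε hε => ?_⟩
  obtain ⟨V0, hV0, h⟩ := Pool.Agent.Y747.blk_pair hRH hg h1 (μ := 1 / 2) (by norm_num) (by norm_num) hε
  exact ⟨V0, hV0, fun V hV => h V hV⟩

lemma XV_le {V : ℝ} (hV : 10 ≤ V) : V * Real.log V ≤ 8 * XV V := by
  unfold Pool.Agent.TH873.EW.XV
  have hpi := Real.pi_pos
  have hpi4 : Real.pi < 3.15 := Real.pi_lt_d2
  have hl : 0 < Real.log V := Real.log_pos (by linarith)
  rw [mul_div_assoc', le_div_iff₀ (by positivity)]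
  have h1 : 2 * Real.pi * V ≤ 8 * (V - 2) := by nlinarith
  nlinarith

lemma XV_ge {V : ℝ} (hV : 10 ≤ V) : V / 10 ≤ XV V := by
  have h1 := XV_le hV
  have hl : 1 ≤ Real.log V := by
    rw [Real.le_log_iff_exp_le (by linarith)]
    have := Real.exp_one_lt_d9
    linarith
  nlinarith

lemma tele_k (y : ℕ → ℝ) (N1 N2 k : ℕ) (h : N1 ≤ N2) :
    ∑ n ∈ Finset.Ioc N1 N2, (y (n + k) - y n) =
      ∑ i ∈ Finset.range k, (y (N2 + 1 + i) - y (N1 + 1 + i)) := by
  induction N2, h using Nat.le_induction with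
  | base => simp
  | succ N2 h ih =>
    have e1 : Finset.Ioc N1 (N2 + 1) = insert (N2 + 1) (Finset.Ioc N1 N2) := by
      ext m
      simp only [Finset.mem_Ioc, Finset.mem_insert]
      omega
    rw [e1, Finset.sum_insert (by simp), ih]
    have e2 : y (N2 + 1 + k) - y (N2 + 1) =
        ∑ i ∈ Finset.range k, (y (N2 + 1 + (i + 1)) - y (N2 + 1 + i)) := by
      rw [Finset.sum_range_sub (fun i => y (N2 + 1 + i))]
    rw [e2, ← Finset.sum_add_distrib]
    refine Finset.sum_congr rfl fun i _ => ?_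
    have e3 : N2 + 1 + 1 + i = N2 + 1 + (i + 1) := by ring
    rw [e3]
    ring

/-- an ordinate shortly after a given height -/
lemma after (y : ℕ → ℝ) (N K : ℕ) (c M : ℝ) (h0 : y N ≤ c) (h1 : c ≤ y (N + 1))
    (hd : ∀ j, j ≤ K → 0 ≤ y (N + j + 1) - y (N + j) ∧ y (N + j + 1) - y (N + j) ≤ M) (i : ℕ)
    (hi : i ≤ K) : c ≤ y (N + 1 + i) ∧ y (N + 1 + i) ≤ c + (i + 1) * M := by
  induction i with
  | zero =>
    have := hd 0 (by omega)
    simp only [add_zero] at this ⊢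
    refine ⟨h1, ?_⟩
    push_cast
    linarith [this.2]
  | succ i ih =>
    have h2 := ih (by omega)
    have h3 := hd (i + 1) hi
    have e1 : N + (i + 1) = N + 1 + i := by ring
    have e2 : N + (i + 1) + 1 = N + 1 + (i + 1) := by ring
    rw [e2, e1] at h3
    push_cast
    constructor
    · linarith [h3.1]
    · linarith [h3.2]

/-- **first moments** -/
theorem first (hRH : RiemannHypothesis) (hR : RHs) (k : ℕ) (ε : ℝ) (hε : 0 < ε) : ∃ V0 : ℝ,
    10 ≤ V0 ∧ ∀ V : ℝ, V0 ≤ V → |∑ n ∈ Bx V, uu (yv V) k n| ≤ ε * XV V := by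
  obtain ⟨C, hC, hs⟩ := sup_blk hR
  obtain ⟨V1, hV1, h1⟩ := hs (k + 1)
  obtain ⟨V2, hV2, h2⟩ := (pairHyp hRH).2 gpsi gpsi_cd gpsi_one (ε / (2 * (k + 1))) (by positivity)
  have ev : ∀ᶠ V : ℝ in atTop, (k : ℝ) ^ 2 * C * Real.log V ≤ ε / 20 * V := by
    have h3 : (fun T : ℝ => Real.log T ^ 1) =o[atTop] id := Real.isLittleO_pow_log_id_atTop
    have h4 := h3.bound (c := ε / 20 / ((k : ℝ) ^ 2 * C + 1)) (by positivity)
    filter_upwards [h4, eventually_ge_atTop 1] with V h5 h6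
    have hl : 0 ≤ Real.log V := Real.log_nonneg h6
    rw [pow_one, id, Real.norm_of_nonneg hl, Real.norm_of_nonneg (by linarith)] at h5
    calc (k : ℝ) ^ 2 * C * Real.log V ≤ ((k : ℝ) ^ 2 * C + 1) * Real.log V := by nlinarith
      _ ≤ ((k : ℝ) ^ 2 * C + 1) * (ε / 20 / ((k : ℝ) ^ 2 * C + 1) * V) := by gcongr
      _ = ε / 20 * V := by field_simp
  obtain ⟨V3, hV3⟩ := ev.exists_forall_of_atTop
  refine ⟨max (max V1 V2) V3, hV1.trans ((le_max_left _ _).trans (le_max_left _ _)), fun V hV => ?_⟩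
  have hVV1 : V1 ≤ V := ((le_max_left _ _).trans (le_max_left _ _)).trans hV
  have hVV2 : V2 ≤ V := ((le_max_right _ _).trans (le_max_left _ _)).trans hV
  have hV10 : 10 ≤ V := hV1.trans hVV1
  have hsm := hV3 V ((le_max_right _ _).trans hV)
  have hcard := (h2 V hVV2).1
  have hX := XV_pos hV10
  have hlV : 0 < Real.log V := Real.log_pos (by linarith)
  have hpi := Real.pi_pos
  have hsup := h1 V hVV1
  obtain ⟨N1, hN1⟩ : ∃ N1, N1 = NZ (V + 1) := ⟨_, rfl⟩
  obtain ⟨N2, hN2⟩ : ∃ N2, N2 = NZ (2 * V - 1) := ⟨_, rfl⟩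
  have hN12 : N1 ≤ N2 := by rw [hN1, hN2]; exact SG.NZ_mono (by linarith)
  have hVN1 : NZ V ≤ N1 := by rw [hN1]; exact SG.NZ_mono (by linarith)
  have hN2V : N2 ≤ NZ (2 * V) := by rw [hN2]; exact SG.NZ_mono (by linarith)
  have hN11 : 1 ≤ N1 := (hsup N1 hVN1 (by omega)).1
  have hN21 : 1 ≤ N2 := hN11.trans hN12
  obtain ⟨a, ha⟩ : ∃ a : ℝ, a = Real.log V / (2 * Real.pi) := ⟨_, rfl⟩
  have ha0 : 0 < a := by rw [ha]; positivity
  have hyv : ∀ n, yv V n = ord n * a := by intro n; rw [ha]; rfl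
  have hdif : ∀ n, dif (yv V) n = yv V (n + 1) - yv V n := fun n => rfl
  -- the two ends
  have hA := fun i (hi : i ≤ k) => after (yv V) N1 k ((V + 1) * a) (C * Real.log V)
    (by rw [hyv]
        apply mul_le_mul_of_nonneg_right _ ha0.le
        exact (SG.ord_le_iff hN11 _).mpr (by rw [hN1]))
    (by rw [hyv]
        apply mul_le_mul_of_nonneg_right _ ha0.le
        by_contra hcon
        push Not at hcon
        have := (SG.ord_le_iff (by omega : 1 ≤ N1 + 1) _).mp hcon.le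
        omega)
    (fun j hj => by
      have := hsup (N1 + j) (by omega) (by omega)
      rw [hdif] at this
      exact ⟨this.2.1, this.2.2⟩) i hi
  have hB := fun i (hi : i ≤ k) => after (yv V) N2 k ((2 * V - 1) * a) (C * Real.log V)
    (by rw [hyv]
        apply mul_le_mul_of_nonneg_right _ ha0.le
        exact (SG.ord_le_iff hN21 _).mpr (by rw [hN2]))
    (by rw [hyv]
        apply mul_le_mul_of_nonneg_right _ ha0.le
        by_contra hcon
        push Not at hcon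
        have := (SG.ord_le_iff (by omega : 1 ≤ N2 + 1) _).mp hcon.le
        omega)
    (fun j hj => by
      have := hsup (N2 + j) (by omega) (by omega)
      rw [hdif] at this
      exact ⟨this.2.1, this.2.2⟩) i hi
  have hXa : XV V = (V - 2) * a := by
    unfold Pool.Agent.TH873.EW.XV; rw [ha]; ring
  -- the sum
  have e1 : ∑ n ∈ Bx V, uu (yv V) k n = ∑ i ∈ Finset.range k,
      ((yv V (N2 + 1 + i) - yv V (N1 + 1 + i)) - XV V) - k * (((Bx V).card : ℝ) - XV V) := by
    have e2 : ∑ n ∈ Bx V, uu (yv V) k n = ∑ n ∈ Bx V, (yv V (n + k) - yv V n) - (Bx V).card * k := by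
      unfold uu
      rw [Finset.sum_sub_distrib, Finset.sum_const, nsmul_eq_mul]
    have e3 : ∑ i ∈ Finset.range k, ((yv V (N2 + 1 + i) - yv V (N1 + 1 + i)) - XV V) =
        ∑ i ∈ Finset.range k, (yv V (N2 + 1 + i) - yv V (N1 + 1 + i)) - k * XV V := by
      rw [Finset.sum_sub_distrib (f := fun i => yv V (N2 + 1 + i) - yv V (N1 + 1 + i)),
        Finset.sum_const, Finset.card_range, nsmul_eq_mul]
    rw [e2, e3, ← tele_k (yv V) N1 N2 k hN12, hN1, hN2, ← Bx_eq]
    ring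
  rw [e1]
  refine (abs_sub _ _).trans ?_
  have h5 : |∑ i ∈ Finset.range k, ((yv V (N2 + 1 + i) - yv V (N1 + 1 + i)) - XV V)| ≤
      (k : ℝ) * (k * (C * Real.log V)) := by
    refine (Finset.abs_sum_le_sum_abs _ _).trans ?_
    calc _ ≤ ∑ _i ∈ Finset.range k, (k * (C * Real.log V)) := by
          refine Finset.sum_le_sum fun i hi => ?_
          rw [Finset.mem_range] at hi
          have a1 := hA i hi.le
          have a2 := hB i hi.le
          have hik : (i : ℝ) + 1 ≤ k := by exact_mod_cast hi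
          have h6 : ((i : ℝ) + 1) * (C * Real.log V) ≤ k * (C * Real.log V) :=
            mul_le_mul_of_nonneg_right hik (by positivity)
          rw [hXa, abs_le]
          constructor <;> nlinarith [a1.1, a1.2, a2.1, a2.2]
      _ = _ := by rw [Finset.sum_const, Finset.card_range, nsmul_eq_mul]
  have h6 : |(k : ℝ) * (((Bx V).card : ℝ) - XV V)| ≤ ε / 2 * XV V := by
    rw [abs_mul, Nat.abs_cast]
    have hk0 : (0 : ℝ) ≤ k := Nat.cast_nonneg k
    calc (k : ℝ) * |((Bx V).card : ℝ) - XV V| ≤ k * (ε / (2 * (k + 1)) * XV V) := by gcongr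
      _ = ε / 2 * XV V * (k / (k + 1)) := by field_simp
      _ ≤ ε / 2 * XV V * 1 := by
          apply mul_le_mul_of_nonneg_left _ (by positivity)
          rw [div_le_one (by positivity)]
          linarith
      _ = _ := mul_one _
  have h7 : (k : ℝ) * (k * (C * Real.log V)) ≤ ε / 2 * XV V := by
    have h8 := XV_ge hV10
    calc (k : ℝ) * (k * (C * Real.log V)) = (k : ℝ) ^ 2 * C * Real.log V := by ring
      _ ≤ ε / 20 * V := hsm
      _ ≤ ε / 2 * XV V := by nlinarith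
  linarith

/-- **comparison with the normalised gaps** -/
theorem close (hR : RHs) (k : ℕ) (ε : ℝ) (hε : 0 < ε) : ∃ V0 : ℝ,
    10 ≤ V0 ∧ ∀ V : ℝ, V0 ≤ V → ∑ n ∈ Bx V, |xx (yv V) n * xx (yv V) (n + k) -
      (dlt n - 1) * (dlt (n + k) - 1)| ≤ ε * XV V := by
  obtain ⟨κ, D, C, hκ, hκ1, hD, hC, hg⟩ := good_ev
  obtain ⟨C', hC', hcube⟩ := gam_cube (D := D) hR hκ hC
  obtain ⟨Tg, hTg, hgood⟩ := hg (k + 1)
  obtain ⟨M, hM⟩ : ∃ M : ℝ, M = |Real.log κ| + |Real.log D| + 1 := ⟨_, rfl⟩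
  have hM0 : 1 ≤ M := by
    rw [hM]
    linarith [abs_nonneg (Real.log κ), abs_nonneg (Real.log D)]
  have ev : ∀ᶠ V : ℝ in atTop, M * (1 + 8 * (5 * C + 4 * C') / ε) ≤ Real.log V :=
    Real.tendsto_log_atTop.eventually_ge_atTop _
  obtain ⟨V1, hV1⟩ := ev.exists_forall_of_atTop
  refine ⟨max Tg V1, hTg.trans (le_max_left _ _), fun V hV => ?_⟩
  have hgV := hgood V ((le_max_left _ _).trans hV)
  have hl := hV1 V ((le_max_right _ _).trans hV)
  have hV10 := hgV.hT
  have hX := XV_pos hV10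
  have hlV : 0 < Real.log V := Real.log_pos (by linarith)
  have hY : 0 < V * Real.log V := by positivity
  obtain ⟨τ, hτ⟩ : ∃ τ : ℝ, τ = M / Real.log V := ⟨_, rfl⟩
  have hq : 0 ≤ 8 * (5 * C + 4 * C') / ε := by positivity
  have hτ1 : τ * (1 + 8 * (5 * C + 4 * C') / ε) ≤ 1 := by
    rw [hτ, div_mul_eq_mul_div, div_le_one hlV]
    exact hl
  have hτ0 : 0 ≤ τ := by rw [hτ]; positivity
  have hτ2 : τ ≤ 1 := by nlinarith
  have h23 : NZ (2 * V) ≤ NZ (3 * V) := SG.NZ_mono (by linarith)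
  have hcard : ((Bx V).card : ℝ) ≤ C * (V * Real.log V) := by
    have h1 : Bx V ⊆ Finset.Ioc (NZ V) (NZ (2 * V)) := fun n hn =>
      Finset.mem_Ioc.mpr (Bx_pos hV10 hn)
    have h2 := Finset.card_le_card h1
    rw [Nat.card_Ioc] at h2
    have h3 : (Bx V).card ≤ NZ (3 * V) := by omega
    have h4 : ((Bx V).card : ℝ) ≤ NZ (3 * V) := by exact_mod_cast h3
    have h5 := hgV.card
    have : (0 : ℝ) ≤ ((k + 1 : ℕ) : ℝ) := Nat.cast_nonneg _
    linarith
  have hc0 : ∑ n ∈ Bx V, dif (yv V) n ^ 3 ≤ C' * (V * Real.log V) :=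
    hcube (k + 1) V hgV _ fun m hm => by
      have := Bx_pos hV10 hm
      omega
  have hck : ∑ n ∈ Bx V, dif (yv V) (n + k) ^ 3 ≤ C' * (V * Real.log V) := by
    rw [sum_shift (Bx V) k (fun m => dif (yv V) m ^ 3)]
    refine hcube (k + 1) V hgV _ fun m hm => ?_
    rw [Finset.mem_image] at hm
    obtain ⟨n, hn, rfl⟩ := hm
    have := Bx_pos hV10 hn
    omega
  have hcl : ∀ n ∈ Bx V, ∀ j, j ≤ k → |dif (yv V) (n + j) - dlt (n + j)| ≤
      τ * dif (yv V) (n + j) := by
    intro n hn j hj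
    have hn' := mem_Bx.mp hn
    have hk : κ * V < ord (n + j) := by
      have b1 : ord n ≤ ord (n + j) := SG.ord_mono hn'.1 (Nat.le_add_right n j)
      have b2 : κ * V ≤ V := by nlinarith
      linarith [hn'.2.1]
    have hD' : ord (n + j + 1) ≤ D * V := by
      refine (SG.ord_le_iff (by omega) _).mpr ?_
      have b1 := hgV.n3
      have b2 := (Bx_pos hV10 hn).2
      omega
    have := dlt_close hκ (by linarith) (by linarith) (by omega : 1 ≤ n + j) hk hD'
    rw [← hM, ← hτ] at this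
    exact this
  have hpt : ∀ n ∈ Bx V, |xx (yv V) n * xx (yv V) (n + k) - (dlt n - 1) * (dlt (n + k) - 1)| ≤
      τ * (5 + 2 * dif (yv V) n ^ 3 + 2 * dif (yv V) (n + k) ^ 3) := by
    intro n hn
    have c1 := hcl n hn 0 (Nat.zero_le _)
    have c2 := hcl n hn k le_rfl
    rw [add_zero] at c1
    have x1 : xx (yv V) n = dif (yv V) n - 1 := by rw [dif_xx]; ring
    have x2 : xx (yv V) (n + k) = dif (yv V) (n + k) - 1 := by rw [dif_xx]; ring
    have p1 : 0 ≤ dif (yv V) n := dif_nonneg (by linarith) (mem_Bx.mp hn).1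
    have p2 : 0 ≤ dif (yv V) (n + k) :=
      dif_nonneg (by linarith) (by have := (mem_Bx.mp hn).1; omega)
    rw [x1, x2]
    set a := dif (yv V) n
    set b := dif (yv V) (n + k)
    set a' := dlt n
    set b' := dlt (n + k)
    have e : (a - 1) * (b - 1) - (a' - 1) * (b' - 1) = (a - a') * (b - 1) + (a' - 1) * (b - b') := by
      ring
    rw [e]
    refine (abs_add_le _ _).trans ?_
    rw [abs_mul, abs_mul]
    have q1 : |b - 1| ≤ b + 1 := by rw [abs_le]; constructor <;> linarith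
    have q2 : |a' - 1| ≤ τ * a + a + 1 := by
      have : a' - 1 = -(a - a') + (a - 1) := by ring
      rw [this]
      refine (abs_add_le _ _).trans ?_
      rw [abs_neg]
      have : |a - 1| ≤ a + 1 := by rw [abs_le]; constructor <;> linarith
      linarith
    have q3 : |a - a'| * |b - 1| ≤ τ * a * (b + 1) := mul_le_mul c1 q1 (abs_nonneg _) (by positivity)
    have q4 : |a' - 1| * |b - b'| ≤ (τ * a + a + 1) * (τ * b) :=
      mul_le_mul q2 c2 (abs_nonneg _) (by positivity)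
    have q5 : τ * a ≤ a := by nlinarith
    have q6 : (τ * a + a + 1) * (τ * b) ≤ (2 * a + 1) * (τ * b) :=
      mul_le_mul_of_nonneg_right (by linarith) (by positivity)
    have cube : ∀ x : ℝ, 0 ≤ x → x ^ 2 ≤ 1 + x ^ 3 := by
      intro x hx
      rcases le_total x 1 with h | h
      · have : 0 ≤ x ^ 3 := by positivity
        nlinarith
      · have : x ^ 2 * 1 ≤ x ^ 2 * x := mul_le_mul_of_nonneg_left h (sq_nonneg _)
        nlinarith
    have q7 := cube a p1
    have q8 := cube b p2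
    have q9 : 3 * (a * b) + a + b ≤ 5 + 2 * a ^ 3 + 2 * b ^ 3 := by
      nlinarith [sq_nonneg (a - b), sq_nonneg (a - 1), sq_nonneg (b - 1)]
    calc |a - a'| * |b - 1| + |a' - 1| * |b - b'| ≤ τ * a * (b + 1) + (2 * a + 1) * (τ * b) := by
          linarith
      _ = τ * (3 * (a * b) + a + b) := by ring
      _ ≤ _ := mul_le_mul_of_nonneg_left q9 hτ0
  refine (Finset.sum_le_sum hpt).trans ?_
  rw [← Finset.mul_sum, Finset.sum_add_distrib, Finset.sum_add_distrib, Finset.sum_const,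
    nsmul_eq_mul, ← Finset.mul_sum, ← Finset.mul_sum]
  have h1 : ((Bx V).card : ℝ) * 5 + 2 * ∑ n ∈ Bx V, dif (yv V) n ^ 3 +
      2 * ∑ n ∈ Bx V, dif (yv V) (n + k) ^ 3 ≤ (5 * C + 4 * C') * (V * Real.log V) := by linarith
  have h2 : τ * ((5 * C + 4 * C') * 8) ≤ ε := by
    have h3 : τ * (8 * (5 * C + 4 * C') / ε) ≤ 1 := by nlinarith
    rw [mul_div_assoc', div_le_one hε] at h3
    linarith
  calc τ * (((Bx V).card : ℝ) * 5 + 2 * ∑ n ∈ Bx V, dif (yv V) n ^ 3 +
      2 * ∑ n ∈ Bx V, dif (yv V) (n + k) ^ 3) ≤ τ * ((5 * C + 4 * C') * (V * Real.log V)) :=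
        mul_le_mul_of_nonneg_left h1 hτ0
    _ ≤ τ * ((5 * C + 4 * C') * (8 * XV V)) := by
        have := XV_le hV10
        gcongr
    _ = τ * ((5 * C + 4 * C') * 8) * XV V := by ring
    _ ≤ ε * XV V := mul_le_mul_of_nonneg_right h2 hX.le

end Pool.Agent.E8helper70.Dys
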