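import Pool.Agent.E8helper70.Dys.Comb

/-! # Pair sums and sums over lags: the expansion -/

set_option autoImplicit false

open Finset

namespace Pool.Agent.E8helper70.Dys

open Pool.Agent.R846.NC (AA)

lemma mvt0 {f f' : ℝ → ℝ} {h K : ℝ} (hd : ∀ s, HasDerivAt f (f' s) s) (h0 : f 0 = 0)
    (hb : ∀ s, |s| ≤ |h| → |f' s| ≤ K) : ∀ s, |s| ≤ |h| → |f s| ≤ K * |h| := by
  intro s hs
  have hK : 0 ≤ K := (abs_nonneg _).trans (hb s hs)
  have hconv : Convex ℝ (Set.Icc (-|h|) |h|) := convex_Icc _ _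
  have h1 := hconv.norm_image_sub_le_of_norm_hasDerivWithin_le (f := f) (f' := f') (C := K)
    (fun x _ => (hd x).hasDerivWithinAt) (fun x hx => by
      rw [Real.norm_eq_abs]
      exact hb x (abs_le.mpr hx)) (x := 0) (y := s)
    (by constructor <;> simp) (abs_le.mp hs)
  rw [h0, sub_zero, sub_zero, Real.norm_eq_abs, Real.norm_eq_abs] at h1
  exact h1.trans (mul_le_mul_of_nonneg_left hs hK)

/-- a test function with its first four derivatives and a common bound -/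
structure TF (G G1 G2 G3 G4 : ℝ → ℝ) (B : ℝ) : Prop where
  d0 : ∀ x, HasDerivAt G (G1 x) x
  d1 : ∀ x, HasDerivAt G1 (G2 x) x
  d2 : ∀ x, HasDerivAt G2 (G3 x) x
  d3 : ∀ x, HasDerivAt G3 (G4 x) x
  b0 : ∀ x, |G x| ≤ B
  b1 : ∀ x, |G1 x| ≤ B
  b2 : ∀ x, |G2 x| ≤ B
  b3 : ∀ x, |G3 x| ≤ B
  b4 : ∀ x, |G4 x| ≤ B

variable {G G1 G2 G3 G4 : ℝ → ℝ} {B : ℝ}

lemma TF.B0 (h : TF G G1 G2 G3 G4 B) : 0 ≤ B := (abs_nonneg _).trans (h.b0 0)

lemma shift_deriv {f f' : ℝ → ℝ} (hf : ∀ x, HasDerivAt f (f' x) x) (a s : ℝ) :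
    HasDerivAt (fun s => f (a + s)) (f' (a + s)) s := by
  have := (hf (a + s)).comp_const_add a s
  exact this

lemma shift_deriv' {f f' : ℝ → ℝ} (hf : ∀ x, HasDerivAt f (f' x) x) (a s : ℝ) :
    HasDerivAt (fun s => f (a - s)) (-f' (a - s)) s := by
  have := (hf (a - s)).comp_const_sub a s
  exact this

/-- third order Taylor expansion -/
lemma taylor3 (h : TF G G1 G2 G3 G4 B) (a t : ℝ) :
    |G (a + t) - (G a + G1 a * t + G2 a / 2 * t ^ 2)| ≤ 2 * B * (t ^ 2 * min 1 |t|) := by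
  have hB := h.B0
  have ht : 0 ≤ |t| := abs_nonneg t
  -- second derivative
  have s2 : ∀ s, |s| ≤ |t| → |G2 (a + s) - G2 a| ≤ 2 * B * min 1 |t| := by
    intro s hs
    have h1 : |G2 (a + s) - G2 a| ≤ B * |t| := by
      have := mvt0 (f := fun s => G2 (a + s) - G2 a) (f' := fun s => G3 (a + s)) (h := t) (K := B)
        (fun s => (shift_deriv h.d2 a s).sub_const _) (by simp) (fun s _ => h.b3 _) s hs
      exact this
    have h2 : |G2 (a + s) - G2 a| ≤ 2 * B := by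
      refine (abs_sub _ _).trans ?_
      linarith [h.b2 (a + s), h.b2 a]
    rcases le_total 1 |t| with h3 | h3
    · rw [min_eq_left h3]; linarith
    · rw [min_eq_right h3]; nlinarith
  have s1 : ∀ s, |s| ≤ |t| → |G1 (a + s) - G1 a - G2 a * s| ≤ 2 * B * min 1 |t| * |t| := by
    refine mvt0 (f := fun s => G1 (a + s) - G1 a - G2 a * s)
      (f' := fun s => G2 (a + s) - G2 a) (fun s => ?_) (by simp) s2
    have h1 := ((shift_deriv h.d1 a s).sub_const (G1 a)).sub ((hasDerivAt_id s).const_mul (G2 a))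
    exact h1.congr_deriv (by ring)
  have s0 : ∀ s, |s| ≤ |t| → |G (a + s) - (G a + G1 a * s + G2 a / 2 * s ^ 2)| ≤
      2 * B * min 1 |t| * |t| * |t| := by
    refine mvt0 (f := fun s => G (a + s) - (G a + G1 a * s + G2 a / 2 * s ^ 2))
      (f' := fun s => G1 (a + s) - G1 a - G2 a * s) (fun s => ?_) (by simp) s1
    have h1 := (shift_deriv h.d0 a s).sub ((((hasDerivAt_id s).const_mul (G1 a)).const_add (G a)).add
      ((hasDerivAt_pow 2 s).const_mul (G2 a / 2)))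
    exact h1.congr_deriv (by push_cast; ring)
  have h1 := s0 t le_rfl
  refine h1.trans (le_of_eq ?_)
  rw [← sq_abs t]
  ring

/-- second differences -/
lemma diff2 (h : TF G G1 G2 G3 G4 B) (a t : ℝ) :
    |G (a + t) - 2 * G a + G (a - t) - G2 a * t ^ 2| ≤ 2 * B * t ^ 4 := by
  have hB := h.B0
  have ht : 0 ≤ |t| := abs_nonneg t
  have s3 : ∀ s, |s| ≤ |t| → |G3 (a + s) - G3 (a - s)| ≤ 2 * B * |t| := by
    refine mvt0 (f := fun s => G3 (a + s) - G3 (a - s))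
      (f' := fun s => G4 (a + s) + G4 (a - s)) (fun s => ?_) (by simp) (fun s _ => ?_)
    · have h1 := (shift_deriv h.d3 a s).sub (shift_deriv' h.d3 a s)
      exact h1.congr_deriv (by ring)
    · refine (abs_add_le _ _).trans ?_
      linarith [h.b4 (a + s), h.b4 (a - s)]
  have s2 : ∀ s, |s| ≤ |t| → |G2 (a + s) + G2 (a - s) - 2 * G2 a| ≤ 2 * B * |t| * |t| := by
    refine mvt0 (f := fun s => G2 (a + s) + G2 (a - s) - 2 * G2 a)
      (f' := fun s => G3 (a + s) - G3 (a - s)) (fun s => ?_) (by simp; ring) s3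
    have h1 := ((shift_deriv h.d2 a s).add (shift_deriv' h.d2 a s)).sub_const (2 * G2 a)
    exact h1.congr_deriv (by ring)
  have s1 : ∀ s, |s| ≤ |t| → |G1 (a + s) - G1 (a - s) - 2 * G2 a * s| ≤
      2 * B * |t| * |t| * |t| := by
    refine mvt0 (f := fun s => G1 (a + s) - G1 (a - s) - 2 * G2 a * s)
      (f' := fun s => G2 (a + s) + G2 (a - s) - 2 * G2 a) (fun s => ?_) (by simp) s2
    have h1 := ((shift_deriv h.d1 a s).sub (shift_deriv' h.d1 a s)).sub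
      ((hasDerivAt_id s).const_mul (2 * G2 a))
    exact h1.congr_deriv (by ring)
  have s0 : ∀ s, |s| ≤ |t| → |G (a + s) - 2 * G a + G (a - s) - G2 a * s ^ 2| ≤
      2 * B * |t| * |t| * |t| * |t| := by
    refine mvt0 (f := fun s => G (a + s) - 2 * G a + G (a - s) - G2 a * s ^ 2)
      (f' := fun s => G1 (a + s) - G1 (a - s) - 2 * G2 a * s) (fun s => ?_) (by simp; ring) s1
    have h1 := ((((shift_deriv h.d0 a s).sub_const (2 * G a)).add (shift_deriv' h.d0 a s))).sub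
      ((hasDerivAt_pow 2 s).const_mul (G2 a))
    exact h1.congr_deriv (by push_cast; ring)
  refine (s0 t le_rfl).trans (le_of_eq ?_)
  have : t ^ 4 = |t| ^ 4 := by
    rw [show (4 : ℕ) = 2 * 2 by norm_num, pow_mul, pow_mul, sq_abs]
  rw [this]
  ring

/-- the truncated cube -/
noncomputable def Ph (R u : ℝ) : ℝ := u ^ 2 * min 1 (|u| / R)

lemma Ph_nonneg {R : ℝ} (hR : 0 < R) (u : ℝ) : 0 ≤ Ph R u := by
  unfold Ph
  have : 0 ≤ min 1 (|u| / R) := le_min zero_le_one (by positivity)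
  positivity

/-- the value at one lag -/
lemma lag_val (h : TF G G1 G2 G3 G4 B) {R : ℝ} (hR : 1 ≤ R) (k u : ℝ) :
    |G ((k + u) / R) - (G (k / R) + G1 (k / R) / R * u +
      (G ((k + 1) / R) - 2 * G (k / R) + G ((k - 1) / R)) / 2 * u ^ 2)| ≤
      2 * B / R ^ 2 * Ph R u + B / R ^ 4 * u ^ 2 := by
  have hR0 : 0 < R := by linarith
  have h1 := taylor3 h (k / R) (u / R)
  have h2 := diff2 h (k / R) (1 / R)
  have e1 : k / R + u / R = (k + u) / R := by ring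
  have e2 : k / R + 1 / R = (k + 1) / R := by ring
  have e3 : k / R - 1 / R = (k - 1) / R := by ring
  rw [e1] at h1
  rw [e2, e3] at h2
  have e4 : 2 * B * ((u / R) ^ 2 * min 1 |u / R|) = 2 * B / R ^ 2 * Ph R u := by
    unfold Ph
    rw [abs_div, abs_of_pos hR0]
    ring
  rw [e4] at h1
  set P := G ((k + 1) / R) - 2 * G (k / R) + G ((k - 1) / R) with hP
  have e5 : G ((k + u) / R) - (G (k / R) + G1 (k / R) / R * u + P / 2 * u ^ 2) =
      (G ((k + u) / R) - (G (k / R) + G1 (k / R) * (u / R) + G2 (k / R) / 2 * (u / R) ^ 2)) -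
      (P - G2 (k / R) * (1 / R) ^ 2) / 2 * u ^ 2 := by
    field_simp
    ring
  rw [e5]
  refine (abs_sub _ _).trans ?_
  rw [abs_mul, abs_div, abs_two, abs_of_nonneg (sq_nonneg u)]
  have h3 : |P - G2 (k / R) * (1 / R) ^ 2| / 2 * u ^ 2 ≤ B / R ^ 4 * u ^ 2 := by
    apply mul_le_mul_of_nonneg_right _ (sq_nonneg u)
    have : 2 * B * (1 / R) ^ 4 = 2 * (B / R ^ 4) := by ring
    rw [this] at h2
    linarith
  linarith

/-- second differences are small -/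
lemma diff2_le (h : TF G G1 G2 G3 G4 B) {R : ℝ} (hR : 1 ≤ R) (k : ℝ) :
    |G ((k + 1) / R) - 2 * G (k / R) + G ((k - 1) / R)| ≤ 3 * B / R ^ 2 := by
  have hR0 : 0 < R := by linarith
  have hB := h.B0
  have h2 := diff2 h (k / R) (1 / R)
  have e2 : k / R + 1 / R = (k + 1) / R := by ring
  have e3 : k / R - 1 / R = (k - 1) / R := by ring
  rw [e2, e3] at h2
  have h3 : |G2 (k / R) * (1 / R) ^ 2| ≤ B / R ^ 2 := by
    rw [abs_mul, abs_of_nonneg (by positivity : (0 : ℝ) ≤ (1 / R) ^ 2)]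
    have := h.b2 (k / R)
    calc _ ≤ B * (1 / R) ^ 2 := by gcongr
      _ = _ := by ring
  have h4 : 2 * B * (1 / R) ^ 4 ≤ 2 * B / R ^ 2 := by
    have e : 2 * B * (1 / R) ^ 4 = 2 * B / R ^ 2 * (1 / R ^ 2) := by ring
    rw [e]
    apply mul_le_of_le_one_right (by positivity)
    rw [div_le_one (by positivity)]
    exact one_le_pow₀ hR
  have h5 := abs_add_le (G ((k + 1) / R) - 2 * G (k / R) + G ((k - 1) / R) - G2 (k / R) * (1 / R) ^ 2)
    (G2 (k / R) * (1 / R) ^ 2)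
  rw [sub_add_cancel] at h5
  have h6 : 3 * B / R ^ 2 = 2 * B / R ^ 2 + B / R ^ 2 := by ring
  rw [h6]
  linarith

/-- **the expansion of a pair sum** -/
theorem expansion (h : TF G G1 G2 G3 G4 B) (hev : ∀ x, G (-x) = G x) {A R : ℝ} (hR : 1 ≤ R)
    (hA : ∀ x, A < |x| → G x = 0) (y : ℕ → ℝ) (N K : ℕ) (hK : A * R < K) (M : ℝ)
    (hM : ∀ n, 1 ≤ n → n ≤ N + 2 * K → |xx y n| ≤ M) :
    |∑ n ∈ Icc 1 N, ∑ m ∈ Icc 1 N, G ((y m - y n) / R) -
      (N * (G 0 + 2 * ∑ k ∈ Icc 1 K, G (k / R)) +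
        (G 0 * AA (xx y) 0 N + 2 * ∑ k ∈ Icc 1 K, G (k / R) * AA (xx y) k N))| ≤
      2 * B * (∑ n ∈ Icc 1 N, (((Ioc (n + K) N).filter fun m => |y m - y n| ≤ A * R).card : ℝ)) +
        2 * B * (K : ℝ) ^ 2 + 2 * B / R * ∑ k ∈ Icc 1 K, |∑ n ∈ Icc 1 N, uu y k n| +
        4 * B / R ^ 2 * ∑ k ∈ Icc 1 K, ∑ n ∈ Icc 1 N, Ph R (uu y k n) +
        2 * B / R ^ 4 * ∑ k ∈ Icc 1 K, ∑ n ∈ Icc 1 N, uu y k n ^ 2 +
        6 * B / R ^ 2 * ((K : ℝ) ^ 4 * M ^ 2) := by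
  have hR0 : 0 < R := by linarith
  have hB := h.B0
  have hz : ∀ k : ℕ, K ≤ k → G (k / R) = 0 := by
    intro k hk
    apply hA
    rw [abs_of_nonneg (by positivity), lt_div_iff₀ hR0]
    have : (K : ℝ) ≤ k := by exact_mod_cast hk
    linarith
  -- pairs to lags
  have p1 := pair_lag (fun x => G (x / R)) (fun x => by
    show G (-x / R) = G (x / R)
    rw [neg_div, hev]) B (fun x => h.b0 _) (A * R) (fun x hx => by
      apply hA
      rw [abs_div, abs_of_pos hR0, lt_div_iff₀ hR0]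
      exact hx) y N K
  simp only [zero_div] at p1
  -- lags
  have p2 : |∑ k ∈ Icc 1 K, ∑ n ∈ Icc 1 N, G ((y (n + k) - y n) / R) -
      (∑ k ∈ Icc 1 K, (N * G (k / R) + G1 (k / R) / R * ∑ n ∈ Icc 1 N, uu y k n +
        (G ((k + 1) / R) - 2 * G (k / R) + G ((k - 1) / R)) / 2 * ∑ n ∈ Icc 1 N, uu y k n ^ 2))| ≤
      2 * B / R ^ 2 * ∑ k ∈ Icc 1 K, ∑ n ∈ Icc 1 N, Ph R (uu y k n) +
        B / R ^ 4 * ∑ k ∈ Icc 1 K, ∑ n ∈ Icc 1 N, uu y k n ^ 2 := by
    rw [← Finset.sum_sub_distrib, Finset.mul_sum, Finset.mul_sum, ← Finset.sum_add_distrib]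
    refine (Finset.abs_sum_le_sum_abs _ _).trans (Finset.sum_le_sum fun k _ => ?_)
    have e1 : ∑ n ∈ Icc 1 N, G ((y (n + k) - y n) / R) - (N * G (k / R) + G1 (k / R) / R *
        ∑ n ∈ Icc 1 N, uu y k n + (G ((k + 1) / R) - 2 * G (k / R) + G ((k - 1) / R)) / 2 *
        ∑ n ∈ Icc 1 N, uu y k n ^ 2) =
        ∑ n ∈ Icc 1 N, (G ((k + uu y k n) / R) - (G (k / R) + G1 (k / R) / R * uu y k n +
          (G ((k + 1) / R) - 2 * G (k / R) + G ((k - 1) / R)) / 2 * uu y k n ^ 2)) := by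
      rw [Finset.sum_sub_distrib, Finset.sum_add_distrib, Finset.sum_add_distrib, Finset.sum_const,
        Nat.card_Icc, nsmul_eq_mul, Finset.mul_sum, Finset.mul_sum]
      have e2 : ∀ n : ℕ, (k : ℝ) + uu y k n = y (n + k) - y n := by
        intro n; unfold uu; ring
      simp_rw [e2]
      simp
    rw [e1, Finset.mul_sum, Finset.mul_sum, ← Finset.sum_add_distrib]
    exact (Finset.abs_sum_le_sum_abs _ _).trans (Finset.sum_le_sum fun n _ => lag_val h hR _ _)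
  -- first order
  have p3 : |∑ k ∈ Icc 1 K, G1 (k / R) / R * ∑ n ∈ Icc 1 N, uu y k n| ≤
      B / R * ∑ k ∈ Icc 1 K, |∑ n ∈ Icc 1 N, uu y k n| := by
    rw [Finset.mul_sum]
    refine (Finset.abs_sum_le_sum_abs _ _).trans (Finset.sum_le_sum fun k _ => ?_)
    rw [abs_mul]
    apply mul_le_mul_of_nonneg_right _ (abs_nonneg _)
    rw [abs_div, abs_of_pos hR0]
    exact div_le_div_of_nonneg_right (h.b1 _) hR0.le
  -- second order
  have p4 := quad_term (fun k => G (k / R)) y N K M (3 * B / R ^ 2) hz hM (by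
    intro k
    rcases Nat.eq_zero_or_pos k with h0 | h0
    · subst h0
      have h1 := diff2_le h hR 1
      have h2 := diff2_le h hR 0
      simp only [Nat.cast_zero, zero_sub, Nat.zero_sub, zero_add, zero_div, Nat.cast_one] at *
      have h3 := taylor3 h 0 (1 / R)
      -- G (1/R) - 2 G 0 + G 0
      rw [neg_div, hev] at h2
      have e : G (1 / R) - 2 * G 0 + G 0 = (G (1 / R) - 2 * G 0 + G (1 / R)) / 2 := by ring
      rw [e, abs_div, abs_two]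
      have : 0 ≤ 3 * B / R ^ 2 := by positivity
      linarith [abs_nonneg (G (1 / R) - 2 * G 0 + G (1 / R))]
    · have h1 := diff2_le h hR k
      have e : ((k - 1 : ℕ) : ℝ) = k - 1 := by
        rw [Nat.cast_sub h0]; simp
      rw [e]
      push_cast
      exact h1)
  have p4' : ∑ k ∈ Icc 1 K, (G (((k + 1 : ℕ) : ℝ) / R) - 2 * G (k / R) + G (((k - 1 : ℕ) : ℝ) / R)) *
      ∑ n ∈ Icc 1 N, uu y k n ^ 2 = 2 * ∑ k ∈ Icc 1 K,
      (G ((k + 1) / R) - 2 * G (k / R) + G ((k - 1) / R)) / 2 * ∑ n ∈ Icc 1 N, uu y k n ^ 2 := by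
    rw [Finset.mul_sum]
    refine Finset.sum_congr rfl fun k hk => ?_
    rw [mem_Icc] at hk
    have e : ((k - 1 : ℕ) : ℝ) = k - 1 := by
      rw [Nat.cast_sub hk.1]; simp
    rw [e]
    push_cast
    ring
  rw [p4'] at p4
  simp only [Nat.cast_zero, zero_div] at p4
  rw [Finset.sum_add_distrib, Finset.sum_add_distrib, ← Finset.mul_sum] at p2
  set S0 := ∑ n ∈ Icc 1 N, ∑ m ∈ Icc 1 N, G ((y m - y n) / R)
  set S1 := ∑ k ∈ Icc 1 K, ∑ n ∈ Icc 1 N, G ((y (n + k) - y n) / R)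
  set Q1 := ∑ k ∈ Icc 1 K, G1 (k / R) / R * ∑ n ∈ Icc 1 N, uu y k n
  set Q2 := ∑ k ∈ Icc 1 K,
      (G ((k + 1) / R) - 2 * G (k / R) + G ((k - 1) / R)) / 2 * ∑ n ∈ Icc 1 N, uu y k n ^ 2
  set Q0 := ∑ k ∈ Icc 1 K, G (k / R)
  set E1 := ∑ k ∈ Icc 1 K, ∑ n ∈ Icc 1 N, Ph R (uu y k n)
  set E2 := ∑ k ∈ Icc 1 K, ∑ n ∈ Icc 1 N, uu y k n ^ 2
  set E3 := ∑ k ∈ Icc 1 K, |∑ n ∈ Icc 1 N, uu y k n|
  set Z := ∑ n ∈ Icc 1 N, (((Ioc (n + K) N).filter fun m => |y m - y n| ≤ A * R).card : ℝ)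
  set W := ∑ i ∈ Icc 1 K, G (i / R) * AA (xx y) i N
  have e1 : 2 * B / R * E3 = 2 * (B / R * E3) := by ring
  have e2 : 4 * B / R ^ 2 * E1 = 2 * (2 * B / R ^ 2 * E1) := by ring
  have e3 : 2 * B / R ^ 4 * E2 = 2 * (B / R ^ 4 * E2) := by ring
  have e4 : 6 * B / R ^ 2 * ((K : ℝ) ^ 4 * M ^ 2) = 2 * (K : ℝ) ^ 4 * (3 * B / R ^ 2) * M ^ 2 := by
    ring
  rw [e1, e2, e3, e4]
  rw [abs_le] at p1 p2 p3 p4 ⊢
  constructor <;> nlinarith [p1.1, p1.2, p2.1, p2.2, p3.1, p3.2, p4.1, p4.2]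

end Pool.Agent.E8helper70.Dys
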